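import Pool.Agent.PB.Low.Ev

/-!
# PROJECT PB, Section 11, LOW-Base: 11.4 (a), `H(x_0)` for some `x_0 > 0`

PLAN. Functional `W s O y = Wf 0 0 w s O y` (Mix/Defs.lean; `R = 0`, `g = 0`), `w s N Y = min 1 (max 0 (s * N / k - 1))`
(does not depend on `Y`). It satisfies `IsW w 0 c` with `c = 1 + 1/k` (`|w| ≤ min 1 (sN/k) ≤ (1 + 1/k) min 1 (sN)`,
1-Lipschitz functions `min`, `max`), so `Out6.isLSF` gives `IsLSF W c'`, and `Out6.mixing` for `A, y`:
`(EW W s A y - psi A y * EW W s D0 0) / √s → 0`.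
Lower bound of `EW W s D0 0`: `W ≥ 1` on `{⌈2k/s⌉₊ ≤ Nc (Oc ω) 0}` (then `sN/k - 1 ≥ 1`), so
`EW W s D0 0 ≥ Pr{m ≤ Nc}` with `m = ⌈2k/s⌉₊ ≤ 2k/s + 1 ≤ 4k/s` for `s ≤ 2k`; `Out5.tail`: `≥ 1 / (C √m) ≥ √s / (2 C √k)`.
`x_0 = 1 / (2 C √k)`. (`(D0 : Del).rem O = O`.) Integrability: `W` is bounded by 1 and measurable (the functional takes
values through `Nc`, which is measurable).
Upper bound by `f`: `WA W s A (Oc ω) y ≤ 1_{XEv (pc + ε) (k/ε^2) r A y}` for `s = ε^2` and every `r`: if `y ∉ A` and `W > 0`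
then `s N / k > 1`, so `N = ncard (Cl (A.rem (Oc ω)) y) > k / ε^2`; `z = y`, `RchL.refl`. So
`EW W (ε^2) A y ≤ (fr (pc d + ε) (k/ε^2) r A y).toReal`.
Conclusion: given δ take `K = 1`; for small ε: `fr ≥ EW W (ε^2) A y ≥ ψ EW(D0) - δ ε ≥ (x_0 ψ - δ) ε`, `ψ ≥ 0`
(`Out6.psi_nonneg`), substitution `s = ε^2`: `Tendsto (fun ε => ε^2) (𝓝[>] 0) (𝓝[>] 0)`, `√(ε^2) = ε`.
`psiK A y = psi (Del.ofSet A) y` by definition.
-/

set_option autoImplicit false
open MeasureTheory Filter Topology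
open scoped ENNReal BigOperators
namespace Pool.Agent.PB.Low

variable {d : ℕ}

private noncomputable def wk (k : ℝ) (s : ℝ) (N : ℕ) (_ : ℝ) : ℝ :=
  min 1 (max 0 (s * (N : ℝ) / k - 1))

private theorem wk_nonneg (k s : ℝ) (N : ℕ) (Y : ℝ) : 0 ≤ wk k s N Y :=
  le_min zero_le_one (le_max_left _ _)

private theorem wk_le_one (k s : ℝ) (N : ℕ) (Y : ℝ) : wk k s N Y ≤ 1 := min_le_left _ _

private theorem isW_wk {k : ℝ} (hk : 0 < k) : IsW (wk k) 0 (1 + 1 / k) where
  zero_le := le_rfl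
  one_le := by
    have : 0 < 1 / k := by positivity
    linarith
  zero := by
    intro s
    unfold wk
    rw [Nat.cast_zero, mul_zero, zero_div, zero_sub, max_eq_left (by norm_num),
      min_eq_right (by norm_num)]
  bd := by
    intro s hs _ N Y _
    rw [abs_of_nonneg (wk_nonneg _ _ _ _)]
    have hsN : 0 ≤ s * (N : ℝ) := by positivity
    have h1k : 0 < 1 / k := by positivity
    rcases le_total 1 (s * (N : ℝ)) with h | h
    · rw [min_eq_left h, mul_one]
      exact (wk_le_one _ _ _ _).trans (by linarith)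
    · rw [min_eq_right h]
      refine (min_le_right _ _).trans (max_le (by positivity) ?_)
      have : s * (N : ℝ) / k = 1 / k * (s * N) := by ring
      rw [this]
      nlinarith
  lip := by
    intro s hs _ N N' Y Y' _ _
    unfold wk
    refine (abs_min_sub_min_le_max _ _ _ _).trans ?_
    rw [sub_self, abs_zero]
    refine max_le (by positivity) ?_
    rw [max_comm (0 : ℝ) (s * (N : ℝ) / k - 1), max_comm (0 : ℝ) (s * (N' : ℝ) / k - 1)]
    refine (abs_max_sub_max_le_abs _ _ _).trans ?_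
    have h1 : s * (N : ℝ) / k - 1 - (s * (N' : ℝ) / k - 1) = s / k * ((N : ℝ) - N') := by
      field_simp
      ring
    rw [h1, abs_mul, abs_of_nonneg (by positivity : 0 ≤ s / k)]
    have h2 : 0 ≤ |(N : ℝ) - N'| := abs_nonneg _
    have h3 : 0 ≤ |Y - Y'| := abs_nonneg _
    have h4 : s / k * |(N : ℝ) - N'| ≤ (1 + 1 / k) * s * |(N : ℝ) - N'| := by
      refine mul_le_mul_of_nonneg_right ?_ h2
      have : s / k = 1 / k * s := by ring
      rw [this]
      nlinarith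
    have h5 : 0 ≤ (1 + 1 / k) * s * |Y - Y'| := by positivity
    nlinarith

private theorem meas_NcA (A : Del (V d)) (y : V d) :
    Measurable (fun ω : Om d => (Nc (A.rem (Oc ω)) y : ℝ)) := by
  have h1 : (fun ω : Om d => (Nc (A.rem (Oc ω)) y : ℝ)) =
      (fun n : ℕ∞ => ((n.toNat : ℕ) : ℝ)) ∘ fun ω : Om d => (Cl (A.rem (Oc ω)) y).encard := rfl
  rw [h1]
  exact (measurable_of_countable _).comp (MVS.encard (((opn_MES (pc d)).rem A).cl y))

private theorem WA_eq (k s : ℝ) (A : Del (V d)) (O : Set (Sym2 (V d))) (y : V d) (hy : y ∉ A.S) :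
    WA (Wf 0 (fun _ => 0) (wk k)) s A O y = min 1 (max 0 (s * (Nc (A.rem O) y : ℝ) / k - 1)) := by
  unfold WA
  rw [if_neg hy]
  rfl

private theorem WA_bd (k s : ℝ) (A : Del (V d)) (O : Set (Sym2 (V d))) (y : V d) :
    0 ≤ WA (Wf 0 (fun _ => 0) (wk k)) s A O y ∧ WA (Wf 0 (fun _ => 0) (wk k)) s A O y ≤ 1 := by
  unfold WA
  split_ifs
  · exact ⟨le_rfl, zero_le_one⟩
  · exact ⟨wk_nonneg _ _ _ _, wk_le_one _ _ _ _⟩

private theorem WA_meas (k s : ℝ) (A : Del (V d)) (y : V d) :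
    Measurable (fun ω : Om d => WA (Wf 0 (fun _ => 0) (wk k)) s A (Oc ω) y) := by
  by_cases hy : y ∈ A.S
  · have : (fun ω : Om d => WA (Wf 0 (fun _ => 0) (wk k)) s A (Oc ω) y) = fun _ => 0 := by
      funext ω
      unfold WA
      rw [if_pos hy]
    rw [this]
    exact measurable_const
  · have : (fun ω : Om d => WA (Wf 0 (fun _ => 0) (wk k)) s A (Oc ω) y) =
        fun ω => min 1 (max 0 (s * (Nc (A.rem (Oc ω)) y : ℝ) / k - 1)) := by
      funext ω
      exact WA_eq k s A _ y hy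
    rw [this]
    exact measurable_const.min (measurable_const.max
      ((((meas_NcA A y).const_mul s).div_const k).sub_const 1))

private theorem WA_int (k s : ℝ) (A : Del (V d)) (y : V d) :
    Integrable (fun ω : Om d => WA (Wf 0 (fun _ => 0) (wk k)) s A (Oc ω) y) (Pr d) := by
  refine Integrable.of_bound (WA_meas k s A y).aestronglyMeasurable 1
    (Filter.Eventually.of_forall fun ω => ?_)
  rw [Real.norm_eq_abs, abs_of_nonneg (WA_bd k s A _ y).1]
  exact (WA_bd k s A _ y).2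

/-- upper bound of `EW` by the probability of `XEv` -/
private theorem EW_le_fr {k : ℝ} (hk : 0 < k) {ε : ℝ} (hε : 0 < ε) (r : ℕ) (A : Set (V d))
    (y : V d) : EW (Wf 0 (fun _ => 0) (wk k)) (ε ^ 2) (Del.ofSet A) y ≤
      (fr (pc d + ε) (k / ε ^ 2) r A y).toReal := by
  have hm := measurableSet_XEv (pc d + ε) (k / ε ^ 2) r (Del.ofSet A) y
  have h1 : (fr (pc d + ε) (k / ε ^ 2) r A y).toReal =
      ∫ ω, (XEv (pc d + ε) (k / ε ^ 2) r (Del.ofSet A) y).indicator (fun _ => (1 : ℝ)) ω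
        ∂(Pr d) := by
    rw [integral_indicator_const _ hm, smul_eq_mul, mul_one]
    rfl
  rw [h1]
  refine integral_mono (WA_int k _ _ y) ((integrable_const (1 : ℝ)).indicator hm) fun ω => ?_
  by_cases hω : ω ∈ XEv (pc d + ε) (k / ε ^ 2) r (Del.ofSet A) y
  · simp only [Set.indicator_of_mem hω]
    exact (WA_bd k _ _ _ y).2
  · simp only [Set.indicator_of_notMem hω]
    by_cases hy : y ∈ (Del.ofSet A).S
    · unfold WA
      rw [if_pos hy]
    · rw [WA_eq k _ _ _ y hy]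
      refine (min_le_right _ _).trans (max_le le_rfl ?_)
      by_contra hcon
      push Not at hcon
      apply hω
      refine ⟨hy, y, RchL.refl _ _ _, Or.inr ?_⟩
      have h2 : k < ε ^ 2 * (Nc ((Del.ofSet A).rem (Oc ω)) y : ℝ) := by
        have : 1 < ε ^ 2 * (Nc ((Del.ofSet A).rem (Oc ω)) y : ℝ) / k := by linarith
        rwa [lt_div_iff₀ hk, one_mul] at this
      have h3 : k / ε ^ 2 < (Nc ((Del.ofSet A).rem (Oc ω)) y : ℝ) := by
        rw [div_lt_iff₀ (by positivity), mul_comm]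
        exact h2
      exact h3.le

/-- lower bound of `EW` without deletion -/
private theorem EW_ge (h5 : Out5 d) {k : ℝ} (hk : 0 < k) : ∃ x0 : ℝ, 0 < x0 ∧ ∀ s : ℝ, 0 < s →
    s ≤ 2 * k → x0 * Real.sqrt s ≤ EW (Wf 0 (fun _ => 0) (wk k)) s (D0 : Del (V d)) 0 := by
  obtain ⟨C, hC, htail⟩ := h5.tail
  have hC0 : 0 < C := by linarith
  have hsk : 0 < Real.sqrt k := Real.sqrt_pos.2 hk
  refine ⟨1 / (2 * C * Real.sqrt k), by positivity, fun s hs hs2 => ?_⟩
  have hss : 0 < Real.sqrt s := Real.sqrt_pos.2 hs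
  set m : ℕ := ⌈2 * k / s⌉₊ with hm
  have hm0 : 2 * k / s ≤ (m : ℝ) := Nat.le_ceil _
  have hm1 : (m : ℝ) < 2 * k / s + 1 := Nat.ceil_lt_add_one (by positivity)
  have hpos : 0 < 2 * k / s := by positivity
  have hm2 : 1 ≤ m := by
    have : (0 : ℝ) < m := lt_of_lt_of_le hpos hm0
    exact_mod_cast Nat.pos_of_ne_zero (by rintro h; rw [h] at this; simp at this)
  have hle : (m : ℝ) ≤ 4 * k / s := by
    have h1 : (1 : ℝ) ≤ 2 * k / s := by rw [le_div_iff₀ hs]; linarith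
    have h2 : 4 * k / s = 2 * k / s + 2 * k / s := by ring
    rw [h2]
    linarith
  have hsq : Real.sqrt m ≤ 2 * Real.sqrt k / Real.sqrt s := by
    have h1 : Real.sqrt (m : ℝ) ≤ Real.sqrt (4 * k / s) := Real.sqrt_le_sqrt hle
    have h2 : Real.sqrt (4 * k / s) = 2 * Real.sqrt k / Real.sqrt s := by
      rw [Real.sqrt_div (by positivity), Real.sqrt_mul (by norm_num),
        show (4 : ℝ) = 2 ^ 2 by norm_num, Real.sqrt_sq (by norm_num)]
    rwa [h2] at h1
  have hsm : 0 < Real.sqrt m := Real.sqrt_pos.2 (by exact_mod_cast hm2)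
  have h1 : 1 / (2 * C * Real.sqrt k) * Real.sqrt s ≤ 1 / (C * Real.sqrt m) := by
    rw [div_mul_eq_mul_div, one_mul, div_le_div_iff₀ (by positivity) (by positivity)]
    have h2 : Real.sqrt m * Real.sqrt s ≤ 2 * Real.sqrt k := by
      rwa [le_div_iff₀ hss] at hsq
    nlinarith
  refine h1.trans (((htail m hm2).2).trans ?_)
  have hmE : MeasurableSet {ω : Om d | m ≤ Nc (opn (pc d) ω) (0 : V d)} := by
    have h2 : Measurable (fun ω : Om d => Nc (opn (pc d) ω) (0 : V d)) := by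
      have h3 : (fun ω : Om d => Nc (opn (pc d) ω) (0 : V d)) =
        (fun n : ℕ∞ => n.toNat) ∘ fun ω : Om d => (Cl (opn (pc d) ω) (0 : V d)).encard := rfl
      rw [h3]
      exact (measurable_of_countable _).comp (MVS.encard ((opn_MES (pc d)).cl 0))
    exact measurableSet_le measurable_const h2
  have h2 : (Pr d {ω : Om d | m ≤ Nc (opn (pc d) ω) (0 : V d)}).toReal =
      ∫ ω, {ω : Om d | m ≤ Nc (opn (pc d) ω) (0 : V d)}.indicator (fun _ => (1 : ℝ)) ω ∂(Pr d) := by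
    rw [integral_indicator_const _ hmE, smul_eq_mul, mul_one]
    rfl
  rw [h2]
  refine integral_mono ((integrable_const (1 : ℝ)).indicator hmE) (WA_int k s _ 0) fun ω => ?_
  by_cases hω : ω ∈ {ω : Om d | m ≤ Nc (opn (pc d) ω) (0 : V d)}
  · simp only [Set.indicator_of_mem hω]
    have hy : (0 : V d) ∉ (D0 : Del (V d)).S := by simp [D0, Del.ofSet]
    have hrem : (D0 : Del (V d)).rem (Oc ω) = Oc ω := by
      ext e; simp [Del.rem, D0, Del.ofSet]
    rw [WA_eq k s _ _ 0 hy, hrem]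
    have h3 : (m : ℝ) ≤ (Nc (Oc ω) (0 : V d) : ℝ) := by exact_mod_cast hω
    have h4 : 2 * k ≤ s * (Nc (Oc ω) (0 : V d) : ℝ) := by
      have h5 := hm0.trans h3
      rw [div_le_iff₀ hs] at h5
      linarith
    have h5 : 2 ≤ s * (Nc (Oc ω) (0 : V d) : ℝ) / k := by
      rw [le_div_iff₀ hk]; exact h4
    exact le_min le_rfl (le_max_of_le_right (by linarith))
  · simp only [Set.indicator_of_notMem hω]
    exact (WA_bd k s _ _ 0).1

/-- 11.4 (a) -/
theorem base (h5 : Out5 d) (h6 : Out6 d) {k : ℝ} (hk : 0 < k) :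
    ∃ x0 : ℝ, 0 < x0 ∧ HP d k x0 := by
  obtain ⟨x0, hx0, hge⟩ := EW_ge (d := d) h5 hk
  refine ⟨x0, hx0, fun δ hδ => ⟨1, one_pos, fun A y hy => ?_⟩⟩
  obtain ⟨c', hc'⟩ := h6.isLSF 0 (fun _ => 0) (wk k) 0 (1 + 1 / k) (isW_wk hk)
    (fun L _ _ => by simp)
  have hyS : y ∉ (Del.ofSet (A : Set (V d))).S := by simpa [Del.ofSet] using hy
  have hAf : (Del.ofSet (A : Set (V d))).Finite := Del.ofSet_finite A.finite_toSet
  have hmix := h6.mixing _ c' hc' (Del.ofSet (A : Set (V d))) y hAf hyS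
  have hψ := h6.psi_nonneg (Del.ofSet (A : Set (V d))) y hAf hyS
  have hsq : Tendsto (fun ε : ℝ => ε ^ 2) (𝓝[>] 0) (𝓝[>] 0) := by
    refine tendsto_nhdsWithin_iff.2 ⟨?_, ?_⟩
    · have : Continuous (fun ε : ℝ => ε ^ 2) := by fun_prop
      have h := this.tendsto 0
      rw [zero_pow two_ne_zero] at h
      exact h.mono_left nhdsWithin_le_nhds
    · filter_upwards [self_mem_nhdsWithin] with ε hε
      exact pow_pos (show (0 : ℝ) < ε from hε) 2
  have hmix2 := hmix.comp hsq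
  rw [Metric.tendsto_nhds] at hmix2
  have h2k : ∀ᶠ ε in 𝓝[>] (0 : ℝ), ε ^ 2 ≤ 2 * k := by
    have h := (tendsto_nhdsWithin_iff.1 hsq).1
    exact (h.eventually (gt_mem_nhds (by positivity : (0 : ℝ) < 2 * k))).mono fun ε h => le_of_lt h
  filter_upwards [hmix2 δ hδ, h2k, self_mem_nhdsWithin] with ε h1 h2 hε
  have hε' : (0 : ℝ) < ε := hε
  simp only [Function.comp_apply, Real.dist_eq, sub_zero, Real.sqrt_sq hε'.le, abs_div,
    abs_of_pos hε'] at h1
  rw [div_lt_iff₀ hε', abs_lt] at h1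
  have h3 := hge (ε ^ 2) (by positivity) h2
  rw [Real.sqrt_sq hε'.le] at h3
  have h4 := EW_le_fr (d := d) hk hε' ⌊(1 : ℝ) / ε⌋₊ (A : Set (V d)) y
  have h5 : psi (Del.ofSet (A : Set (V d))) y * (x0 * ε) ≤ psi (Del.ofSet (A : Set (V d))) y *
      EW (Wf 0 (fun _ => 0) (wk k)) (ε ^ 2) (D0 : Del (V d)) 0 :=
    mul_le_mul_of_nonneg_left h3 hψ
  have h6 : (x0 * psiK A y - δ) * ε = psi (Del.ofSet (A : Set (V d))) y * (x0 * ε) - δ * ε := by
    unfold psiK; ring
  rw [h6]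
  linarith [h1.1]

end Pool.Agent.PB.Low
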