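import Pool.Agent.PB.Low.Ev
import Pool.Agent.PB.P.Conv

/-!
# PROJECT PB, Section 11, LOW-LossA: the losses from (g1) and (g2)

PLAN.
* `W_le`: for `0 ≤ x`, `0 ≤ κ`, `0 < s`: `0 ≤ W ≤ 1` and `W ≤ (2 d x / (1 - pc)) * (s * N)`, where `W = Wf R gL (wx d x κ) s O y`,
  `N = Nc O y`: `1 - exp (-u) ≤ u` and `≤ 1` for `u ≥ 0` (`Real.add_one_le_exp`), `max 0 (x Y - κ N) ≤ x * 2 d * N` as
  `0 ≤ YR ≤ 2 d N` (`Out8.gL_bd` for each local cluster: finite, contains 0; if the cluster is infinite `YR = 0`, `N = 0`).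
* `loss1`, part `s N_A < a` (`N_A = Nc (rem_A (Oc ω)) y`): with `h = s / a`: `s N_A ≤ 2 a (1 - exp (-(h N_A)))` as `u ≤ 2 (1 - exp (-u))` for
  `0 ≤ u ≤ 1` (convexity, or `exp (-u) ≤ 1 - u/2`: `Real.exp_bound'`-type lemma, or `exp(-u) ≤ 1/(1+u)`), and
  `1 - exp (-(h N_A)) ≤ 1 - ex h (Cl (Oc ω) y)` (`ex_fin`, `ex_inf`, `N_A ≤ ncard` of the larger cluster when finite). Integral:
  `∫⁻ (1 - ex h (Cl (opn p_c ω) y)) = Mg d (pc d) h` (`Mg_eq` + translation, or `Mg_shift` + `lintegral_ghost_hit`), and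
  `Mg = ofReal Mr ≤ ofReal (C √h)` (`Out5.bounds`, `h = s/a ≤ 1` eventually): total `≤ (2 d x/(1-pc)) * 2 a * C √(s/a) = C' x √a √s`.
* `loss1`, part `s N_A > b'`: `Pr ≤ Pr{⌈b'/s⌉₊ ≤ Nc (Oc ω) y or infinite cluster} ≤ C / √⌈b'/s⌉₊ ≤ C √s / √b'` (`Out5.tail`,
  `Out5.theta_pc`, translation as in `theta_shift`), `W ≤ 1`.
* `loss2`: `(ofSet A).rem (Oc ω) = opn (pc d) ω ∩ F`, `F = {e | ∀ x ∈ e, x ∉ A}` (`Del.ofSet_rem`). If `z ∈ Cl O y` and
  `¬ RchL O r0 y z` then `(Sph O (r0 + 1) y).Nonempty`: take the least `m` with `RchL O m y z`, `m ≥ r0 + 1`; by induction on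
  `m` there is for every `j ≤ m` a vertex at distance exactly `j` (if `RchL O (m+1) y z`, not `RchL O m y z`, then
  `∃ z', RchL O m y z' ∧ s(z', z) ∈ O` and `z'` has distance exactly `m`). So the event is contained in
  `{radGe (opn (pc d) ω ∩ F) (r0 + 1) y}`, `Gam` is the supremum (`le_iSup₂`), `Out10.one_arm`.
-/

set_option autoImplicit false
open MeasureTheory Filter Topology
open scoped ENNReal BigOperators

namespace Pool.Agent.PB.Low

variable {d : ℕ}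

private theorem one_sub_pc (hC : Crit d) : 0 < 1 - pc d := by
  have := hC.pc_lt
  linarith

theorem W_nonneg (hC : Crit d) {x κ s : ℝ} (R : ℕ) (O : Set (Sym2 (V d))) (y : V d) :
    0 ≤ Wf R gL (wx d x κ) s O y := by
  have hp := one_sub_pc hC
  unfold Wf wx
  have h1 : 0 ≤ max 0 s / (1 - pc d) * max 0 (x * Yf R gL O y + (-κ) * (Nc O y : ℝ)) :=
    mul_nonneg (div_nonneg (le_max_left _ _) hp.le) (le_max_left _ _)
  have h2 : Real.exp (-(max 0 s / (1 - pc d) *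
      max 0 (x * Yf R gL O y + (-κ) * (Nc O y : ℝ)))) ≤ 1 :=
    Real.exp_le_one_iff.2 (by linarith)
  linarith

theorem W_le_one (hC : Crit d) {x κ s : ℝ} (R : ℕ) (O : Set (Sym2 (V d))) (y : V d) :
    Wf R gL (wx d x κ) s O y ≤ 1 := by
  have _ := hC
  unfold Wf wx
  have h2 := Real.exp_pos (-(max 0 s / (1 - pc d) *
      max 0 (x * Yf R gL O y + (-κ) * (Nc O y : ℝ))))
  linarith

private theorem Yf_bd {b : ℝ} (h8 : Out8 d b) (R : ℕ) (O : Set (Sym2 (V d))) (y : V d) :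
    0 ≤ Yf R gL O y ∧ Yf R gL O y ≤ 2 * d * (Nc O y : ℝ) := by
  classical
  by_cases h : (Cl O y).Finite
  · have h1 : Yf R gL O y = ∑ x ∈ h.toFinset, gL (Lb0 R O x) := by
      unfold Yf
      rw [dif_pos h]
    have h2 : ∀ x ∈ h.toFinset, 0 ≤ gL (Lb0 R O x) ∧ gL (Lb0 R O x) ≤ 2 * d := by
      intro x hx
      rw [Set.Finite.mem_toFinset] at hx
      refine h8.gL_bd _ ?_ ⟨x, self_mem_Cl _ x, sub_self x⟩
      refine Set.Finite.image _ (h.subset ?_)
      intro z hz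
      exact Rch.trans hx (Rch.mono Set.inter_subset_left hz)
    rw [h1]
    refine ⟨Finset.sum_nonneg fun x hx => (h2 x hx).1, ?_⟩
    calc ∑ x ∈ h.toFinset, gL (Lb0 R O x) ≤ ∑ _x ∈ h.toFinset, (2 * d : ℝ) :=
          Finset.sum_le_sum fun x hx => (h2 x hx).2
      _ = 2 * d * (Nc O y : ℝ) := by
          rw [Finset.sum_const, nsmul_eq_mul, mul_comm]
          unfold Nc
          rw [Set.ncard_eq_toFinset_card _ h]
  · have h1 : Yf R gL O y = 0 := by
      unfold Yf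
      rw [dif_neg h]
    rw [h1]
    exact ⟨le_refl 0, by positivity⟩

theorem W_le (hC : Crit d) {b : ℝ} (h8 : Out8 d b) {x κ s : ℝ} (hx : 0 ≤ x) (hκ : 0 ≤ κ)
    (hs : 0 < s) (R : ℕ) (O : Set (Sym2 (V d))) (y : V d) :
    Wf R gL (wx d x κ) s O y ≤ 2 * d * x / (1 - pc d) * (s * (Nc O y : ℝ)) := by
  obtain ⟨-, h2⟩ := Yf_bd h8 R O y
  have hp := one_sub_pc hC
  unfold Wf wx
  have hN : (0 : ℝ) ≤ (Nc O y : ℝ) := Nat.cast_nonneg _
  have hm : max 0 (x * Yf R gL O y + (-κ) * (Nc O y : ℝ)) ≤ x * (2 * d * (Nc O y : ℝ)) := by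
    refine max_le (by positivity) ?_
    have h3 := mul_le_mul_of_nonneg_left h2 hx
    have h4 : 0 ≤ κ * (Nc O y : ℝ) := by positivity
    linarith
  have hs' : max 0 s = s := max_eq_right hs.le
  rw [hs']
  have he := Real.add_one_le_exp (-(s / (1 - pc d) *
    max 0 (x * Yf R gL O y + (-κ) * (Nc O y : ℝ))))
  calc 1 - Real.exp (-(s / (1 - pc d) * max 0 (x * Yf R gL O y + (-κ) * (Nc O y : ℝ))))
      ≤ s / (1 - pc d) * max 0 (x * Yf R gL O y + (-κ) * (Nc O y : ℝ)) := by linarith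
    _ ≤ s / (1 - pc d) * (x * (2 * d * (Nc O y : ℝ))) :=
        mul_le_mul_of_nonneg_left hm (div_nonneg hs.le hp.le)
    _ = 2 * d * x / (1 - pc d) * (s * (Nc O y : ℝ)) := by
        field_simp

private theorem meas_N (A : Set (V d)) (y : V d) (P : ℝ → Prop) :
    MeasurableSet {ω : Om d | P (Nc ((Del.ofSet A).rem (Oc ω)) y : ℝ)} := by
  have hC := (((opn_MES (d := d) (pc d)).rem (Del.ofSet A)).cl y)
  have h1 : {ω : Om d | P (Nc ((Del.ofSet A).rem (Oc ω)) y : ℝ)} =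
      (fun ω => (Cl ((Del.ofSet A).rem (opn (pc d) ω)) y).encard) ⁻¹'
        {x : ℕ∞ | P ((x.toNat : ℕ) : ℝ)} := rfl
  rw [h1]
  exact hC.encard (Set.to_countable _).measurableSet

private theorem int_ex {h : ℝ} (hh : 0 < h) (y : V d) :
    ∫⁻ ω, (1 - ex h (Cl (Oc ω) y)) ∂Pr d = Mg d (pc d) h := by
  have h1 := lintegral_ghost_hit (d := d) false hh (C := fun ω => Cl (opn (pc d) ω) y)
    ((opn_MES (pc d)).cl y) (dep_Cl_opn_gI (pc d) y false) (F := fun _ => 1) measurable_const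
    (fun _ _ _ => rfl)
  simp only [one_mul, setLIntegral_const] at h1
  rw [← Mg_shift (pc d) h y]
  exact h1.symm

private theorem Nc_shift (n : ℕ) (y : V d) :
    Pr d {ω : Om d | n ≤ Nc (Oc ω) y} = Pr d {ω : Om d | n ≤ Nc (opn (pc d) ω) (0 : V d)} := by
  rw [← Pr_act (trI y) {ω | n ≤ Nc (opn (pc d) ω) (0 : V d)}]
  congr 1
  ext ω
  simp only [Set.mem_ofPred_eq]
  have h1 : Cl (opn (pc d) (act (trI y) ω)) 0 = (trI y) ⁻¹' Cl (opn (pc d) ω) y := by
    ext x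
    simp only [Cl, Set.mem_ofPred_eq, Set.mem_preimage]
    rw [Rch_act (trI_aut y)]
    simp [trI_apply]
  have h2 : Nc (opn (pc d) (act (trI y) ω)) 0 = Nc (Oc ω) y := by
    unfold Nc
    rw [h1]
    refine Set.ncard_preimage_of_injective_subset_range (trI y).injective ?_
    rw [(trI y).surjective.range_eq]
    exact Set.subset_univ _
  rw [h2]

private theorem le_two_mul {u : ℝ} (h0 : 0 ≤ u) (h1 : u ≤ 1) : u ≤ 2 * (1 - Real.exp (-u)) := by
  have h2 := Real.add_one_le_exp u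
  have h3 : Real.exp (-u) * Real.exp u = 1 := by rw [← Real.exp_add, neg_add_cancel, Real.exp_zero]
  have h4 := Real.exp_pos (-u)
  have h5 : Real.exp (-u) * (1 + u) ≤ 1 := by
    rw [← h3]
    exact mul_le_mul_of_nonneg_left (by linarith) h4.le
  have h6 : Real.exp (-u) ≤ 1 / (1 + u) := by
    rw [le_div_iff₀ (by linarith)]
    exact h5
  have h7 : 1 / (1 + u) ≤ 1 - u / 2 := by
    rw [div_le_iff₀ (by linarith)]
    nlinarith
  linarith

private theorem WA_le_mul (hC : Crit d) {b : ℝ} (h8 : Out8 d b) {x κ s : ℝ} (hx : 0 ≤ x)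
    (hκ : 0 ≤ κ) (hs : 0 < s) (R : ℕ) (A : Set (V d)) (O : Set (Sym2 (V d))) (y : V d) :
    WA (Wf R gL (wx d x κ)) s (Del.ofSet A) O y ≤
      2 * d * x / (1 - pc d) * (s * (Nc ((Del.ofSet A).rem O) y : ℝ)) := by
  classical
  have hp := one_sub_pc hC
  unfold WA
  split_ifs with h
  · positivity
  · exact W_le hC h8 hx hκ hs R _ y

private theorem WA_le_one (hC : Crit d) {x κ s : ℝ} (R : ℕ) (A : Set (V d))
    (O : Set (Sym2 (V d))) (y : V d) :
    WA (Wf R gL (wx d x κ)) s (Del.ofSet A) O y ≤ 1 := by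
  classical
  unfold WA
  split_ifs with h
  · exact zero_le_one
  · exact W_le_one hC R _ y

private theorem pt1 (hC : Crit d) {b : ℝ} (h8 : Out8 d b) {x κ s a : ℝ} (hx : 0 ≤ x)
    (hκ : 0 ≤ κ) (hs : 0 < s) (ha : 0 < a) (R : ℕ) (A : Set (V d)) (O : Set (Sym2 (V d)))
    (y : V d) (hN : s * (Nc ((Del.ofSet A).rem O) y : ℝ) < a) :
    ENNReal.ofReal (WA (Wf R gL (wx d x κ)) s (Del.ofSet A) O y) ≤
      ENNReal.ofReal (2 * d * x / (1 - pc d) * (2 * a)) * (1 - ex (s / a) (Cl O y)) := by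
  have hp := one_sub_pc hC
  have hK : 0 ≤ 2 * d * x / (1 - pc d) := by positivity
  have h1 := WA_le_mul hC h8 hx hκ hs R A O y
  set NA : ℝ := (Nc ((Del.ofSet A).rem O) y : ℝ) with hNA
  have hNA0 : 0 ≤ NA := Nat.cast_nonneg _
  by_cases hf : (Cl O y).Finite
  · rw [ex_fin _ hf, ← ENNReal.ofReal_one, ← ENNReal.ofReal_sub _ (Real.exp_pos _).le,
      ← ENNReal.ofReal_mul (by positivity)]
    refine ENNReal.ofReal_le_ofReal (h1.trans ?_)
    rw [mul_assoc (2 * d * x / (1 - pc d)) (2 * a)]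
    refine mul_le_mul_of_nonneg_left ?_ hK
    have hu0 : 0 ≤ s / a * NA := by positivity
    have hu1 : s / a * NA ≤ 1 := by
      rw [div_mul_eq_mul_div, div_le_one ha]
      exact hN.le
    have h2 := le_two_mul hu0 hu1
    have h3 : NA ≤ ((Cl O y).ncard : ℝ) := by
      rw [hNA]
      unfold Nc
      exact_mod_cast Set.ncard_le_ncard (Cl_mono (Del.rem_subset _ _) y) hf
    have h4 : Real.exp (-(s / a * ((Cl O y).ncard : ℝ))) ≤ Real.exp (-(s / a * NA)) := by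
      refine Real.exp_le_exp.2 (neg_le_neg ?_)
      exact mul_le_mul_of_nonneg_left h3 (by positivity)
    calc s * NA = a * (s / a * NA) := by field_simp
      _ ≤ a * (2 * (1 - Real.exp (-(s / a * NA)))) := mul_le_mul_of_nonneg_left h2 ha.le
      _ ≤ a * (2 * (1 - Real.exp (-(s / a * ((Cl O y).ncard : ℝ))))) :=
          mul_le_mul_of_nonneg_left (by linarith) ha.le
      _ = 2 * a * (1 - Real.exp (-(s / a * ((Cl O y).ncard : ℝ)))) := by ring
  · rw [ex_inf _ hf, tsub_zero, mul_one]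
    refine ENNReal.ofReal_le_ofReal (h1.trans ?_)
    exact mul_le_mul_of_nonneg_left (by linarith) hK

theorem loss1 (hC : Crit d) (h5 : Out5 d) {b : ℝ} (h8 : Out8 d b) : ∃ C : ℝ, 1 ≤ C ∧
    ∀ a b' x κ : ℝ, 0 < a → 0 < b' → 0 ≤ x → 0 ≤ κ → ∀ᶠ s in 𝓝[>] (0 : ℝ),
      ∀ (R : ℕ) (A : Set (V d)) (y : V d),
        ∫⁻ ω in {ω | ¬ (a ≤ s * (Nc ((Del.ofSet A).rem (Oc ω)) y : ℝ) ∧
            s * (Nc ((Del.ofSet A).rem (Oc ω)) y : ℝ) ≤ b')},
          ENNReal.ofReal (WA (Wf R gL (wx d x κ)) s (Del.ofSet A) (Oc ω) y) ∂Pr d ≤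
        ENNReal.ofReal (C * (x * Real.sqrt a + 1 / Real.sqrt b') * Real.sqrt s) := by
  obtain ⟨C1, hC1, hB⟩ := h5.bounds
  obtain ⟨C2, hC2, hT⟩ := h5.tail
  have hp := one_sub_pc hC
  have hK0 : 0 ≤ 4 * d * C1 / (1 - pc d) := by positivity
  refine ⟨4 * d * C1 / (1 - pc d) + C2, by linarith, ?_⟩
  intro a b' x κ ha hb' hx hκ
  filter_upwards [Ioc_mem_nhdsGT ha] with s hs R A y
  obtain ⟨hs0, hsa⟩ := hs
  have hsub : {ω : Om d | ¬ (a ≤ s * (Nc ((Del.ofSet A).rem (Oc ω)) y : ℝ) ∧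
      s * (Nc ((Del.ofSet A).rem (Oc ω)) y : ℝ) ≤ b')} ⊆
      {ω : Om d | s * (Nc ((Del.ofSet A).rem (Oc ω)) y : ℝ) < a} ∪
      {ω : Om d | b' < s * (Nc ((Del.ofSet A).rem (Oc ω)) y : ℝ)} := by
    intro ω hω
    by_cases h : s * (Nc ((Del.ofSet A).rem (Oc ω)) y : ℝ) < a
    · exact Or.inl h
    · refine Or.inr ?_
      by_contra h'
      exact hω ⟨not_lt.1 h, not_lt.1 h'⟩
  refine (lintegral_mono_set hsub).trans ((lintegral_union_le _ _ _).trans ?_)
  have hm1 : MeasurableSet {ω : Om d | s * (Nc ((Del.ofSet A).rem (Oc ω)) y : ℝ) < a} :=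
    meas_N A y fun t => s * t < a
  have hm2 : MeasurableSet {ω : Om d | b' < s * (Nc ((Del.ofSet A).rem (Oc ω)) y : ℝ)} :=
    meas_N A y fun t => b' < s * t
  -- first part
  have hh : 0 < s / a := div_pos hs0 ha
  have hh1 : s / a ≤ 1 := (div_le_one ha).2 hsa
  have e1 : ∫⁻ ω in {ω : Om d | s * (Nc ((Del.ofSet A).rem (Oc ω)) y : ℝ) < a},
      ENNReal.ofReal (WA (Wf R gL (wx d x κ)) s (Del.ofSet A) (Oc ω) y) ∂Pr d ≤
      ENNReal.ofReal (4 * d * C1 / (1 - pc d) * (x * Real.sqrt a) * Real.sqrt s) := by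
    calc ∫⁻ ω in {ω : Om d | s * (Nc ((Del.ofSet A).rem (Oc ω)) y : ℝ) < a},
        ENNReal.ofReal (WA (Wf R gL (wx d x κ)) s (Del.ofSet A) (Oc ω) y) ∂Pr d
        ≤ ∫⁻ ω in {ω : Om d | s * (Nc ((Del.ofSet A).rem (Oc ω)) y : ℝ) < a},
          ENNReal.ofReal (2 * d * x / (1 - pc d) * (2 * a)) * (1 - ex (s / a) (Cl (Oc ω) y))
            ∂Pr d := setLIntegral_mono' hm1 fun ω hω => pt1 hC h8 hx hκ hs0 ha R A (Oc ω) y hω
      _ ≤ ∫⁻ ω, ENNReal.ofReal (2 * d * x / (1 - pc d) * (2 * a)) *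
            (1 - ex (s / a) (Cl (Oc ω) y)) ∂Pr d := setLIntegral_le_lintegral _ _
      _ = ENNReal.ofReal (2 * d * x / (1 - pc d) * (2 * a)) * Mg d (pc d) (s / a) := by
          rw [lintegral_const_mul' _ _ ENNReal.ofReal_ne_top, int_ex hh y]
      _ ≤ ENNReal.ofReal (2 * d * x / (1 - pc d) * (2 * a)) *
            ENNReal.ofReal (C1 * Real.sqrt (s / a)) := by
          refine mul_le_mul_right ?_ _
          have h1 : Mg d (pc d) (s / a) ≠ ⊤ := ne_top_of_le_ne_top ENNReal.one_ne_top prob_le_one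
          rw [ENNReal.le_ofReal_iff_toReal_le h1 (by positivity)]
          exact (hB (s / a) hh hh1).1
      _ = ENNReal.ofReal (4 * d * C1 / (1 - pc d) * (x * Real.sqrt a) * Real.sqrt s) := by
          rw [← ENNReal.ofReal_mul (by positivity)]
          congr 1
          rw [Real.sqrt_div hs0.le]
          have h2 : Real.sqrt a * Real.sqrt a = a := Real.mul_self_sqrt ha.le
          have h3 : Real.sqrt a ≠ 0 := (Real.sqrt_pos.2 ha).ne'
          have h4 : a / Real.sqrt a = Real.sqrt a := by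
            rw [div_eq_iff h3, h2]
          calc 2 * d * x / (1 - pc d) * (2 * a) * (C1 * (Real.sqrt s / Real.sqrt a))
              = 4 * d * C1 / (1 - pc d) * (x * (a / Real.sqrt a)) * Real.sqrt s := by ring
            _ = _ := by rw [h4]
  -- second part
  have e2 : ∫⁻ ω in {ω : Om d | b' < s * (Nc ((Del.ofSet A).rem (Oc ω)) y : ℝ)},
      ENNReal.ofReal (WA (Wf R gL (wx d x κ)) s (Del.ofSet A) (Oc ω) y) ∂Pr d ≤
      ENNReal.ofReal (C2 * (1 / Real.sqrt b') * Real.sqrt s) := by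
    have hq : 0 < b' / s := div_pos hb' hs0
    have hn : 1 ≤ ⌈b' / s⌉₊ := Nat.one_le_iff_ne_zero.2 (Nat.ceil_pos.2 hq).ne'
    have h1 : {ω : Om d | b' < s * (Nc ((Del.ofSet A).rem (Oc ω)) y : ℝ)} ⊆
        {ω : Om d | ⌈b' / s⌉₊ ≤ Nc (Oc ω) y} ∪ {ω : Om d | (Cl (opn (pc d) ω) y).Infinite} := by
      intro ω hω
      by_cases hf : (Cl (opn (pc d) ω) y).Infinite
      · exact Or.inr hf
      · refine Or.inl ?_
        rw [Set.mem_ofPred_eq] at hω ⊢
        refine Nat.ceil_le.2 ?_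
        rw [div_le_iff₀ hs0]
        have h3 : (Nc ((Del.ofSet A).rem (Oc ω)) y : ℝ) ≤ (Nc (Oc ω) y : ℝ) := by
          unfold Nc
          exact_mod_cast Set.ncard_le_ncard (Cl_mono (Del.rem_subset _ _) y)
            (Set.not_infinite.1 hf)
        have h4 := mul_le_mul_of_nonneg_left h3 hs0.le
        linarith [mul_comm s (Nc (Oc ω) y : ℝ)]
    calc ∫⁻ ω in {ω : Om d | b' < s * (Nc ((Del.ofSet A).rem (Oc ω)) y : ℝ)},
        ENNReal.ofReal (WA (Wf R gL (wx d x κ)) s (Del.ofSet A) (Oc ω) y) ∂Pr d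
        ≤ ∫⁻ _ω in {ω : Om d | b' < s * (Nc ((Del.ofSet A).rem (Oc ω)) y : ℝ)}, 1 ∂Pr d := by
          refine setLIntegral_mono' hm2 fun ω _ => ?_
          rw [← ENNReal.ofReal_one]
          exact ENNReal.ofReal_le_ofReal (WA_le_one hC R A _ y)
      _ = Pr d {ω : Om d | b' < s * (Nc ((Del.ofSet A).rem (Oc ω)) y : ℝ)} := by
          rw [setLIntegral_const, one_mul]
      _ ≤ Pr d {ω : Om d | ⌈b' / s⌉₊ ≤ Nc (Oc ω) y} +
            Pr d {ω : Om d | (Cl (opn (pc d) ω) y).Infinite} :=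
          (measure_mono h1).trans (measure_union_le _ _)
      _ = Pr d {ω : Om d | ⌈b' / s⌉₊ ≤ Nc (opn (pc d) ω) (0 : V d)} := by
          rw [theta_shift, h5.theta_pc, add_zero, Nc_shift]
      _ ≤ ENNReal.ofReal (C2 / Real.sqrt (⌈b' / s⌉₊ : ℝ)) := by
          rw [ENNReal.le_ofReal_iff_toReal_le (measure_ne_top _ _) (by positivity)]
          exact (hT _ hn).1
      _ ≤ ENNReal.ofReal (C2 * (1 / Real.sqrt b') * Real.sqrt s) := by
          refine ENNReal.ofReal_le_ofReal ?_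
          have h5 : Real.sqrt (b' / s) ≤ Real.sqrt (⌈b' / s⌉₊ : ℝ) :=
            Real.sqrt_le_sqrt (Nat.le_ceil _)
          have h6 : 0 < Real.sqrt (b' / s) := Real.sqrt_pos.2 hq
          calc C2 / Real.sqrt (⌈b' / s⌉₊ : ℝ) ≤ C2 / Real.sqrt (b' / s) :=
                div_le_div_of_nonneg_left (by linarith) h6 h5
            _ = C2 * (1 / Real.sqrt b') * Real.sqrt s := by
                rw [Real.sqrt_div hb'.le]
                have h7 : Real.sqrt b' ≠ 0 := (Real.sqrt_pos.2 hb').ne'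
                have h8 : Real.sqrt s ≠ 0 := (Real.sqrt_pos.2 hs0).ne'
                field_simp
  refine (add_le_add e1 e2).trans ?_
  rw [← ENNReal.ofReal_add (by positivity) (by positivity)]
  refine ENNReal.ofReal_le_ofReal ?_
  have h1 : 0 ≤ x * Real.sqrt a * Real.sqrt s := by positivity
  have h2 : 0 ≤ 1 / Real.sqrt b' * Real.sqrt s := by positivity
  have h3 : (4 * d * C1 / (1 - pc d) + C2) * (x * Real.sqrt a + 1 / Real.sqrt b') * Real.sqrt s =
      4 * d * C1 / (1 - pc d) * (x * Real.sqrt a) * Real.sqrt s +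
      C2 * (1 / Real.sqrt b') * Real.sqrt s +
      (4 * d * C1 / (1 - pc d)) * (1 / Real.sqrt b' * Real.sqrt s) +
      C2 * (x * Real.sqrt a * Real.sqrt s) := by ring
  rw [h3]
  have h4 : 0 ≤ (4 * d * C1 / (1 - pc d)) * (1 / Real.sqrt b' * Real.sqrt s) :=
    mul_nonneg hK0 h2
  have h5 : 0 ≤ C2 * (x * Real.sqrt a * Real.sqrt s) := mul_nonneg (by linarith) h1
  linarith

private theorem sph_nonempty {W : Type*} {O : Set (Sym2 W)} {y : W} {r0 : ℕ} :
    ∀ (n : ℕ) (z : W), RchL O n y z → ¬ RchL O r0 y z → (Sph O (r0 + 1) y).Nonempty := by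
  intro n
  induction n with
  | zero =>
    intro z h1 h2
    exact absurd (RchL.mono_len (Nat.zero_le r0) h1) h2
  | succ n ih =>
    intro z h1 h2
    rcases h1 with h1 | ⟨z', h3, h4⟩
    · exact ih z h1 h2
    · by_cases h5 : RchL O r0 y z'
      · refine ⟨z, Or.inr ⟨z', h5, h4⟩, fun m hm h6 => h2 ?_⟩
        exact RchL.mono_len (Nat.lt_succ_iff.1 hm) h6
      · exact ih z' h3 h5

theorem loss2 (h10 : Out10 d) : ∃ C : ℝ, 1 ≤ C ∧ ∀ (A : Set (V d)) (y : V d) (r0 : ℕ),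
    Pr d {ω | ¬ G2 r0 ((Del.ofSet A).rem (Oc ω)) y} ≤ ENNReal.ofReal (C / (r0 + 1)) := by
  obtain ⟨C, hC, h⟩ := h10.one_arm
  refine ⟨C, hC, fun A y r0 => ?_⟩
  have h1 := h (r0 + 1) (Nat.succ_le_succ (Nat.zero_le r0))
  push_cast at h1
  refine le_trans ?_ h1
  have h2 : {ω : Om d | ¬ G2 r0 ((Del.ofSet A).rem (Oc ω)) y} ⊆
      {ω : Om d | radGe (opn (pc d) ω ∩ {e | ∀ x ∈ e, x ∉ A}) (r0 + 1) y} := by
    intro ω hω
    rw [Set.mem_ofPred_eq] at hω ⊢
    unfold G2 at hω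
    push Not at hω
    obtain ⟨z, hz, hz2⟩ := hω
    have h3 : (Del.ofSet A).rem (Oc ω) = opn (pc d) ω ∩ {e | ∀ x ∈ e, x ∉ A} := by
      rw [Del.ofSet_rem]
      rfl
    rw [h3] at hz hz2
    obtain ⟨n, hn⟩ := rch_iff_exists_RchL.1 hz
    exact sph_nonempty n z hn hz2
  refine (measure_mono h2).trans ?_
  unfold Gam
  exact le_iSup₂ (f := fun (F : Set (Sym2 (V d))) (y : V d) =>
    Pr d {ω : Om d | radGe (opn (pc d) ω ∩ F) (r0 + 1) y}) {e | ∀ x ∈ e, x ∉ A} y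

end Pool.Agent.PB.Low
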