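import Pool.Agent.PB.Low.Defs
import Pool.Agent.PB.P.Conv
import Pool.Agent.PB.P.Tau

/-!
# PROJECT PB, Section 11, LOW-TT: facts about `t4 = τ^{*4}`, `t1`, `t2`

PLAN. `Crit.B8 : Bm d (pc d) 8 < ⊤`, `Bm d p m = cpow (tau p) m 0`. `Bm_mono_m`, `cpow_tau_le_Bm` (P/Tau.lean):
`cpow τ (m+m) x ≤ Bm (m+m)`; `tau_le_cpow`, `cpow_le_cpow` (P/Conv.lean, `1 ≤ τ(0)`: `one_le_tau`).
* `t4_le`, `t4_zero_ne_top`, `one_le_t4_zero` (`le_conv_left` etc. or `one_le_Bm`), `t4_neg` (`cpow_tau_even`).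
* `t1_sum`: `Σ_x t4(x)^2 = conv t4 t4 0 = cpow τ 8 0 < ⊤` (`conv_zero_eq`, `cpow_add`), so for every `η' > 0` the set
  `{x | η' < t4 x}` is finite (`ENNReal.finite_const_le_of_tsum_ne_top` applied to `t4^2`), hence
  `{x | η < t1 x}` is finite: if `η < t1 x = Σ_{e ∈ U1} t4 (x - e)` then some `t4 (x - e) > η / (2d)`; finite union of
  translates. Let `F` be this finite set; `t1 x ≤ 2d t4 0`. Then
  `Σ_{x ∈ D} t1 (z - x) ≤ |F| * 2d * t4 0 + η |D|` (the x with z - x ∈ F are at most |F| many: the map x ↦ z - x is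
  injective). Take `C = |F| * (2 d * (t4 0).toReal)`.
* `t2_fin`: `Σ_z t4 (z + e - e') * conv τ τ z = conv (cpow τ 4) (cpow τ 2) (e' - e)` (evenness, substitution)
  `= cpow τ 6 (e' - e) ≤ cpow τ 8 (e' - e) ≤ Bm 8 < ⊤`; sum over `e, e'` in the finite set `U1 d`.
* `TR_t1`: `TR R t = Σ_z t z * Rcal R z`, `Rcal R z = Σ_x (if x ∉ bx R 0 then conv τ τ x * τ (z - x) + τ x * conv τ τ (z - x)
  else 0)`. Exchange sums (`ENNReal.tsum_comm`, `ENNReal.tsum_mul_left`): `TR R t = Σ_x (if x ∉ bx R 0 then H x else 0)` with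
  `H x = Σ_z t z * (conv τ τ x * τ (z - x) + τ x * conv τ τ (z - x))` and
  `Σ_x H x = 2 Σ_z t z * cpow τ 3 z < ⊤` for `t = t1` (`Σ_z t4 (z - e) * cpow τ 3 z = cpow τ 7 (e) ≤ cpow τ 8 e ≤ Bm 8`).
  A tail of a convergent sum over the complement of boxes tends to 0: `ENNReal.tendsto_tsum_compl_atTop_zero` composed with
  `R ↦ (bx R 0).toFinset` tending to `atTop` (every finite set is contained in a box), or dominated convergence
  (`tendsto_tsum_of_dominated_convergence` is for real sums) .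
-/

set_option autoImplicit false
open MeasureTheory Filter Topology
open scoped ENNReal BigOperators

namespace Pool.Agent.PB.Low

variable {d : ℕ}

theorem t4_le (x : V d) : t4 x ≤ t4 (0 : V d) := cpow_tau_le_Bm (pc d) 2 x

theorem t4_zero_ne_top (hC : Crit d) : t4 (0 : V d) ≠ ⊤ := by
  have h : t4 (0 : V d) ≤ Bm d (pc d) 8 := Bm_mono_m (d := d) (pc d) (by norm_num : 4 ≤ 8)
  exact (h.trans_lt hC.B8).ne

theorem one_le_t4_zero : 1 ≤ t4 (0 : V d) := one_le_Bm (pc d) 4

theorem t4_neg (x : V d) : t4 (-x) = t4 x := cpow_tau_even (pc d) 4 x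

private theorem t4_eq : (t4 : V d → ℝ≥0∞) = cpow (tau (pc d)) 4 := rfl

private theorem cpow_lt_top (hC : Crit d) {m : ℕ} (hm : m ≤ 8) (x : V d) :
    cpow (tau (pc d)) m x < ⊤ :=
  ((cpow_le_cpow (one_le_tau (d := d) (pc d)) hm x).trans
    (cpow_tau_le_Bm (d := d) (pc d) 4 x)).trans_lt hC.B8

private theorem sq_sum (hC : Crit d) : ∑' x : V d, t4 x * t4 x ≠ ⊤ := by
  rw [← conv_zero_eq (f := t4) (g := t4) t4_neg]
  have h : conv (t4 : V d → ℝ≥0∞) t4 = cpow (tau (pc d)) 8 := by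
    rw [t4_eq, ← cpow_add]
  rw [h]
  exact (cpow_lt_top hC le_rfl 0).ne

private theorem t1_le (x : V d) : t1 x ≤ ((2 * d : ℕ) : ℝ≥0∞) * t4 (0 : V d) := by
  unfold t1
  calc ∑ e ∈ U1 d, t4 (x - e) ≤ ∑ _e ∈ U1 d, t4 (0 : V d) :=
        Finset.sum_le_sum fun e _ => t4_le _
    _ = _ := by rw [Finset.sum_const, card_U1, nsmul_eq_mul]

private theorem fin_t4 (hC : Crit d) {δ : ℝ≥0∞} (hδ : δ ≠ 0) : {x : V d | δ ≤ t4 x}.Finite := by
  refine (ENNReal.finite_const_le_of_tsum_ne_top (sq_sum hC) (ε := δ * δ)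
    (mul_ne_zero hδ hδ)).subset ?_
  intro x hx
  have hx' : δ ≤ t4 x := hx
  exact mul_le_mul' hx' hx'

private theorem fin_t1 (hC : Crit d) {η : ℝ} (hη : 0 < η) :
    {x : V d | ENNReal.ofReal η < t1 x}.Finite := by
  classical
  have hδ : ENNReal.ofReal (η / (2 * d + 1)) ≠ 0 := by
    rw [Ne, ENNReal.ofReal_eq_zero, not_le]
    positivity
  refine (Set.Finite.biUnion (U1 d).finite_toSet
    (fun e _ => (fin_t4 hC hδ).image (fun x => x + e))).subset ?_
  intro x hx
  have hx' : ENNReal.ofReal η < t1 x := hx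
  by_contra hcon
  simp only [Set.mem_iUnion, Set.mem_image, not_exists] at hcon
  have h1 : t1 x ≤ ENNReal.ofReal η := by
    unfold t1
    calc ∑ e ∈ U1 d, t4 (x - e) ≤ ∑ _e ∈ U1 d, ENNReal.ofReal (η / (2 * d + 1)) := by
          refine Finset.sum_le_sum fun e he => ?_
          by_contra h2
          refine hcon e he (x - e) ⟨(not_le.1 h2).le, ?_⟩
          abel
      _ = ENNReal.ofReal (((2 * d : ℕ) : ℝ) * (η / (2 * d + 1))) := by
          rw [Finset.sum_const, card_U1, nsmul_eq_mul, ENNReal.ofReal_mul (by positivity),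
            ENNReal.ofReal_natCast]
      _ ≤ ENNReal.ofReal η := by
          refine ENNReal.ofReal_le_ofReal ?_
          push_cast
          rw [← mul_div_assoc, div_le_iff₀ (by positivity)]
          nlinarith
  exact absurd hx' (not_lt.2 h1)

theorem t1_sum (hC : Crit d) {η : ℝ} (hη : 0 < η) : ∃ C : ℝ, 0 ≤ C ∧
    ∀ (D : Finset (V d)) (z : V d), ∑ x ∈ D, t1 (z - x) ≤ ENNReal.ofReal (C + η * D.card) := by
  classical
  obtain ⟨F, hF⟩ : ∃ F : Finset (V d), ∀ x, x ∈ F ↔ ENNReal.ofReal η < t1 x :=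
    ⟨(fin_t1 hC hη).toFinset, fun x => by rw [Set.Finite.mem_toFinset]; rfl⟩
  refine ⟨(F.card : ℝ) * (((2 * d : ℕ) : ℝ) * (t4 (0 : V d)).toReal), by positivity,
    fun D z => ?_⟩
  have h1 : ∀ x : V d, t1 (z - x) ≤
      (if z - x ∈ F then ((2 * d : ℕ) : ℝ≥0∞) * t4 (0 : V d) else 0) + ENNReal.ofReal η := by
    intro x
    split_ifs with h
    · exact (t1_le _).trans le_self_add
    · rw [zero_add]
      by_contra hcon
      exact h ((hF _).2 (not_le.1 hcon))
  calc ∑ x ∈ D, t1 (z - x)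
      ≤ ∑ x ∈ D, ((if z - x ∈ F then ((2 * d : ℕ) : ℝ≥0∞) * t4 (0 : V d) else 0) +
          ENNReal.ofReal η) := Finset.sum_le_sum fun x _ => h1 x
    _ = ((D.filter (fun x => z - x ∈ F)).card : ℝ≥0∞) *
          (((2 * d : ℕ) : ℝ≥0∞) * t4 (0 : V d)) + (D.card : ℝ≥0∞) * ENNReal.ofReal η := by
        rw [Finset.sum_add_distrib, ← Finset.sum_filter, Finset.sum_const, Finset.sum_const,
          nsmul_eq_mul, nsmul_eq_mul]
    _ ≤ (F.card : ℝ≥0∞) * (((2 * d : ℕ) : ℝ≥0∞) * t4 (0 : V d)) +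
          (D.card : ℝ≥0∞) * ENNReal.ofReal η := by
        refine add_le_add (mul_le_mul' ?_ le_rfl) le_rfl
        have : (D.filter (fun x => z - x ∈ F)).card ≤ F.card := by
          refine Finset.card_le_card_of_injOn (fun x => z - x) ?_ ?_
          · intro x hx
            exact (Finset.mem_filter.1 hx).2
          · intro x _ y _ hxy
            have h : z - x = z - y := hxy
            exact sub_right_injective h
        exact_mod_cast this
    _ = _ := by
        rw [ENNReal.ofReal_add (by positivity) (by positivity),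
          ENNReal.ofReal_mul (by positivity), ENNReal.ofReal_mul (by positivity),
          ENNReal.ofReal_toReal (t4_zero_ne_top hC), ENNReal.ofReal_natCast,
          ENNReal.ofReal_natCast, ENNReal.ofReal_mul hη.le, ENNReal.ofReal_natCast,
          mul_comm (ENNReal.ofReal η)]

theorem t2_fin (hC : Crit d) : ∑' z : V d, t2 z * conv (tau (pc d)) (tau (pc d)) z < ⊤ := by
  have h : ∑' z : V d, t2 z * conv (tau (pc d)) (tau (pc d)) z =
      ∑ e ∈ U1 d, ∑ e' ∈ U1 d, cpow (tau (pc d)) 6 (e' - e) := by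
    unfold t2
    simp only [Finset.sum_mul]
    rw [Summable.tsum_finsetSum (fun _ _ => ENNReal.summable)]
    refine Finset.sum_congr rfl fun e _ => ?_
    rw [Summable.tsum_finsetSum (fun _ _ => ENNReal.summable)]
    refine Finset.sum_congr rfl fun e' _ => ?_
    have e1 : cpow (tau (pc d)) 6 = conv (cpow (tau (d := d) (pc d)) 2) t4 := by
      rw [t4_eq, ← cpow_add]
    rw [e1, ← tsum_mul_sub t4_neg, cpow_two]
    refine tsum_congr fun z => ?_
    have e2 : z + e - e' = z - (e' - e) := by abel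
    rw [e2, mul_comm]
  rw [h]
  refine ENNReal.sum_lt_top.2 fun e _ => ENNReal.sum_lt_top.2 fun e' _ => ?_
  exact cpow_lt_top hC (by norm_num) _

private theorem t1_cpow3 (hC : Crit d) : ∑' z : V d, t1 z * cpow (tau (pc d)) 3 z < ⊤ := by
  have h : ∑' z : V d, t1 z * cpow (tau (pc d)) 3 z = ∑ e ∈ U1 d, cpow (tau (pc d)) 7 e := by
    unfold t1
    simp only [Finset.sum_mul]
    rw [Summable.tsum_finsetSum (fun _ _ => ENNReal.summable)]
    refine Finset.sum_congr rfl fun e _ => ?_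
    have e1 : cpow (tau (pc d)) 7 = conv (cpow (tau (d := d) (pc d)) 3) t4 := by
      rw [t4_eq, ← cpow_add]
    rw [e1, ← tsum_mul_sub t4_neg]
    exact tsum_congr fun z => mul_comm _ _
  rw [h]
  exact ENNReal.sum_lt_top.2 fun e _ => cpow_lt_top hC (by norm_num) _

private theorem bx_finite' (R : ℕ) : (bx R (0 : V d)).Finite := by
  refine (Set.finite_Icc (fun _ => -(R : ℤ)) (fun _ => (R : ℤ))).subset ?_
  intro y hy
  refine ⟨fun i => ?_, fun i => ?_⟩
  · have := (abs_le.1 (hy i)).1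
    rwa [Pi.zero_apply, sub_zero] at this
  · have := (abs_le.1 (hy i)).2
    rwa [Pi.zero_apply, sub_zero] at this

theorem TR_t1 (hC : Crit d) : Tendsto (fun R : ℕ => TR R (t1 : V d → ℝ≥0∞)) atTop (𝓝 0) := by
  classical
  obtain ⟨H, hH⟩ : ∃ H : V d → ℝ≥0∞, ∀ x, H x = ∑' z : V d, t1 z *
      (conv (tau (pc d)) (tau (pc d)) x * tau (pc d) (z - x) +
        tau (pc d) x * conv (tau (pc d)) (tau (pc d)) (z - x)) := ⟨_, fun _ => rfl⟩
  have hsum : ∑' x : V d, H x ≠ ⊤ := by
    have h : ∑' x : V d, H x = 2 * ∑' z : V d, t1 z * cpow (tau (pc d)) 3 z := by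
      simp only [hH]
      rw [ENNReal.tsum_comm, ← ENNReal.tsum_mul_left]
      refine tsum_congr fun z => ?_
      rw [ENNReal.tsum_mul_left, ENNReal.tsum_add]
      have e1 : ∑' x : V d, conv (tau (pc d)) (tau (pc d)) x * tau (pc d) (z - x) =
          cpow (tau (pc d)) 3 z := by
        rw [cpow_three, ← conv_assoc]
        rfl
      have e2 : ∑' x : V d, tau (pc d) x * conv (tau (pc d)) (tau (pc d)) (z - x) =
          cpow (tau (pc d)) 3 z := by
        rw [cpow_three]
        rfl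
      rw [e1, e2]
      ring
    rw [h]
    exact (ENNReal.mul_lt_top (by norm_num) (t1_cpow3 hC)).ne
  have hTR : ∀ R : ℕ, TR R (t1 : V d → ℝ≥0∞) =
      ∑' x : {x // x ∉ (bx_finite' (d := d) R).toFinset}, H x := by
    intro R
    have e1 : ∑' x : {x // x ∉ (bx_finite' (d := d) R).toFinset}, H x =
        ∑' x : V d, (if x ∉ bx R (0 : V d) then H x else 0) := by
      have := tsum_subtype {x : V d | x ∉ (bx_finite' (d := d) R).toFinset} H
      refine this.trans (tsum_congr fun x => ?_)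
      rw [Set.indicator_apply]
      simp only [Set.mem_setOf_eq, Set.Finite.mem_toFinset]
    rw [e1]
    unfold TR
    have e2 : ∀ z : V d, t1 z * Rcal R z = ∑' x : V d, (if x ∉ bx R (0 : V d) then t1 z *
      (conv (tau (pc d)) (tau (pc d)) x * tau (pc d) (z - x) +
        tau (pc d) x * conv (tau (pc d)) (tau (pc d)) (z - x)) else 0) := by
      intro z
      unfold Rcal
      rw [← ENNReal.tsum_mul_left]
      refine tsum_congr fun x => ?_
      split_ifs
      · rw [mul_zero]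
      · rfl
    simp only [e2]
    rw [ENNReal.tsum_comm]
    refine tsum_congr fun x => ?_
    split_ifs
    · rw [tsum_zero]
    · rw [hH]
  have hmono : Tendsto (fun R : ℕ => (bx_finite' (d := d) R).toFinset) atTop atTop := by
    refine tendsto_atTop_finset_of_monotone ?_ ?_
    · intro m n hmn x hx
      rw [Set.Finite.mem_toFinset] at hx ⊢
      intro i
      have h1 : (m : ℤ) ≤ n := by exact_mod_cast hmn
      exact (hx i).trans h1
    · intro x
      refine ⟨∑ i, (x i).natAbs, ?_⟩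
      rw [Set.Finite.mem_toFinset]
      intro i
      rw [Pi.zero_apply, sub_zero, Int.abs_eq_natAbs]
      exact_mod_cast Finset.single_le_sum (f := fun i => (x i).natAbs)
        (fun _ _ => Nat.zero_le _) (Finset.mem_univ i)
  have hlim := (ENNReal.tendsto_tsum_compl_atTop_zero hsum).comp hmono
  refine hlim.congr fun R => ?_
  exact (hTR R).symm

end Pool.Agent.PB.Low
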