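import Pool.Agent.PB.Low.LocG
import Pool.Agent.PB.Low.TT

/-!
# PROJECT PB, Section 11, LOW-LossB: the losses from (g3) and (g4)

PLAN. `Out8.finEn A y` gives `C1` with `Pr{(Cl (Oc ω) y).Finite ∧ Ev (rem_A (Oc ω))} ≤ ofReal C1 * Pr{(Cl (Oc ω) y).Finite ∧ Ev (Oc ω)}`
for local `Ev`; `Ev O = G1 π s O y ∧ ¬ G3 π O y` is local (`isLocal_G13`). The event `(Cl (Oc ω) y).Infinite` has
probability 0 (`theta_shift`, `Out5.theta_pc`), so `Pr{Ev (rem_A (Oc ω))} ≤ ofReal C1 * Pr{Ev (Oc ω)}`, `Pr_shift_G13` moves `y`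
to `0`, `Out8.nonloc a b'` gives `C2` and the bound `ofReal (C2 / eta * √s) * TR R t1` (`nlSum` unfolds to the sum in `nonloc`;
`¬ (nlSum ≤ ofReal _)` is `ofReal _ < nlSum`). Take `C = C1 * C2`.
(g4): `isLocal_G14`, `Out8.pairs`, `C = C1 * C2 * (t2_fin's value).toReal` (+ 1 to be positive).
-/

set_option autoImplicit false
open MeasureTheory Filter Topology
open scoped ENNReal BigOperators

namespace Pool.Agent.PB.Low

variable {d : ℕ}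

/-- finite energy without the finiteness of the cluster -/
private theorem loss_aux (h5 : Out5 d) {b : ℝ} (h8 : Out8 d b) (A : Finset (V d)) {y : V d}
    (hy : y ∉ A) : ∃ C : ℝ, 0 < C ∧ ∀ Ev : Set (Sym2 (V d)) → Prop, IsLocal y Ev →
      Pr d {ω | Ev ((Del.ofSet (A : Set (V d))).rem (Oc ω))} ≤
        ENNReal.ofReal C * Pr d {ω | Ev (Oc ω)} := by
  obtain ⟨C, hC, h⟩ := h8.finEn A y hy
  refine ⟨C, hC, fun Ev hEv => ?_⟩
  have h0 : Pr d {ω : Om d | (Cl (Oc ω) y).Infinite} = 0 := by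
    have h1 := theta_shift (d := d) (pc d) y
    rw [h5.theta_pc] at h1
    exact h1
  calc Pr d {ω | Ev ((Del.ofSet (A : Set (V d))).rem (Oc ω))}
      ≤ Pr d ({ω : Om d | (Cl (Oc ω) y).Finite ∧ Ev ((Del.ofSet (A : Set (V d))).rem (Oc ω))} ∪
          {ω : Om d | (Cl (Oc ω) y).Infinite}) := by
        refine measure_mono fun ω hω => ?_
        by_cases hf : (Cl (Oc ω) y).Finite
        · exact Or.inl ⟨hf, hω⟩
        · exact Or.inr hf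
    _ ≤ Pr d {ω : Om d | (Cl (Oc ω) y).Finite ∧ Ev ((Del.ofSet (A : Set (V d))).rem (Oc ω))} +
          Pr d {ω : Om d | (Cl (Oc ω) y).Infinite} := measure_union_le _ _
    _ = Pr d {ω : Om d | (Cl (Oc ω) y).Finite ∧
          Ev ((Del.ofSet (A : Set (V d))).rem (Oc ω))} := by rw [h0, add_zero]
    _ ≤ ENNReal.ofReal C * Pr d {ω : Om d | (Cl (Oc ω) y).Finite ∧ Ev (Oc ω)} := h Ev hEv
    _ ≤ ENNReal.ofReal C * Pr d {ω | Ev (Oc ω)} := by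
        refine mul_le_mul_right ?_ _
        exact measure_mono fun ω hω => hω.2

theorem loss3 (h5 : Out5 d) {b : ℝ} (h8 : Out8 d b) {a b' : ℝ} (ha : 0 < a) (hab : a < b')
    (A : Finset (V d)) {y : V d} (hy : y ∉ A) : ∃ C : ℝ, 0 < C ∧ ∀ (R : ℕ) (eta s : ℝ),
      0 < eta → 0 < s → s ≤ 1 →
      Pr d {ω | G1 ⟨R, a, b', eta⟩ s ((Del.ofSet (A : Set (V d))).rem (Oc ω)) y ∧
        ¬ G3 ⟨R, a, b', eta⟩ ((Del.ofSet (A : Set (V d))).rem (Oc ω)) y} ≤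
        ENNReal.ofReal (C / eta * Real.sqrt s) * TR R (t1 : V d → ℝ≥0∞) := by
  obtain ⟨C1, hC1, hfin⟩ := loss_aux h5 h8 A hy
  obtain ⟨C2, hC2, hnl⟩ := h8.nonloc a b' ha hab
  refine ⟨C1 * C2, mul_pos hC1 hC2, fun R eta s heta hs hs1 => ?_⟩
  have h1 := hfin (fun O => G1 ⟨R, a, b', eta⟩ s O y ∧ ¬ G3 ⟨R, a, b', eta⟩ O y)
    (isLocal_G13 ⟨R, a, b', eta⟩ s y)
  refine h1.trans ?_
  rw [Pr_shift_G13 ⟨R, a, b', eta⟩ s y]
  have h2 : Pr d {ω : Om d | G1 ⟨R, a, b', eta⟩ s (Oc ω) 0 ∧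
      ¬ G3 ⟨R, a, b', eta⟩ (Oc ω) 0} ≤
      ENNReal.ofReal (C2 / eta * Real.sqrt s) * TR R (t1 : V d → ℝ≥0∞) := by
    refine le_trans (measure_mono ?_) (hnl R t1 eta s heta hs hs1)
    rintro ω ⟨hG1, hG3⟩
    exact ⟨hG1.1, hG1.2, not_le.1 hG3⟩
  calc ENNReal.ofReal C1 * Pr d {ω : Om d | G1 ⟨R, a, b', eta⟩ s (Oc ω) 0 ∧
      ¬ G3 ⟨R, a, b', eta⟩ (Oc ω) 0}
      ≤ ENNReal.ofReal C1 * (ENNReal.ofReal (C2 / eta * Real.sqrt s) *
          TR R (t1 : V d → ℝ≥0∞)) := mul_le_mul_right h2 _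
    _ = ENNReal.ofReal (C1 * C2 / eta * Real.sqrt s) * TR R (t1 : V d → ℝ≥0∞) := by
        rw [← mul_assoc, ← ENNReal.ofReal_mul hC1.le]
        congr 2
        ring

theorem loss4 (hC : Crit d) (h5 : Out5 d) {b : ℝ} (h8 : Out8 d b) {a b' : ℝ} (ha : 0 < a)
    (hab : a < b') (A : Finset (V d)) {y : V d} (hy : y ∉ A) : ∃ C : ℝ, 0 < C ∧
      ∀ (R : ℕ) (eta s Lam : ℝ), 0 < Lam → 0 < s → s ≤ 1 →
      Pr d {ω | G1 ⟨R, a, b', eta⟩ s ((Del.ofSet (A : Set (V d))).rem (Oc ω)) y ∧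
        ¬ G4 Lam ((Del.ofSet (A : Set (V d))).rem (Oc ω)) y} ≤
        ENNReal.ofReal (C / Lam * Real.sqrt s) := by
  obtain ⟨C1, hC1, hfin⟩ := loss_aux h5 h8 A hy
  obtain ⟨C2, hC2, hp⟩ := h8.pairs a b' ha hab
  have hT := (t2_fin hC).ne
  set T : ℝ≥0∞ := ∑' z : V d, t2 z * conv (tau (pc d)) (tau (pc d)) z with hTdef
  have hT0 : 0 ≤ T.toReal := ENNReal.toReal_nonneg
  refine ⟨C1 * C2 * (T.toReal + 1), by positivity, fun R eta s Lam hLam hs hs1 => ?_⟩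
  have h1 := hfin (fun O => G1 ⟨R, a, b', eta⟩ s O y ∧ ¬ G4 Lam O y)
    (isLocal_G14 ⟨R, a, b', eta⟩ s Lam y)
  refine h1.trans ?_
  rw [Pr_shift_G14 ⟨R, a, b', eta⟩ s Lam y]
  have h2 : Pr d {ω : Om d | G1 ⟨R, a, b', eta⟩ s (Oc ω) 0 ∧ ¬ G4 Lam (Oc ω) 0} ≤
      ENNReal.ofReal (C2 / Lam * Real.sqrt s) * T := by
    refine le_trans (measure_mono ?_) (hp t2 Lam s hLam hs hs1)
    rintro ω ⟨hG1, hG4⟩
    exact ⟨hG1.1, hG1.2, not_le.1 hG4⟩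
  have hsq : 0 ≤ Real.sqrt s := Real.sqrt_nonneg s
  calc ENNReal.ofReal C1 * Pr d {ω : Om d | G1 ⟨R, a, b', eta⟩ s (Oc ω) 0 ∧
      ¬ G4 Lam (Oc ω) 0}
      ≤ ENNReal.ofReal C1 * (ENNReal.ofReal (C2 / Lam * Real.sqrt s) * T) :=
        mul_le_mul_right h2 _
    _ = ENNReal.ofReal (C1 * (C2 / Lam * Real.sqrt s * T.toReal)) := by
        have e1 : ENNReal.ofReal (C2 / Lam * Real.sqrt s * T.toReal) =
            ENNReal.ofReal (C2 / Lam * Real.sqrt s) * T := by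
          rw [ENNReal.ofReal_mul (by positivity : (0 : ℝ) ≤ C2 / Lam * Real.sqrt s),
            ENNReal.ofReal_toReal hT]
        rw [ENNReal.ofReal_mul hC1.le, e1]
    _ ≤ ENNReal.ofReal (C1 * C2 * (T.toReal + 1) / Lam * Real.sqrt s) := by
        refine ENNReal.ofReal_le_ofReal ?_
        have e : C1 * C2 * (T.toReal + 1) / Lam * Real.sqrt s =
            C1 * (C2 / Lam * Real.sqrt s * T.toReal) + C1 * (C2 / Lam * Real.sqrt s) := by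
          field_simp
        rw [e]
        have : 0 ≤ C1 * (C2 / Lam * Real.sqrt s) := by positivity
        linarith

end Pool.Agent.PB.Low
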