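import Pool.Agent.PB.Low.Defs
import Pool.Agent.PB.Meas
import Pool.Agent.PB.BK
import Pool.Agent.PB.P.Act
import Pool.Agent.PB.P.Expl

/-!
# PROJECT PB, Section 11, LOW-Ev: the events `X_r^A(y)`, `x ~> y`, `x ~> G`: measurability, up, dependence,
# monotonicity, translation

All statements are simple consequences of the API:
* `Meas.lean`: MES (measurable edge set), `opn_MES p`, `MES.rem`, `MES.rchL`, `MES.rch`, `MES.cl`, `MVS.infinite`,
  `MVS.encard`, `MVS.finite`; `V d` is countable, so `∃ z` is a countable union (`MeasurableSet.iUnion`).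
* monotonicity: `Rch.mono`, `RchL.mono`, `Del.rem_mono`, `Cl_mono`.

PLAN.
* `Big.mono`: if `(Cl O' z).Infinite` done; otherwise `Cl O z ⊆ Cl O' z` is finite, so `Big n O z` gives `n ≤ ncard`,
  `Set.ncard_le_ncard`.
* `measurableSet_Big`: `{(Cl (S ω) z).Infinite}` by `MVS.infinite (hS.cl z)`; the other part: `ncard = encard.toNat`
  (`Set.ncard`), `MVS.encard` is measurable, `ENat.toNat` and the cast are measurable (countable discrete space:
  `measurable_from_top.comp` / `Measurable.comp`, or write the set as a preimage of `MVS.encard`).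
* `isUp_XEv`: labels down = edge sets up (`opn p ω ⊆ opn p ω'`), see `isUp_ev3` in P/BKw.lean for the argument.
* `dep_XEv_edges`: if ω = ω' on `(gI d b)ᶜ` (all edge labels) then `opn p ω = opn p ω'`.
* `dep_XEv_off`: `(Del.ofSet K).rem (opn p ω)` only involves labels of edges not touching `K`: `rem_ofSet`
  (P/Loc.lean: `(Del.ofSet K).rem O = O \ touch K`), `dep_rem_ofSet` (P/Loc.lean) with
  `F := fun O _ _ => O` for both levels, `dep_pair`, `dep_comp`.
* `XEv_anti`: `A ⊆ A'`: `(Del.ofSet A').rem O ⊆ (Del.ofSet A).rem O` and `Big.mono`.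
* `fr_shift`: `Pr_act (trI a)` (P/Act.lean): `{ω | act (trI a) ω ∈ XEv p n r (ofSet A) y} = XEv p n r (ofSet (A + a)) (y + a)`;
  edges: `mem_opn_act (trI_aut a)`; clusters correspond under `x ↦ x + a` (`Rch_equiv`, prove the same for `RchL` by
  induction; `Cl` of `z + a` is the image of `Cl` of `z` under the injective map, so `Set.infinite_image_iff`-type lemmas,
  `Set.ncard_image_of_injective`).
-/

set_option autoImplicit false
open MeasureTheory Filter Topology
open scoped ENNReal BigOperators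

namespace Pool.Agent.PB.Low

variable {d : ℕ}

theorem mem_XEv {p n : ℝ} {r : ℕ} {A : Del (V d)} {y : V d} {ω : Om d} :
    ω ∈ XEv p n r A y ↔ y ∉ A.S ∧ ∃ z, RchL (A.rem (opn p ω)) r y z ∧ Big n (A.rem (Oc ω)) z :=
  Iff.rfl

theorem Big.mono {W : Type*} {n : ℝ} {O O' : Set (Sym2 W)} (hO : O ⊆ O') {z : W}
    (h : Big n O z) : Big n O' z := by
  by_cases hinf : (Cl O' z).Infinite
  · exact Or.inl hinf
  · rcases h with h | h
    · exact Or.inl (h.mono (Cl_mono hO z))
    · refine Or.inr (h.trans ?_)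
      exact_mod_cast Set.ncard_le_ncard (Cl_mono hO z) (Set.not_infinite.1 hinf)

theorem measurableSet_Big {Ω : Type*} [MeasurableSpace Ω] {S : Ω → Set (Sym2 (V d))} (hS : MES S)
    (n : ℝ) (z : V d) : MeasurableSet {ω | Big n (S ω) z} := by
  have hC := hS.cl z
  have h1 : {ω | Big n (S ω) z} = {ω | (Cl (S ω) z).Infinite} ∪
      (fun ω => (Cl (S ω) z).encard) ⁻¹' {x : ℕ∞ | n ≤ ((x.toNat : ℕ) : ℝ)} := rfl
  rw [h1]
  exact hC.infinite.union (hC.encard (Set.to_countable _).measurableSet)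

theorem measurableSet_XEv (p n : ℝ) (r : ℕ) (A : Del (V d)) (y : V d) :
    MeasurableSet (XEv p n r A y) := by
  have h1 : XEv p n r A y = {_ω : Om d | y ∉ A.S} ∩ ⋃ z : V d,
      ({ω : Om d | RchL (A.rem (opn p ω)) r y z} ∩ {ω : Om d | Big n (A.rem (Oc ω)) z}) := by
    ext ω
    rw [mem_XEv]
    simp only [Set.mem_inter_iff, Set.mem_iUnion, Set.mem_ofPred_eq]
  rw [h1]
  refine (MeasurableSet.const _).inter (MeasurableSet.iUnion fun z => ?_)
  exact (((opn_MES p).rem A).rchL r y z).inter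
    (measurableSet_Big ((opn_MES (pc d)).rem A) n z)

private theorem opn_up (p : ℝ) {ω ω' : Om d} (h : ∀ i, ω' i ≤ ω i) : opn p ω ⊆ opn p ω' :=
  fun e he => ⟨he.1, le_trans (by exact_mod_cast h (Sum.inl e)) he.2⟩

theorem isUp_XEv (p n : ℝ) (r : ℕ) (A : Del (V d)) (y : V d) : IsUp (XEv p n r A y) := by
  rintro ω ω' h ⟨hy, z, h1, h2⟩
  exact ⟨hy, z, h1.mono (A.rem_mono (opn_up p h)),
    Big.mono (A.rem_mono (opn_up (pc d) h)) (z := z) h2⟩

private theorem XEv_congr {p n : ℝ} {r : ℕ} {A : Del (V d)} {y : V d} {ω ω' : Om d}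
    (h1 : A.rem (opn p ω) = A.rem (opn p ω')) (h2 : A.rem (Oc ω) = A.rem (Oc ω')) :
    (ω ∈ XEv p n r A y) = (ω' ∈ XEv p n r A y) := by
  apply propext
  rw [mem_XEv, mem_XEv, h1, h2]

theorem dep_XEv_edges (p n : ℝ) (r : ℕ) (A : Del (V d)) (y : V d) (b : Bool) :
    DependsOn (fun ω : Om d => ω ∈ XEv p n r A y) (gI d b)ᶜ := by
  intro ω ω' h
  have key : ∀ q : ℝ, opn q ω = opn q ω' := by
    intro q
    ext e
    have h1 : ω (Sum.inl e) = ω' (Sum.inl e) := h _ (by
      rintro ⟨v, hv⟩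
      cases hv)
    simp only [opn, Set.mem_ofPred_eq, h1]
  exact XEv_congr (congrArg _ (key p)) (congrArg _ (key (pc d)))

/-- off the deleted vertices (also when `y ∈ K`: then the event is empty) -/
theorem dep_XEv_off (p n : ℝ) (r : ℕ) {K S : Set (V d)} (hK : K ⊆ S) (y : V d) :
    DependsOn (fun ω : Om d => ω ∈ XEv p n r (Del.ofSet S) y) (tI K)ᶜ := by
  intro ω ω' h
  have key : ∀ q : ℝ, (Del.ofSet S).rem (opn q ω) = (Del.ofSet S).rem (opn q ω') := by
    intro q
    ext e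
    rw [Del.ofSet_rem, Del.ofSet_rem]
    have h1 : (∀ x ∈ e, x ∉ S) → ω (Sum.inl e) = ω' (Sum.inl e) := fun h2 => h _ (by
      intro h3
      obtain ⟨x, hx, hxK⟩ := inl_mem_tI.1 h3
      exact h2 x hx (hK hxK))
    constructor
    · rintro ⟨⟨h2, h3⟩, h4⟩
      exact ⟨⟨h2, by rw [← h1 h4]; exact h3⟩, h4⟩
    · rintro ⟨⟨h2, h3⟩, h4⟩
      exact ⟨⟨h2, by rw [h1 h4]; exact h3⟩, h4⟩
  exact XEv_congr (key p) (key (pc d))

theorem XEv_mono_r {p n : ℝ} {r r' : ℕ} (h : r ≤ r') (A : Del (V d)) (y : V d) :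
    XEv p n r A y ⊆ XEv p n r' A y := by
  rintro ω ⟨hy, z, h1, h2⟩
  exact ⟨hy, z, h1.mono_len h, h2⟩

theorem XEv_anti {p n : ℝ} {r : ℕ} {A A' : Set (V d)} (h : A ⊆ A') (y : V d) :
    XEv p n r (Del.ofSet A') y ⊆ XEv p n r (Del.ofSet A) y := by
  have key : ∀ O : Set (Sym2 (V d)), (Del.ofSet A').rem O ⊆ (Del.ofSet A).rem O := by
    rintro O e ⟨h1, h2, h3⟩
    exact ⟨h1, h2, fun x hx hxA => h3 x hx (h hxA)⟩
  rintro ω ⟨hy, z, h1, h2⟩
  exact ⟨fun h3 => hy (h h3), z, h1.mono (key _), Big.mono (key _) (z := z) h2⟩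

theorem fr_mono_r {p n : ℝ} {r r' : ℕ} (h : r ≤ r') (A : Set (V d)) (y : V d) :
    fr p n r A y ≤ fr p n r' A y :=
  measure_mono (XEv_mono_r h _ y)

theorem fr_anti {p n : ℝ} {r : ℕ} {A A' : Set (V d)} (h : A ⊆ A') (y : V d) :
    fr p n r A' y ≤ fr p n r A y :=
  measure_mono (XEv_anti h y)

theorem fr_le_one (p n : ℝ) (r : ℕ) (A : Set (V d)) (y : V d) : fr p n r A y ≤ 1 :=
  prob_le_one

private theorem RchL_equiv {W W' : Type*} {O : Set (Sym2 W)} {O' : Set (Sym2 W')} (f : W ≃ W')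
    (h : ∀ a b, s(a, b) ∈ O ↔ s(f a, f b) ∈ O') (r : ℕ) (x y : W) :
    RchL O r x y ↔ RchL O' r (f x) (f y) := by
  induction r generalizing y with
  | zero => exact f.injective.eq_iff.symm
  | succ r ih =>
    constructor
    · rintro (h1 | ⟨z, h1, h2⟩)
      · exact Or.inl ((ih y).1 h1)
      · exact Or.inr ⟨f z, (ih z).1 h1, (h z y).1 h2⟩
    · rintro (h1 | ⟨z, h1, h2⟩)
      · exact Or.inl ((ih y).2 h1)
      · refine Or.inr ⟨f.symm z, (ih _).2 ?_, (h _ y).2 ?_⟩
        · rw [Equiv.apply_symm_apply]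
          exact h1
        · rw [Equiv.apply_symm_apply]
          exact h2

private theorem Big_equiv {W W' : Type*} {O : Set (Sym2 W)} {O' : Set (Sym2 W')} (f : W ≃ W')
    (h : ∀ a b, s(a, b) ∈ O ↔ s(f a, f b) ∈ O') (n : ℝ) (z : W) :
    Big n O z ↔ Big n O' (f z) := by
  have h1 : Cl O' (f z) = f '' Cl O z := by
    ext x
    constructor
    · intro hx
      refine ⟨f.symm x, ?_, Equiv.apply_symm_apply f x⟩
      show Rch O z (f.symm x)
      rw [Rch_equiv f h, Equiv.apply_symm_apply]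
      exact hx
    · rintro ⟨w, hw, rfl⟩
      exact (Rch_equiv f h z w).1 hw
  unfold Big
  rw [h1, Set.infinite_image_iff f.injective.injOn, Set.ncard_image_of_injective _ f.injective]

theorem fr_shift (p n : ℝ) (r : ℕ) (A : Set (V d)) (y a : V d) :
    fr p n r ((fun x => x + a) '' A) (y + a) = fr p n r A y := by
  unfold fr
  rw [← Pr_act (trI a) (XEv p n r (Del.ofSet A) y)]
  congr 1
  have hA : ∀ x : V d, x + a ∈ (fun x => x + a) '' A ↔ x ∈ A := by
    intro x
    constructor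
    · rintro ⟨z, hz, hzx⟩
      have : z = x := add_right_cancel hzx
      rw [← this]
      exact hz
    · intro hx
      exact ⟨x, hx, rfl⟩
  have hed : ∀ (q : ℝ) (ω : Om d) (u v : V d),
      s(u, v) ∈ (Del.ofSet A).rem (opn q (act (trI a) ω)) ↔
        s(trI a u, trI a v) ∈ (Del.ofSet ((fun x => x + a) '' A)).rem (opn q ω) := by
    intro q ω u v
    have hu := hA u
    have hv := hA v
    rw [Del.ofSet_rem, Del.ofSet_rem]
    simp only [Set.mem_ofPred_eq, mem_opn_act (trI_aut a), Sym2.mem_iff, forall_eq_or_imp,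
      forall_eq]
    rw [trI_apply, trI_apply, hu, hv]
  ext ω
  constructor
  · rintro ⟨hy, z, h1, h2⟩
    refine ⟨fun h3 => hy ((hA y).2 h3), (trI a).symm z, ?_, ?_⟩
    · rw [RchL_equiv (trI a) (hed p ω), Equiv.apply_symm_apply]
      exact h1
    · refine (Big_equiv (trI a) (hed (pc d) ω) n _).2 ?_
      rw [Equiv.apply_symm_apply]
      exact h2
  · rintro ⟨hy, z, h1, h2⟩
    refine ⟨fun h3 => hy ((hA y).1 h3), trI a z, ?_, ?_⟩
    · exact (RchL_equiv (trI a) (hed p ω) r y z).1 h1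
    · exact (Big_equiv (trI a) (hed (pc d) ω) n z).1 h2

theorem measurableSet_Wk (p : ℝ) (r : ℕ) (x y : V d) : MeasurableSet (Wk p r x y) := by
  have h1 : Wk p r x y = ⋃ z : V d, ({ω : Om d | RchL (opn p ω) r x z} ∩
      {ω : Om d | Rch (Oc ω) z y}) := by
    ext ω
    simp only [Wk, Set.mem_iUnion, Set.mem_inter_iff, Set.mem_ofPred_eq]
  rw [h1]
  exact MeasurableSet.iUnion fun z => ((opn_MES p).rchL r x z).inter ((opn_MES (pc d)).rch z y)

theorem measurableSet_WkG (p h : ℝ) (r : ℕ) (x : V d) : MeasurableSet (WkG p h r x) := by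
  have h1 : WkG p h r x = ⋃ g : V d, ({ω : Om d | g ∈ ghost false h ω} ∩ Wk p r x g) := by
    ext ω
    simp only [WkG, Wk, Set.mem_iUnion, Set.mem_inter_iff, Set.mem_ofPred_eq]
  rw [h1]
  exact MeasurableSet.iUnion fun g => (ghost_MVS false h g).inter (measurableSet_Wk p r x g)

end Pool.Agent.PB.Low
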