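import Pool.Agent.PB.Low.LocG
import Pool.Agent.PB.Low.Ev
import Pool.Agent.PB.Spr.Spr

/-!
# PROJECT PB, Section 11, LOW-Step: the sprinkling step

PLAN.
* `hit_sub`: `(x, y') ∈ bp D (ofSet A)` with label `≤ p`, `ω ∈ XEv p n r (ofSet (A ∪ D)) y'`. `RchL (rem_A (Oc ω)) r0 y x`
  by (g2) (`x ∈ D = Cl`), so `RchL (rem_A (opn p ω)) r0 y x` (`opn_mono hp`, `Del.rem_mono`); the edge `s(x, y')` is in
  `rem_A (opn p ω)` (`mem_bp`: adjacent, label `≤ p` (`li`), `x ∈ D` is not in `A` by `ClA_disjoint`, `y' ∉ A`); then `r` steps off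
  `A ∪ D` to `z` (`RchL.mono`, `RchL.trans`, lengths `r0 + 1 + r`, `RchL.mono_len`/`omega`); `Big n (rem_{A ∪ D}) z → Big n (rem_A) z`
  (`Big.mono`).
* `step_D`. Let `Gd q = XEv p n r (ofSet (A ∪ D)) q.2`, `q(D) = ∫⁻ ofReal (1 - exp (-(epp d p * nB D (ofSet A) Gd)))`. If `y ∉ D` or `D`
  meets `A` then `EvK (ofSet A) y D` is empty (`self_mem_ClA`, `ClA_disjoint`) and the claim is trivial. Otherwise
  `spr_cfg` (Spr/Spr.lean) with `Ψ O' = Good π s Lam r0 O' y`: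
  `Pr{EvK ∧ Ψ (cfg) ∧ hitB} = Pr{EvK ∧ Ψ (cfg)} * q(D)`; hypotheses: `measurableSet_XEv`, `dep_XEv_off` with `K = D ⊆ A ∪ D`.
  On `EvK`: `Ψ (cfg ω) ↔ Good π s Lam r0 (rem_A (Oc ω)) y` (`agree_cfg`, `Good_agree`), so the left event is contained in
  `{EvK ∧ XEv p n (r + r0 + 1) (ofSet A) y}` by `hit_sub`.
  For `ω ∈ EvK` with `Good`: `ofReal ρ' * ofReal (W ω) ≤ q(D)`: let `v = ε (x Y - κ N)`; if `v ≤ 0` then `W ω = 0` (`wx`).
  Otherwise `q(D) ≥ ofReal (1 - exp (-(epp d p * v))) * Pr{v ≤ nB}` (restrict the integral to `{v ≤ nB}`, `measurable_nB`,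
  `epp_nonneg`), `hV ω : ofReal ρ' ≤ Pr{v ≤ nB}`, and `epp d p ≥ ε / (1 - pc d)` (`-log (1 - u) ≥ u`: `Real.log_le_sub_one_of_pos` or
  `Real.add_one_le_exp`; `(1 - p)/(1 - pc) = 1 - ε/(1 - pc)`), so `1 - exp (-(epp v)) ≥ 1 - exp (-(ε/(1-pc) * v))` which is
  `wx d x κ (ε^2) N Y` (`ε * ε = ε^2`, `max 0 (ε^2) = ε^2`, `max 0 v'`), `N = Nc = D.card`, `Y = YR`.
  So `ofReal ρ' * ∫⁻_{EvK ∧ Good} ofReal W ≤ ∫⁻_{EvK ∧ Good} q(D) = Pr{EvK ∧ Good} q(D)`
  (`setLIntegral_mono'`/`lintegral_const_mul'`; no measurability of `Good` needed for `≤`: use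
  `setLIntegral_mono_ae`-free form `lintegral_mono` on the restricted measure needs the pointwise bound on the set: the set is
  measurable, because on `EvK` the event only depends on finitely many edges: `measurableSet_fin` in Spr/Spr.lean applied to
  `fun ω => cfg (ofSet A) D ω`; see the proof of `spr_cfg`).
* `step_all`: sum over `D : Finset (V d)`: the events `EvK (ofSet A) y D` are disjoint, `Pr (XEv) ≥ Σ_D Pr{EvK ∧ XEv}`, and
  `lintegral_split` (P/Expl.lean) with `C ω = ClA (ofSet A) (Oc ω) y` (`MES.clA`) for `F = indicator of Good * ofReal W`: on the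
  infinite part `Nc = 0` contradicts `G1` (`π.a > 0`), so `F = 0` there.
-/

set_option autoImplicit false
open MeasureTheory Filter Topology
open scoped ENNReal BigOperators

namespace Pool.Agent.PB.Low

variable {d : ℕ}

theorem hit_sub {p n : ℝ} (hp : pc d ≤ p) {A : Set (V d)} {y : V d} (hy : y ∉ A)
    {D : Finset (V d)} {ω : Om d} {r r0 : ℕ} (h1 : ω ∈ EvK (Del.ofSet A) y D)
    (h2 : G2 r0 ((Del.ofSet A).rem (Oc ω)) y)
    (h3 : ω ∈ hitB D (Del.ofSet A) (fun q => XEv p n r (Del.ofSet (A ∪ D)) q.2) p) :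
    ω ∈ XEv p n (r + r0 + 1) (Del.ofSet A) y := by
  obtain ⟨q, hq, hX, hl⟩ := h3
  obtain ⟨hq1, hq2, hq3, hq4, hq5⟩ := mem_bp.1 hq
  obtain ⟨hy', z, hz, hB⟩ := hX
  have h1' : ClA (Del.ofSet A) (Oc ω) y = (D : Set (V d)) := h1
  have hx : q.1 ∈ ClA (Del.ofSet A) (Oc ω) y := by rw [h1']; exact hq1
  have hopn : Oc ω ⊆ opn p ω := opn_mono hp ω
  have key : ∀ O : Set (Sym2 (V d)), (Del.ofSet (A ∪ (D : Set (V d)))).rem O ⊆ (Del.ofSet A).rem O := by
    rintro O e ⟨h4, h5, h6⟩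
    exact ⟨h4, h5, fun w hw hwA => h6 w hw (Or.inl hwA)⟩
  have hr1 : RchL ((Del.ofSet A).rem (opn p ω)) r0 y q.1 :=
    (h2 q.1 hx.2).mono ((Del.ofSet A).rem_mono hopn)
  have hedge : s(q.1, q.2) ∈ (Del.ofSet A).rem (opn p ω) := by
    refine ⟨⟨by rw [SimpleGraph.mem_edgeSet]; exact hq5, hl⟩, hq4, ?_⟩
    intro w hw
    rcases Sym2.mem_iff.1 hw with rfl | rfl
    · exact ClA_disjoint hx
    · exact hq3
  have hr2 : RchL ((Del.ofSet A).rem (opn p ω)) (r0 + 1) y q.2 := Or.inr ⟨q.1, hr1, hedge⟩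
  have hr3 : RchL ((Del.ofSet A).rem (opn p ω)) r q.2 z := hz.mono (key _)
  have hr4 := (hr2.trans hr3).mono_len (show r0 + 1 + r ≤ r + r0 + 1 by omega)
  exact ⟨hy, z, hr4, Big.mono (key _) (z := z) hB⟩

/-- the hypothesis supplied by `V_lower` -/
def VHyp (p n ε x κ ρ' Lam : ℝ) (r r0 : ℕ) (π : Par) (A : Set (V d)) (y : V d) : Prop :=
  ∀ (D : Finset (V d)) (O : Set (Sym2 (V d))), Disjoint A (D : Set (V d)) →
    Cl O y = (D : Set (V d)) → Good π (ε ^ 2) Lam r0 O y →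
    ENNReal.ofReal ρ' ≤ Pr d {ω | ε * (x * YR π.R O y - κ * D.card) ≤
        (nB D (Del.ofSet A) (fun q => XEv p n r (Del.ofSet (A ∪ D)) q.2) ω : ℝ)}

private theorem good_iff {π : Par} {s Lam : ℝ} {r0 : ℕ} {A : Set (V d)} {y : V d} (hy : y ∉ A)
    (D : Finset (V d)) :
    {ω : Om d | ω ∈ EvK (Del.ofSet A) y D ∧ Good π s Lam r0 ((Del.ofSet A).rem (Oc ω)) y} =
      {ω : Om d | ω ∈ EvK (Del.ofSet A) y D ∧ Good π s Lam r0 (cfg (Del.ofSet A) D ω) y} := by
  ext ω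
  simp only [Set.mem_ofPred_eq]
  constructor
  · rintro ⟨h1, h2⟩
    exact ⟨h1, (Good_agree (agree_cfg hy h1) π s Lam r0).2 h2⟩
  · rintro ⟨h1, h2⟩
    exact ⟨h1, (Good_agree (agree_cfg hy h1) π s Lam r0).1 h2⟩

private theorem measurable_good {π : Par} {s Lam : ℝ} {r0 : ℕ} {A : Set (V d)} {y : V d}
    (hy : y ∉ A) (D : Finset (V d)) :
    MeasurableSet {ω : Om d | ω ∈ EvK (Del.ofSet A) y D ∧
      Good π s Lam r0 ((Del.ofSet A).rem (Oc ω)) y} := by
  rw [good_iff hy]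
  have hFm : MeasurableSet {ω : Om d | Good π s Lam r0
      ((Del.ofSet A).rem (Oc ω) ∩ ins (D : Set (V d))) y} :=
    measurableSet_fin (((opn_MES (pc d)).rem (Del.ofSet A)).inter (MES.const (ins (D : Set (V d)))))
      (ins_finite D) (fun ω => Set.inter_subset_right) (fun O => Good π s Lam r0 O y)
  have e2 : {ω : Om d | ω ∈ EvK (Del.ofSet A) y D ∧ Good π s Lam r0 (cfg (Del.ofSet A) D ω) y} =
      EvK (Del.ofSet A) y D ∩ {ω : Om d | Good π s Lam r0
        ((Del.ofSet A).rem (Oc ω) ∩ ins (D : Set (V d))) y} := by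
    ext ω
    simp only [Set.mem_inter_iff, Set.mem_ofPred_eq]
    constructor
    · rintro ⟨h1, h2⟩
      exact ⟨h1, by rw [← cfg_eq (A := Del.ofSet A) hy h1]; exact h2⟩
    · rintro ⟨h1, h2⟩
      exact ⟨h1, by rw [cfg_eq (A := Del.ofSet A) hy h1]; exact h2⟩
  rw [e2]
  exact (measurableSet_EvK _ _ _).inter hFm

private theorem low_q (h01 : pc d < 1) {p : ℝ} (hp : pc d ≤ p) (hp1 : p < 1) (K : Finset (V d))
    (A : Del (V d)) {G : V d × V d → Set (Om d)} (hG : ∀ q, MeasurableSet (G q)) (v : ℝ) :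
    ENNReal.ofReal (1 - Real.exp (-(epp d p * v))) * Pr d {ω | v ≤ (nB K A G ω : ℝ)} ≤
      ∫⁻ ω, ENNReal.ofReal (1 - Real.exp (-(epp d p * (nB K A G ω : ℝ)))) ∂Pr d := by
  have hm : MeasurableSet {ω : Om d | v ≤ (nB K A G ω : ℝ)} :=
    measurableSet_le measurable_const (measurable_nB K A hG)
  rw [← lintegral_indicator_const hm]
  refine lintegral_mono fun ω => ?_
  by_cases h : ω ∈ {ω : Om d | v ≤ (nB K A G ω : ℝ)}
  · rw [Set.indicator_of_mem h]
    refine ENNReal.ofReal_le_ofReal ?_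
    have h2 : epp d p * v ≤ epp d p * (nB K A G ω : ℝ) :=
      mul_le_mul_of_nonneg_left h (epp_nonneg h01 hp hp1)
    have := Real.exp_le_exp.2 (neg_le_neg h2)
    linarith
  · rw [Set.indicator_of_notMem h]; exact bot_le

private theorem epp_ge {ε : ℝ} (h01 : pc d < 1) (hε : 0 < ε) (hε1 : pc d + ε < 1) :
    ε / (1 - pc d) ≤ epp d (pc d + ε) := by
  have h1 : 0 < 1 - pc d := by linarith
  have h2 : (1 - (pc d + ε)) / (1 - pc d) = 1 - ε / (1 - pc d) := by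
    field_simp
    ring
  have h3 : 0 < (1 - (pc d + ε)) / (1 - pc d) := div_pos (by linarith) h1
  have h4 := Real.log_le_sub_one_of_pos h3
  unfold epp
  rw [h2] at h4 ⊢
  linarith

private theorem wx_le {ε x κ : ℝ} (h01 : pc d < 1) (hε : 0 < ε) (hε1 : pc d + ε < 1) (N : ℕ)
    (Y : ℝ) : ENNReal.ofReal (wx d x κ (ε ^ 2) N Y) ≤
      ENNReal.ofReal (1 - Real.exp (-(epp d (pc d + ε) * (ε * (x * Y - κ * N))))) := by
  have h1 : 0 < 1 - pc d := by linarith
  unfold wx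
  rcases le_or_gt (x * Y - κ * N) 0 with hv | hv
  · have h2 : max 0 (x * Y + (-κ) * N) = 0 := max_eq_left (by linarith)
    rw [h2, mul_zero, neg_zero, Real.exp_zero, sub_self, ENNReal.ofReal_zero]
    exact bot_le
  · have h2 : max 0 (x * Y + (-κ) * N) = x * Y - κ * N := by
      rw [max_eq_right (by linarith)]; ring
    have h3 : max 0 (ε ^ 2) = ε ^ 2 := max_eq_right (by positivity)
    rw [h2, h3]
    refine ENNReal.ofReal_le_ofReal ?_
    have h4 : ε ^ 2 / (1 - pc d) * (x * Y - κ * N) ≤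
        epp d (pc d + ε) * (ε * (x * Y - κ * N)) := by
      have h5 : ε ^ 2 / (1 - pc d) * (x * Y - κ * N) =
          ε / (1 - pc d) * (ε * (x * Y - κ * N)) := by ring
      rw [h5]
      exact mul_le_mul_of_nonneg_right (epp_ge h01 hε hε1) (by positivity)
    have := Real.exp_le_exp.2 (neg_le_neg h4)
    linarith

theorem step_D (hC : Crit d) {n ε x κ ρ' Lam : ℝ} {r r0 : ℕ} {π : Par} (hε : 0 < ε)
    (hε1 : pc d + ε < 1) (ha : 0 < π.a) {A : Set (V d)} {y : V d} (hy : y ∉ A)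
    (hV : VHyp (pc d + ε) n ε x κ ρ' Lam r r0 π A y) (D : Finset (V d)) :
    ENNReal.ofReal ρ' * ∫⁻ ω in {ω | ω ∈ EvK (Del.ofSet A) y D ∧
        Good π (ε ^ 2) Lam r0 ((Del.ofSet A).rem (Oc ω)) y},
          ENNReal.ofReal (WA (Wf π.R gL (wx d x κ)) (ε ^ 2) (Del.ofSet A) (Oc ω) y) ∂Pr d ≤
      Pr d {ω | ω ∈ EvK (Del.ofSet A) y D ∧
        ω ∈ XEv (pc d + ε) n (r + r0 + 1) (Del.ofSet A) y} := by
  have h01 := hC.pc_lt
  have hp : pc d ≤ pc d + ε := by linarith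
  by_cases hyD : y ∈ D ∧ Disjoint (D : Set (V d)) A
  · obtain ⟨hyK, hKA⟩ := hyD
    have hG : ∀ q : V d × V d, MeasurableSet
        (XEv (pc d + ε) n r (Del.ofSet (A ∪ (D : Set (V d)))) q.2) :=
      fun q => measurableSet_XEv _ _ _ _ _
    have hGT : ∀ q : V d × V d, DependsOn (fun ω : Om d => ω ∈
        XEv (pc d + ε) n r (Del.ofSet (A ∪ (D : Set (V d)))) q.2) (tI (D : Set (V d)))ᶜ :=
      fun q => dep_XEv_off _ _ _ Set.subset_union_right _
    have hspr := spr_cfg hC.pc_pos.le h01 hp hε1 (A := Del.ofSet A) (y := y) (K := D) hy hyK hKA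
      (fun O => Good π (ε ^ 2) Lam r0 O y)
      (G := fun q => XEv (pc d + ε) n r (Del.ofSet (A ∪ (D : Set (V d)))) q.2) hG hGT
    rw [← lintegral_const_mul' _ _ ENNReal.ofReal_ne_top]
    refine (setLIntegral_mono' (measurable_good hy D) (g := fun _ => ∫⁻ ω, ENNReal.ofReal
      (1 - Real.exp (-(epp d (pc d + ε) * (nB D (Del.ofSet A)
        (fun q => XEv (pc d + ε) n r (Del.ofSet (A ∪ (D : Set (V d)))) q.2) ω : ℝ)))) ∂Pr d)
          ?_).trans ?_
    · rintro ω ⟨h1, h2⟩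
      have hcl : Cl ((Del.ofSet A).rem (Oc ω)) y = (D : Set (V d)) := by
        have h1' : ClA (Del.ofSet A) (Oc ω) y = (D : Set (V d)) := h1
        rw [← h1']
        ext w
        exact ⟨fun h => ⟨hy, h⟩, fun h => h.2⟩
      have hN : Nc ((Del.ofSet A).rem (Oc ω)) y = D.card := by
        unfold Nc
        rw [hcl, Set.ncard_coe_finset]
      have hW : WA (Wf π.R gL (wx d x κ)) (ε ^ 2) (Del.ofSet A) (Oc ω) y =
          wx d x κ (ε ^ 2) D.card (YR π.R ((Del.ofSet A).rem (Oc ω)) y) := by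
        have hy' : y ∉ (Del.ofSet A).S := hy
        simp only [WA, if_neg hy', Wf, hN, YR]
      have h3 := hV D _ hKA.symm hcl h2
      rw [hW]
      refine le_trans ?_ (low_q h01 hp hε1 D (Del.ofSet A) hG
        (ε * (x * YR π.R ((Del.ofSet A).rem (Oc ω)) y - κ * D.card)))
      rw [mul_comm]
      exact mul_le_mul' (wx_le h01 hε hε1 _ _) h3
    · rw [setLIntegral_const, mul_comm, good_iff hy, ← hspr]
      refine measure_mono ?_
      rintro ω ⟨h1, h2, h3⟩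
      refine ⟨h1, hit_sub hp hy h1 ?_ h3⟩
      exact ((Good_agree (agree_cfg hy h1) π (ε ^ 2) Lam r0).1 h2).2.1
  · have hE : {ω : Om d | ω ∈ EvK (Del.ofSet A) y D ∧
        Good π (ε ^ 2) Lam r0 ((Del.ofSet A).rem (Oc ω)) y} = ∅ := by
      refine Set.eq_empty_of_forall_notMem ?_
      rintro ω ⟨h1, h2⟩
      have h1' : ClA (Del.ofSet A) (Oc ω) y = (D : Set (V d)) := h1
      refine hyD ⟨?_, ?_⟩
      · have : y ∈ ClA (Del.ofSet A) (Oc ω) y := self_mem_ClA (A := Del.ofSet A) hy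
        rw [h1'] at this
        exact this
      · rw [Set.disjoint_left]
        intro w hw
        rw [← h1'] at hw
        exact ClA_disjoint hw
    rw [hE]
    simp

theorem step_all (hC : Crit d) {n ε x κ ρ' Lam : ℝ} {r r0 : ℕ} {π : Par} (hε : 0 < ε)
    (hε1 : pc d + ε < 1) (ha : 0 < π.a) {A : Set (V d)} {y : V d} (hy : y ∉ A)
    (hV : VHyp (pc d + ε) n ε x κ ρ' Lam r r0 π A y) :
    ENNReal.ofReal ρ' * ∫⁻ ω in {ω | Good π (ε ^ 2) Lam r0 ((Del.ofSet A).rem (Oc ω)) y},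
          ENNReal.ofReal (WA (Wf π.R gL (wx d x κ)) (ε ^ 2) (Del.ofSet A) (Oc ω) y) ∂Pr d ≤
      fr (pc d + ε) n (r + r0 + 1) A y := by
  have hS : {ω : Om d | Good π (ε ^ 2) Lam r0 ((Del.ofSet A).rem (Oc ω)) y} =
      ⋃ D : Finset (V d), {ω : Om d | ω ∈ EvK (Del.ofSet A) y D ∧
        Good π (ε ^ 2) Lam r0 ((Del.ofSet A).rem (Oc ω)) y} := by
    ext ω
    simp only [Set.mem_iUnion, Set.mem_ofPred_eq]
    constructor
    · intro h
      have hfin : (Cl ((Del.ofSet A).rem (Oc ω)) y).Finite := by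
        by_contra hinf
        have h0 : Nc ((Del.ofSet A).rem (Oc ω)) y = 0 := Set.Infinite.ncard hinf
        have h1 := h.1.1
        rw [h0] at h1
        norm_num at h1
        linarith
      refine ⟨hfin.toFinset, ?_, h⟩
      show ClA (Del.ofSet A) (Oc ω) y = ((hfin.toFinset : Finset (V d)) : Set (V d))
      rw [Set.Finite.coe_toFinset]
      ext w
      exact ⟨fun h => h.2, fun h => ⟨hy, h⟩⟩
    · rintro ⟨D, _, h⟩
      exact h
  have hdisj : Pairwise (Function.onFun Disjoint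
      (fun D : Finset (V d) => EvK (Del.ofSet A) y D)) := by
    intro K K' hne
    rw [Function.onFun, Set.disjoint_left]
    intro ω h h'
    exact hne (Finset.coe_injective
      ((h : ClA (Del.ofSet A) (Oc ω) y = _).symm.trans h'))
  rw [hS, lintegral_iUnion (fun D => measurable_good hy D)
    (fun K K' hne => (hdisj hne).mono (fun ω h => h.1) (fun ω h => h.1)), ← ENNReal.tsum_mul_left]
  refine (ENNReal.tsum_le_tsum fun D => step_D hC hε hε1 ha hy hV D).trans ?_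
  have hm : ∀ D : Finset (V d), MeasurableSet {ω : Om d | ω ∈ EvK (Del.ofSet A) y D ∧
      ω ∈ XEv (pc d + ε) n (r + r0 + 1) (Del.ofSet A) y} := fun D =>
    (measurableSet_EvK _ _ _).inter (measurableSet_XEv _ _ _ _ _)
  have hd2 : Pairwise (Function.onFun Disjoint (fun D : Finset (V d) =>
      {ω : Om d | ω ∈ EvK (Del.ofSet A) y D ∧
        ω ∈ XEv (pc d + ε) n (r + r0 + 1) (Del.ofSet A) y})) := fun K K' hne =>
    (hdisj hne).mono (fun ω h => h.1) (fun ω h => h.1)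
  rw [← measure_iUnion hd2 hm]
  refine measure_mono (Set.iUnion_subset fun D => ?_)
  rintro ω ⟨_, h⟩
  exact h

end Pool.Agent.PB.Low
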