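import Mathlib

/-!
# PROJECT PB, Section 11, LOW-Cheb (Mathlib only): Chebyshev for the number of occurring events

PLAN. `X ω = Σ_{q ∈ B} 1_{G q}(ω)` is bounded and measurable; `∫ X = m := Σ_q (μ (G q)).toReal`,
`∫ X^2 = Σ_{q,q'} (μ (G q ∩ G q')).toReal ≤ m^2 + v` (from `h`, all measures finite), so
`∫ (X - m)^2 ≤ v`. Markov: on the event `u < m - X`, so `u^2 ≤ (X - m)^2`:
`μ{...} ≤ ofReal (v / u^2)` (`meas_ge_le_lintegral_div` or `mul_meas_ge_le_integral_of_nonneg`).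
-/

set_option autoImplicit false
open MeasureTheory Filter Topology
open scoped ENNReal BigOperators

namespace Pool.Agent.PB.Low

theorem cheb {Ω : Type*} [MeasurableSpace Ω] (μ : Measure Ω) [IsProbabilityMeasure μ]
    {κ : Type*} (B : Finset κ) (G : κ → Set Ω) (hG : ∀ q, MeasurableSet (G q)) {v u : ℝ}
    (hv : 0 ≤ v) (hu : 0 < u)
    (h : ∑ q ∈ B, ∑ q' ∈ B, μ (G q ∩ G q') ≤ (∑ q ∈ B, μ (G q)) ^ 2 + ENNReal.ofReal v) :
    μ {ω | ∑ q ∈ B, (G q).indicator (fun _ => (1 : ℝ)) ω < (∑ q ∈ B, (μ (G q)).toReal) - u} ≤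
      ENNReal.ofReal (v / u ^ 2) := by
  set X : Ω → ℝ := fun ω => ∑ q ∈ B, (G q).indicator (fun _ => (1 : ℝ)) ω with hX
  set m : ℝ := ∑ q ∈ B, (μ (G q)).toReal with hm
  have hint1 : ∀ q, Integrable ((G q).indicator (fun _ => (1 : ℝ))) μ := fun q =>
    (integrable_const (1 : ℝ)).indicator (hG q)
  have hXint : Integrable X μ := integrable_finsetSum _ fun q _ => hint1 q
  have hEX : ∫ ω, X ω ∂μ = m := by
    rw [hX, integral_finsetSum _ fun q _ => hint1 q]
    refine Finset.sum_congr rfl fun q _ => ?_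
    rw [integral_indicator (hG q)]
    simp [Measure.real]
  have hsq : ∀ ω, X ω ^ 2 = ∑ q ∈ B, ∑ q' ∈ B, (G q ∩ G q').indicator (fun _ => (1 : ℝ)) ω := by
    intro ω
    rw [hX, sq, Finset.sum_mul_sum]
    refine Finset.sum_congr rfl fun q _ => Finset.sum_congr rfl fun q' _ => ?_
    by_cases h1 : ω ∈ G q <;> by_cases h2 : ω ∈ G q' <;> simp [h1, h2]
  have hint2 : ∀ q q', Integrable ((G q ∩ G q').indicator (fun _ => (1 : ℝ))) μ := fun q q' =>
    (integrable_const (1 : ℝ)).indicator ((hG q).inter (hG q'))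
  have hX2int : Integrable (fun ω => X ω ^ 2) μ := by
    simp only [hsq]
    exact integrable_finsetSum _ fun q _ => integrable_finsetSum _ fun q' _ => hint2 q q'
  have hEX2 : ∫ ω, X ω ^ 2 ∂μ = ∑ q ∈ B, ∑ q' ∈ B, (μ (G q ∩ G q')).toReal := by
    simp only [hsq]
    rw [integral_finsetSum _ fun q _ => integrable_finsetSum _ fun q' _ => hint2 q q']
    refine Finset.sum_congr rfl fun q _ => ?_
    rw [integral_finsetSum _ fun q' _ => hint2 q q']
    refine Finset.sum_congr rfl fun q' _ => ?_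
    rw [integral_indicator ((hG q).inter (hG q'))]
    simp [Measure.real]
  have hle : ∫ ω, X ω ^ 2 ∂μ ≤ m ^ 2 + v := by
    have h1 := ENNReal.toReal_mono (b := (∑ q ∈ B, μ (G q)) ^ 2 + ENNReal.ofReal v)
      (by
        refine ENNReal.add_ne_top.2 ⟨ENNReal.pow_ne_top ?_, ENNReal.ofReal_ne_top⟩
        exact ENNReal.sum_ne_top.2 fun q _ => measure_ne_top _ _) h
    rw [ENNReal.toReal_add (ENNReal.pow_ne_top
        (ENNReal.sum_ne_top.2 fun q _ => measure_ne_top _ _)) ENNReal.ofReal_ne_top,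
      ENNReal.toReal_pow, ENNReal.toReal_ofReal hv,
      ENNReal.toReal_sum (fun q _ => measure_ne_top _ _),
      ENNReal.toReal_sum (fun q _ => ENNReal.sum_ne_top.2 fun q' _ => measure_ne_top _ _)] at h1
    rw [hEX2]
    refine le_trans (le_of_eq ?_) h1
    refine Finset.sum_congr rfl fun q _ => ?_
    rw [ENNReal.toReal_sum (fun q _ => measure_ne_top _ _)]
  have hfint : Integrable (fun ω => (X ω - m) ^ 2) μ := by
    have e : (fun ω => (X ω - m) ^ 2) = fun ω => X ω ^ 2 - 2 * m * X ω + m ^ 2 := by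
      funext ω; ring
    rw [e]
    exact (hX2int.sub (hXint.const_mul _)).add (integrable_const _)
  have hEf : ∫ ω, (X ω - m) ^ 2 ∂μ ≤ v := by
    have e : (fun ω => (X ω - m) ^ 2) = fun ω => (X ω ^ 2 - 2 * m * X ω) + m ^ 2 := by
      funext ω; ring
    have i1 : Integrable (fun ω => 2 * m * X ω) μ := hXint.const_mul _
    have i2 : Integrable (fun ω => X ω ^ 2 - 2 * m * X ω) μ := hX2int.sub i1
    have e1 : ∫ ω, (X ω ^ 2 - 2 * m * X ω) + m ^ 2 ∂μ =
        ∫ ω, (X ω ^ 2 - 2 * m * X ω) ∂μ + ∫ _, m ^ 2 ∂μ := integral_add i2 (integrable_const _)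
    have e2 : ∫ ω, (X ω ^ 2 - 2 * m * X ω) ∂μ = ∫ ω, X ω ^ 2 ∂μ - ∫ ω, 2 * m * X ω ∂μ :=
      integral_sub hX2int i1
    rw [e, e1, e2, integral_const_mul, hEX]
    simp only [integral_const, probReal_univ, one_smul]
    nlinarith
  have hM := mul_meas_ge_le_integral_of_nonneg (μ := μ) (f := fun ω => (X ω - m) ^ 2)
    (Eventually.of_forall fun ω => sq_nonneg _) hfint (u ^ 2)
  have hsub : {ω | X ω < m - u} ⊆ {ω | u ^ 2 ≤ (X ω - m) ^ 2} := by
    intro ω hω
    have h1 : X ω < m - u := hω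
    show u ^ 2 ≤ (X ω - m) ^ 2
    nlinarith
  have hu2 : 0 < u ^ 2 := by positivity
  have h2 : μ.real {ω | u ^ 2 ≤ (X ω - m) ^ 2} ≤ v / u ^ 2 := by
    rw [le_div_iff₀ hu2, mul_comm]
    exact hM.trans hEf
  calc μ {ω | X ω < m - u} ≤ μ {ω | u ^ 2 ≤ (X ω - m) ^ 2} := measure_mono hsub
    _ = ENNReal.ofReal (μ.real {ω | u ^ 2 ≤ (X ω - m) ^ 2}) := by
        rw [Measure.real, ENNReal.ofReal_toReal (measure_ne_top _ _)]
    _ ≤ ENNReal.ofReal (v / u ^ 2) := ENNReal.ofReal_le_ofReal h2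

end Pool.Agent.PB.Low
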