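import Pool.Agent.PB.Low.EVb
import Pool.Agent.PB.Low.Cheb
import Pool.Agent.PB.Spr.Spr

/-!
# PROJECT PB, Section 11, LOW-Vlow: the number of good boundary edges is large with probability close to 1

PLAN. `B = bp D (ofSet A)`, `G q = XEv p n r (ofSet (A ∪ D)) q.2` (measurable: `measurableSet_XEv`), `N = D.card = Nc O y`
(`hO`, `Nc O y = (Cl O y).ncard`). `E = Σ_{q ∈ B} (fr p n r (A ∪ D) q.2).toReal`.
(1) MEAN: `EV_lower` with the constant `ofReal (c * ε)`, `G3`: `nlSum ≤ ofReal (π.eta N)`, `hA` for every `z ∈ A`; convert to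
 reals (all terms finite): `ε x YR ≤ E + ε (2 d δ1) N + c ε π.eta N + c ε |A| (C0 + η0 N)`. By `G1`: `π.a ≤ ε^2 N`, so
 `C0 ≤ C0 ε^2 N / π.a`. Hence `E ≥ ε (x YR - (κ - η) N)` by `hκ`. (If `x YR` is negative the bound is trivial, use
 `ENNReal.ofReal_le_...`; note `YR ≥ 0` is not needed: `ENNReal.le_ofReal`-free argument: `a ≤ (ENNReal.ofReal a).toReal`.)
(2) PAIRS: by `hc.pair`: `Σ_{q,q'} Pr (G q ∩ G q') ≤ Σ_{q,q'} (fr fr + ofReal (c ε) t4 (q'.2 - q.2))`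
 `= (Σ_q fr)^2 + ofReal (c ε) Σ_{q,q'} t4 (q'.2 - q.2)`, and (`q = (x, x + e)`, `mem_bp`, injection into `D × U1`)
 `Σ_{q,q' ∈ B} t4 (q'.2 - q.2) ≤ Σ_{x,x' ∈ D} Σ_{e,e' ∈ U1} t4 (x' + e' - x - e) = Σ_{x,x' ∈ D} t2 (x' - x) = pairSum t2 O y
 ≤ ofReal (Lam N)` (`G4`). So `v = c * ε * Lam * N`.
(3) `cheb` with `u = η ε N` (`N > 0` by `G1`, `π.a > 0`): `Pr{V < E - η ε N} ≤ ofReal (c ε Lam N / (η ε N)^2)
 = ofReal (c Lam / (η^2 ε N)) ≤ ofReal (c Lam ε / (η^2 π.a))` (`ε^2 N ≥ π.a`). `nB_eq_sum` (Spr/Spr.lean) identifies `V`.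
 The complement of the event has probability `≥ 1 - ...` (`prob_compl_eq_one_sub`), and on it `V ≥ E - η ε N ≥ ε (x YR - κ N)`.
-/

set_option autoImplicit false
open MeasureTheory Filter Topology
open scoped ENNReal BigOperators

namespace Pool.Agent.PB.Low

variable {d : ℕ}

private theorem sum_bp_le (D : Finset (V d)) (A : Del (V d)) (f : V d → ℝ≥0∞) :
    ∑ q ∈ bp D A, f q.2 ≤ ∑ x ∈ D, ∑ e ∈ U1 d, f (x + e) := by
  classical
  rw [← Finset.sum_product' (s := D) (t := U1 d) (f := fun x e => f (x + e))]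
  have h1 : ∑ q ∈ bp D A, f q.2 =
      ∑ q ∈ (bp D A).image (fun q => (q.1, q.2 - q.1)), f (q.1 + q.2) := by
    rw [Finset.sum_image]
    · refine Finset.sum_congr rfl fun q _ => ?_
      simp
    · rintro ⟨a, b⟩ _ ⟨a', b'⟩ _ h
      simp only [Prod.mk.injEq] at h ⊢
      obtain ⟨rfl, h⟩ := h
      exact ⟨rfl, sub_left_injective h⟩
  rw [h1]
  refine Finset.sum_le_sum_of_subset ?_
  intro q hq
  obtain ⟨q', hq', rfl⟩ := Finset.mem_image.1 hq
  rw [mem_bp] at hq'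
  exact Finset.mem_product.2 ⟨hq'.1, (mem_U1 _).2 hq'.2.2.2.2⟩

private theorem pair_le (D : Finset (V d)) (A : Del (V d)) {O : Set (Sym2 (V d))} {y : V d}
    (hO : Cl O y = (D : Set (V d))) :
    ∑ q ∈ bp D A, ∑ q' ∈ bp D A, t4 (q'.2 - q.2) ≤ pairSum t2 O y := by
  classical
  have h1 : ∑ q ∈ bp D A, ∑ q' ∈ bp D A, t4 (q'.2 - q.2) ≤
      ∑ x ∈ D, ∑ e ∈ U1 d, ∑ x' ∈ D, ∑ e' ∈ U1 d, t4 ((x' + e') - (x + e)) := by
    refine le_trans (Finset.sum_le_sum fun q _ =>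
      sum_bp_le D A (fun z => t4 (z - q.2))) ?_
    exact sum_bp_le D A (fun w => ∑ x' ∈ D, ∑ e' ∈ U1 d, t4 ((x' + e') - w))
  have h2 : ∑ x ∈ D, ∑ e ∈ U1 d, ∑ x' ∈ D, ∑ e' ∈ U1 d, t4 ((x' + e') - (x + e)) =
      ∑ x ∈ D, ∑ x' ∈ D, t2 (x' - x) := by
    refine Finset.sum_congr rfl fun x _ => ?_
    rw [Finset.sum_comm]
    refine Finset.sum_congr rfl fun x' _ => ?_
    unfold t2
    rw [Finset.sum_comm]
    refine Finset.sum_congr rfl fun e _ => Finset.sum_congr rfl fun e' _ => ?_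
    congr 1
    abel
  rw [h2] at h1
  refine h1.trans ?_
  unfold pairSum
  refine le_trans ?_ (ENNReal.sum_le_tsum D)
  refine Finset.sum_le_sum fun x hx => ?_
  refine le_trans ?_ (ENNReal.sum_le_tsum D)
  refine Finset.sum_le_sum fun z hz => ?_
  rw [Set.indicator_of_mem]
  exact ⟨by rw [hO]; exact hx, by rw [hO]; exact hz⟩

theorem V_lower (hC : Crit d) (h6 : Out6 d) {p n ε x δ1 c η η0 C0 κ Lam : ℝ} {r : ℕ} {π : Par}
    (hc : Cs p n r d (ENNReal.ofReal (c * ε))) (hε : 0 < ε) (hx : 0 ≤ x) (hδ : 0 ≤ δ1)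
    (hc0 : 0 ≤ c) (hη : 0 < η) (hη0 : 0 ≤ η0) (hC0 : 0 ≤ C0) (hLam : 0 ≤ Lam) (ha : 0 < π.a)
    (he : 0 ≤ π.eta)
    (hH : ∀ L : Finset (V d), (L : Set (V d)) ⊆ bx π.R 0 → (0 : V d) ∈ L → ∀ e ∈ U1 d, e ∉ L →
      (x * psiK L e - δ1) * ε ≤ (fr p n r (L : Set (V d)) e).toReal)
    (hA : ∀ (D : Finset (V d)) (z : V d), ∑ x ∈ D, t1 (z - x) ≤ ENNReal.ofReal (C0 + η0 * D.card))
    {A D : Finset (V d)} (hAD : Disjoint A D) {O : Set (Sym2 (V d))} {y : V d}
    (hO : Cl O y = (D : Set (V d))) (g1 : G1 π (ε ^ 2) O y) (g3 : G3 π O y) (g4 : G4 Lam O y)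
    (hκ : 2 * d * δ1 + c * π.eta + c * (A.card * (C0 * ε ^ 2 / π.a + η0)) + η ≤ κ) :
    ENNReal.ofReal (1 - c * Lam * ε / (η ^ 2 * π.a)) ≤
      Pr d {ω | ε * (x * YR π.R O y - κ * D.card) ≤
        (nB D (Del.ofSet (A : Set (V d)))
          (fun q => XEv p n r (Del.ofSet ((A : Set (V d)) ∪ D)) q.2) ω : ℝ)} := by
  classical
  have _ := hC
  have hN : Nc O y = D.card := by
    unfold Nc
    rw [hO, Set.ncard_coe_finset]
  have ha1 : π.a ≤ ε ^ 2 * (D.card : ℝ) := by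
    have := g1.1
    rwa [hN] at this
  have hN0 : 0 < (D.card : ℝ) := by
    have h1 : 0 < ε ^ 2 * (D.card : ℝ) := ha.trans_le ha1
    by_contra h2
    have h3 : (D.card : ℝ) = 0 := le_antisymm (not_lt.1 h2) (Nat.cast_nonneg _)
    rw [h3, mul_zero] at h1
    exact lt_irrefl _ h1
  set U : Set (V d) := (A : Set (V d)) ∪ D with hU
  set B := bp D (Del.ofSet (A : Set (V d))) with hB
  set G : V d × V d → Set (Om d) := fun q => XEv p n r (Del.ofSet U) q.2 with hG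
  have mG : ∀ q, MeasurableSet (G q) := fun q => measurableSet_XEv p n r _ q.2
  have hPr : ∀ q, Pr d (G q) = fr p n r U q.2 := fun q => rfl
  set N : ℝ := (D.card : ℝ) with hNdef
  -- the mean
  set E : ℝ := ∑ q ∈ B, (Pr d (G q)).toReal with hE
  have hE0 : 0 ≤ E := Finset.sum_nonneg fun q _ => ENNReal.toReal_nonneg
  have hEsum : ∑ q ∈ B, fr p n r U q.2 = ENNReal.ofReal E := by
    rw [hE, ENNReal.ofReal_sum_of_nonneg (fun q _ => ENNReal.toReal_nonneg)]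
    refine Finset.sum_congr rfl fun q _ => ?_
    rw [ENNReal.ofReal_toReal (measure_ne_top _ _), hPr]
  have hd0 : (0 : ℝ) ≤ d := Nat.cast_nonneg d
  have hcε : 0 ≤ c * ε := mul_nonneg hc0 hε.le
  have hAc : (0 : ℝ) ≤ (A.card : ℝ) := Nat.cast_nonneg _
  have mean : ε * (x * YR π.R O y) ≤ E + (ε * (2 * d * δ1) * N + c * ε * (π.eta * N) +
      c * ε * ((A.card : ℝ) * (C0 + η0 * N))) := by
    have h1 := EV_lower h6 hc hε.le hx hδ hH hAD hO
    have h2 : nlSum π.R t1 O y ≤ ENNReal.ofReal (π.eta * N) := by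
      have := g3
      unfold G3 at this
      rwa [hN] at this
    have h3 : ∑ z ∈ A, ∑ x ∈ D, t1 (z - x) ≤ ENNReal.ofReal ((A.card : ℝ) * (C0 + η0 * N)) := by
      refine (Finset.sum_le_sum fun z _ => hA D z).trans ?_
      rw [Finset.sum_const, nsmul_eq_mul, ENNReal.ofReal_mul hAc, ENNReal.ofReal_natCast]
    have h4 : ENNReal.ofReal (ε * (x * YR π.R O y)) ≤
        ENNReal.ofReal (E + (ε * (2 * d * δ1) * N + c * ε * (π.eta * N) +
          c * ε * ((A.card : ℝ) * (C0 + η0 * N)))) := by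
      refine h1.trans ?_
      rw [ENNReal.ofReal_add hE0 (by positivity), ENNReal.ofReal_add (by positivity) (by positivity),
        ENNReal.ofReal_add (by positivity) (by positivity), ENNReal.ofReal_mul hcε,
        ENNReal.ofReal_mul (q := (A.card : ℝ) * (C0 + η0 * N)) hcε, ← hEsum, ← add_assoc,
        ← add_assoc]
      exact add_le_add (add_le_add le_rfl (mul_le_mul_right h2 _)) (mul_le_mul_right h3 _)
    exact (ENNReal.ofReal_le_ofReal_iff (by positivity)).1 h4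
  have hR : ε * (2 * d * δ1) * N + c * ε * (π.eta * N) +
      c * ε * ((A.card : ℝ) * (C0 + η0 * N)) ≤ ε * ((κ - η) * N) := by
    have h1 : C0 ≤ C0 * ε ^ 2 / π.a * N := by
      rw [div_mul_eq_mul_div, le_div_iff₀ ha]
      nlinarith
    have h2 : ε * (2 * d * δ1) * N + c * ε * (π.eta * N) +
        c * ε * ((A.card : ℝ) * (C0 + η0 * N)) ≤
        ε * N * (2 * d * δ1 + c * π.eta + c * (A.card * (C0 * ε ^ 2 / π.a + η0))) := by
      have h3 : c * ε * ((A.card : ℝ) * (C0 + η0 * N)) ≤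
          c * ε * ((A.card : ℝ) * (C0 * ε ^ 2 / π.a * N + η0 * N)) := by
        refine mul_le_mul_of_nonneg_left (mul_le_mul_of_nonneg_left ?_ hAc) hcε
        linarith
      have h4 : ε * N * (2 * d * δ1 + c * π.eta + c * (A.card * (C0 * ε ^ 2 / π.a + η0))) =
          ε * (2 * d * δ1) * N + c * ε * (π.eta * N) +
            c * ε * ((A.card : ℝ) * (C0 * ε ^ 2 / π.a * N + η0 * N)) := by ring
      rw [h4]
      linarith
    refine h2.trans ?_
    have h5 : ε * ((κ - η) * N) = ε * N * (κ - η) := by ring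
    rw [h5]
    refine mul_le_mul_of_nonneg_left ?_ (by positivity)
    linarith
  -- the pairs
  have pairs : ∑ q ∈ B, ∑ q' ∈ B, Pr d (G q ∩ G q') ≤ (∑ q ∈ B, Pr d (G q)) ^ 2 +
      ENNReal.ofReal (c * ε * (Lam * N)) := by
    have h1 : ∑ q ∈ B, ∑ q' ∈ B, Pr d (G q ∩ G q') ≤
        ∑ q ∈ B, ∑ q' ∈ B, (Pr d (G q) * Pr d (G q') +
          ENNReal.ofReal (c * ε) * t4 (q'.2 - q.2)) :=
      Finset.sum_le_sum fun q _ => Finset.sum_le_sum fun q' _ => hc.pair U q.2 q'.2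
    refine h1.trans ?_
    simp only [Finset.sum_add_distrib, ← Finset.mul_sum, ← Finset.sum_mul]
    rw [sq, ENNReal.ofReal_mul hcε]
    refine add_le_add le_rfl (mul_le_mul_right ?_ _)
    refine (pair_le D (Del.ofSet (A : Set (V d))) hO).trans ?_
    have := g4
    unfold G4 at this
    rwa [hN] at this
  -- Chebyshev
  have hu : 0 < η * (ε * N) := by positivity
  have hv : 0 ≤ c * ε * (Lam * N) := by positivity
  have hch := cheb (Pr d) B G mG hv hu pairs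
  rw [← hE] at hch
  have hfrac : c * ε * (Lam * N) / (η * (ε * N)) ^ 2 ≤ c * Lam * ε / (η ^ 2 * π.a) := by
    rw [div_le_div_iff₀ (by positivity) (by positivity)]
    have h1 : c * Lam * ε * (η * (ε * N)) ^ 2 - c * ε * (Lam * N) * (η ^ 2 * π.a) =
        c * Lam * ε * η ^ 2 * N * (ε ^ 2 * N - π.a) := by ring
    have h2 : 0 ≤ c * Lam * ε * η ^ 2 * N * (ε ^ 2 * N - π.a) := by
      have h3 : 0 ≤ ε ^ 2 * N - π.a := by linarith
      positivity
    linarith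
  have mS : MeasurableSet {ω : Om d | ∑ q ∈ B, (G q).indicator (fun _ => (1 : ℝ)) ω <
      E - η * (ε * N)} := by
    refine measurableSet_lt ?_ measurable_const
    exact Finset.measurable_sum _ fun i _ => measurable_const.indicator (mG i)
  have h1 : ENNReal.ofReal (1 - c * Lam * ε / (η ^ 2 * π.a)) ≤
      Pr d {ω : Om d | ∑ q ∈ B, (G q).indicator (fun _ => (1 : ℝ)) ω < E - η * (ε * N)}ᶜ := by
    rw [prob_compl_eq_one_sub mS]
    refine le_trans ?_ (tsub_le_tsub_left (hch.trans (ENNReal.ofReal_le_ofReal hfrac)) 1)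
    rw [ENNReal.ofReal_sub _ (by positivity), ENNReal.ofReal_one]
  refine h1.trans (measure_mono ?_)
  intro ω hω
  have h2 : E - η * (ε * N) ≤ ∑ q ∈ B, (G q).indicator (fun _ => (1 : ℝ)) ω := not_lt.1 hω
  show ε * (x * YR π.R O y - κ * N) ≤ (nB D (Del.ofSet (A : Set (V d))) G ω : ℝ)
  rw [nB_eq_sum]
  refine le_trans ?_ h2
  have h3 : ε * (x * YR π.R O y - κ * N) = ε * (x * YR π.R O y) - ε * ((κ - η) * N) -
      η * (ε * N) := by ring
  rw [h3]
  linarith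

end Pool.Agent.PB.Low
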