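import Pool.Agent.PB.Low.Defs

/-!
# PROJECT PB, Section 11, LOW-WLim: the limit of `E[W^A] / √s`

PLAN. `wx d x κ = fun s N Y => 1 - exp (-(as s * max 0 (x * Y + (-κ) * N)))` with `as s = max 0 s / (1 - pc d)`.
`Out8.expW` with `a = 1 / (1 - pc d)`, `t = x`, `η = -κ`, `c0 = 2 * d`: `∃ c, IsW (wx d x κ) (2 d) c`
(`as s ≤ a * s` for `0 < s`: `max 0 s = s`). `Out6.isLSF R gL (wx d x κ) (2 d) c` with `Out8.gL_bd`
(`|gL L| ≤ 2 d`): `∃ c', IsLSF (Wf R gL (wx d x κ)) c'`. `Out6.mixing` for `ofSet A`, `y ∉ A`: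
`(EW W s A y - ψ EW W s D0 0) / √s → 0`. `Out8.explim` (with `Tendsto (fun s => as s / s) (𝓝[>] 0) (𝓝 (1/(1-pc)))`: eventually equal
to the constant): `EW W s D0 0 / √s → √(1/(1-pc) * max 0 (x * gbar d R + (-κ)) / b)`. Combine: `EW W s A y / √s =
(EW W s A y - ψ EW W s D0 0) / √s + ψ * (EW W s D0 0 / √s)`. `psiK A y = psi (ofSet A) y` by definition.
-/

set_option autoImplicit false
open MeasureTheory Filter Topology
open scoped ENNReal BigOperators

namespace Pool.Agent.PB.Low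

variable {d : ℕ}

theorem WLim (hC : Crit d) (h6 : Out6 d) {b : ℝ} (h8 : Out8 d b) {x κ : ℝ} (hx : 0 ≤ x) (R : ℕ)
    (A : Finset (V d)) {y : V d} (hy : y ∉ A) :
    Tendsto (fun s : ℝ => EW (Wf R gL (wx d x κ)) s (Del.ofSet (A : Set (V d))) y / Real.sqrt s)
      (𝓝[>] 0) (𝓝 (psiK A y *
        Real.sqrt (1 / (1 - pc d) * max 0 (x * gbar d R + (-κ)) / b))) := by
  have hpc : 0 < 1 - pc d := by linarith [hC.pc_lt]
  have ha : 0 < 1 / (1 - pc d) := by positivity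
  have has0 : ∀ s : ℝ, 0 ≤ max 0 s / (1 - pc d) := fun s =>
    div_nonneg (le_max_left _ _) hpc.le
  have hasle : ∀ s : ℝ, 0 < s → s ≤ 1 → max 0 s / (1 - pc d) ≤ 1 / (1 - pc d) * s := by
    intro s hs _
    rw [max_eq_right hs.le]
    exact le_of_eq (by ring)
  obtain ⟨c, hc⟩ := h8.expW (1 / (1 - pc d)) x (-κ) (2 * d) (fun s => max 0 s / (1 - pc d)) ha.le
    hx (by positivity) has0 hasle
  have hc1 : IsW (wx d x κ) (2 * d) c := hc
  obtain ⟨c', hc'⟩ := h6.isLSF R gL (wx d x κ) (2 * d) c hc1 (by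
    intro L hL h0
    obtain ⟨h1, h2⟩ := h8.gL_bd L hL h0
    rw [abs_of_nonneg h1]
    exact h2)
  have hm := h6.mixing (Wf R gL (wx d x κ)) c' hc' (Del.ofSet (A : Set (V d))) y
    (Del.ofSet_finite (Finset.finite_toSet A)) (by
      change y ∉ (A : Set (V d))
      exact_mod_cast hy)
  have ht : Tendsto (fun s : ℝ => max 0 s / (1 - pc d) / s) (𝓝[>] 0) (𝓝 (1 / (1 - pc d))) := by
    refine Tendsto.congr' ?_ tendsto_const_nhds
    filter_upwards [self_mem_nhdsWithin] with s hs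
    have hs' : (0 : ℝ) < s := hs
    rw [max_eq_right hs'.le]
    field_simp
  have he := h8.explim R (1 / (1 - pc d)) x (-κ) (fun s => max 0 s / (1 - pc d)) ha hx ht has0
  have he' : Tendsto (fun s : ℝ => EW (Wf R gL (wx d x κ)) s (D0 : Del (V d)) 0 / Real.sqrt s)
      (𝓝[>] 0) (𝓝 (Real.sqrt (1 / (1 - pc d) * max 0 (x * gbar d R + (-κ)) / b))) := he
  have hsum := hm.add (he'.const_mul (psi (Del.ofSet (A : Set (V d))) y))
  rw [zero_add] at hsum
  refine Tendsto.congr (fun s => ?_) hsum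
  ring

end Pool.Agent.PB.Low
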