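import Pool.Agent.PB.Low.Cst
import Pool.Agent.PB.Low.Base
import Pool.Agent.PB.Low.Vlow
import Pool.Agent.PB.Low.Step
import Pool.Agent.PB.Low.LossA
import Pool.Agent.PB.Low.LossB
import Pool.Agent.PB.Low.WLim

/-!
# PROJECT PB, Section 11, LOW-Main: 11.4 (b), (c) and `Out11`
-/

set_option autoImplicit false
open MeasureTheory Filter Topology
open scoped ENNReal BigOperators

namespace Pool.Agent.PB.Low

variable {d : ℕ}

theorem bx_finite (R : ℕ) (x : V d) : (bx R x).Finite := by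
  have h : bx R x ⊆ Set.pi Set.univ (fun i => Set.Icc (x i - R) (x i + R)) := by
    intro y hy i _
    have := abs_le.1 (hy i)
    exact ⟨by linarith [this.1], by linarith [this.2]⟩
  exact (Set.Finite.pi' fun i => Set.finite_Icc _ _).subset fun y hy i => h hy i (Set.mem_univ i)

/-- the integral is at most the lower integral -/
theorem ofReal_integral_le {Ω : Type*} [MeasurableSpace Ω] (μ : Measure Ω) {f : Ω → ℝ}
    (hf : ∀ ω, 0 ≤ f ω) : ENNReal.ofReal (∫ ω, f ω ∂μ) ≤ ∫⁻ ω, ENNReal.ofReal (f ω) ∂μ := by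
  by_cases h : Integrable f μ
  · exact le_of_eq (ofReal_integral_eq_lintegral_ofReal h (Eventually.of_forall hf))
  · rw [integral_undef h]; simp

/-- the losses for a fixed `ε` -/
theorem good_lower {W : Om d → ℝ} (h1 : ∀ ω, W ω ≤ 1) {π : Par} {s Lam : ℝ} {r0 : ℕ}
    {O : Om d → Set (Sym2 (V d))} {y : V d} :
    ∫⁻ ω, ENNReal.ofReal (W ω) ∂Pr d ≤
      ∫⁻ ω in {ω | Good π s Lam r0 (O ω) y}, ENNReal.ofReal (W ω) ∂Pr d +
      (∫⁻ ω in {ω | ¬ G1 π s (O ω) y}, ENNReal.ofReal (W ω) ∂Pr d +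
      (Pr d {ω | ¬ G2 r0 (O ω) y} + (Pr d {ω | G1 π s (O ω) y ∧ ¬ G3 π (O ω) y} +
        Pr d {ω | G1 π s (O ω) y ∧ ¬ G4 Lam (O ω) y}))) := by
  have hle : ∀ S : Set (Om d), ∫⁻ ω in S, ENNReal.ofReal (W ω) ∂Pr d ≤ Pr d S := by
    intro S
    calc ∫⁻ ω in S, ENNReal.ofReal (W ω) ∂Pr d ≤ ∫⁻ _ω in S, 1 ∂Pr d :=
          lintegral_mono fun ω => by
            rw [← ENNReal.ofReal_one]; exact ENNReal.ofReal_le_ofReal (h1 ω)
      _ = Pr d S := setLIntegral_one S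
  have hun : (Set.univ : Set (Om d)) = {ω | Good π s Lam r0 (O ω) y} ∪ ({ω | ¬ G1 π s (O ω) y} ∪
      ({ω | ¬ G2 r0 (O ω) y} ∪ ({ω | G1 π s (O ω) y ∧ ¬ G3 π (O ω) y} ∪
        {ω | G1 π s (O ω) y ∧ ¬ G4 Lam (O ω) y}))) := by
    refine (Set.eq_univ_of_forall fun ω => ?_).symm
    by_cases g1 : G1 π s (O ω) y
    · by_cases g2 : G2 r0 (O ω) y
      · by_cases g3 : G3 π (O ω) y
        · by_cases g4 : G4 Lam (O ω) y
          · exact Or.inl ⟨g1, g2, g3, g4⟩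
          · exact Or.inr (Or.inr (Or.inr (Or.inr ⟨g1, g4⟩)))
        · exact Or.inr (Or.inr (Or.inr (Or.inl ⟨g1, g3⟩)))
      · exact Or.inr (Or.inr (Or.inl g2))
    · exact Or.inr (Or.inl g1)
  calc ∫⁻ ω, ENNReal.ofReal (W ω) ∂Pr d = ∫⁻ ω in Set.univ, ENNReal.ofReal (W ω) ∂Pr d := by
        rw [Measure.restrict_univ]
    _ ≤ _ := by
        rw [hun]
        refine (lintegral_union_le _ _ _).trans (add_le_add le_rfl ?_)
        refine (lintegral_union_le _ _ _).trans (add_le_add le_rfl ?_)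
        refine (lintegral_union_le _ _ _).trans (add_le_add (hle _) ?_)
        exact (lintegral_union_le _ _ _).trans (add_le_add (hle _) (hle _))

/-- elementary: `√(λx) - √v ≤ √(max 0 (u - v))` if `λx ≤ u` -/
theorem sqrt_sub_le {l u v : ℝ} (hl : l ≤ u) (hv : 0 ≤ v) :
    Real.sqrt l - Real.sqrt v ≤ Real.sqrt (max 0 (u - v)) := by
  have h1 : Real.sqrt l ≤ Real.sqrt (max 0 (u - v) + v) := by
    apply Real.sqrt_le_sqrt
    have := le_max_right 0 (u - v)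
    linarith
  have h2 : Real.sqrt (max 0 (u - v) + v) ≤ Real.sqrt (max 0 (u - v)) + Real.sqrt v := by
    rw [Real.sqrt_le_left (by positivity)]
    have h3 := Real.sq_sqrt (le_max_left 0 (u - v))
    have h4 := Real.sq_sqrt hv
    nlinarith [Real.sqrt_nonneg (max 0 (u - v)), Real.sqrt_nonneg v,
      mul_nonneg (Real.sqrt_nonneg (max 0 (u - v))) (Real.sqrt_nonneg v)]
  linarith

theorem tendsto_sq : Tendsto (fun ε : ℝ => ε ^ 2) (𝓝[>] 0) (𝓝[>] 0) := by
  refine tendsto_nhdsWithin_iff.2 ⟨?_, ?_⟩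
  · have h : Tendsto (fun ε : ℝ => ε ^ 2) (𝓝 0) (𝓝 (0 ^ 2)) := (continuous_pow 2).tendsto 0
    rw [zero_pow two_ne_zero] at h
    exact h.mono_left nhdsWithin_le_nhds
  · filter_upwards [self_mem_nhdsWithin] with ε hε
    exact pow_pos (show (0 : ℝ) < ε from hε) 2

/-- 11.4 (b) -/
theorem stepH (hC : Crit d) (h5 : Out5 d) (h6 : Out6 d) {b : ℝ} (hb : 0 < b) (h8 : Out8 d b)
    (h9 : Out9 d b) (h10 : Out10 d) {k x : ℝ} (hk : 0 < k) (hx : 0 ≤ x) (h : HP d k x) :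
    HP d k (Real.sqrt (lam d b * x)) := by
  intro δ hδ
  have hpc : 0 < 1 - pc d := by linarith [hC.pc_lt]
  have hd : 0 < (d : ℝ) := by
    have := hC.hd
    exact_mod_cast (by omega : 0 < d)
  obtain ⟨C1, hC1, hl1⟩ := loss1 hC h5 h8
  obtain ⟨C2, hC2, hl2⟩ := loss2 (d := d) h10
  have hC1' : 0 < C1 := by linarith
  have hC2' : 0 < C2 := by linarith
  -- constants
  obtain ⟨a, ha, ha'⟩ : ∃ a : ℝ, 0 < a ∧ C1 * (x * Real.sqrt a) ≤ δ / 8 := by
    refine ⟨(δ / (8 * C1 * (x + 1))) ^ 2, by positivity, ?_⟩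
    rw [Real.sqrt_sq (by positivity)]
    have h1 : C1 * (x * (δ / (8 * C1 * (x + 1)))) = x / (x + 1) * (δ / 8) := by
      field_simp
    rw [h1]
    have h2 : x / (x + 1) ≤ 1 := by rw [div_le_one (by linarith)]; linarith
    nlinarith [hδ]
  obtain ⟨b', hab, hb'⟩ : ∃ b' : ℝ, a < b' ∧ C1 * (1 / Real.sqrt b') ≤ δ / 8 := by
    refine ⟨a + 1 + (8 * C1 / δ) ^ 2, by nlinarith [sq_nonneg (8 * C1 / δ)], ?_⟩
    have h1 : 8 * C1 / δ ≤ Real.sqrt (a + 1 + (8 * C1 / δ) ^ 2) :=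
      Real.le_sqrt_of_sq_le (by linarith)
    have h2 : 0 < 8 * C1 / δ := by positivity
    rw [mul_one_div, div_le_div_iff₀ (lt_of_lt_of_le h2 h1) (by norm_num)]
    rw [div_le_iff₀ hδ] at h1
    nlinarith [h1]
  have hb'0 : 0 < b' := ha.trans hab
  set B : ℝ := 1 / ((1 - pc d) * b) with hB
  have hB0 : 0 < B := by positivity
  set κ : ℝ := (δ / 8) ^ 2 / B with hκdef
  have hκ0 : 0 < κ := by positivity
  have hκB : Real.sqrt (κ * B) = δ / 8 := by
    rw [hκdef, div_mul_cancel₀ _ hB0.ne', Real.sqrt_sq (by positivity)]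
  set K0 : ℝ := 8 * C2 / δ with hK0def
  have hK0 : 0 < K0 := by positivity
  obtain ⟨K, hK, hH⟩ := h (κ / (8 * d)) (by positivity)
  obtain ⟨c, hc1, hcs⟩ := consts hC h9 h10 hk hK
  have hc0 : 0 < c := by linarith
  refine ⟨K + K0 + 1, by positivity, fun A y hy => ?_⟩
  obtain ⟨C3, hC3, hl3⟩ := loss3 h5 h8 ha hab A hy
  obtain ⟨C4, hC4, hl4⟩ := loss4 hC h5 h8 ha hab A hy
  set eta : ℝ := κ / (8 * c) with hetadef
  have heta : 0 < eta := by positivity
  obtain ⟨R, hR⟩ : ∃ R : ℕ, TR R (t1 : V d → ℝ≥0∞) ≤ ENNReal.ofReal (δ * eta / (8 * C3)) := by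
    have h1 := (TR_t1 hC)
    have h2 : (0 : ℝ≥0∞) < ENNReal.ofReal (δ * eta / (8 * C3)) := by
      rw [ENNReal.ofReal_pos]; positivity
    obtain ⟨R, hR⟩ := (h1.eventually (gt_mem_nhds h2)).exists
    exact ⟨R, hR.le⟩
  set η0 : ℝ := κ / (16 * c * (A.card + 1)) with hη0def
  have hη0 : 0 < η0 := by positivity
  obtain ⟨C0, hC0, hC0'⟩ := t1_sum hC hη0
  set π : Par := ⟨R, a, b', eta⟩ with hπ
  -- the limit
  have hψ0 : 0 ≤ psiK A y := h6.psi_nonneg _ _ (Del.ofSet_finite A.finite_toSet) (fun h => hy (Finset.mem_coe.1 h))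
  have hψ1 : psiK A y ≤ 1 := h6.psi_le _ _ (Del.ofSet_finite A.finite_toSet) (fun h => hy (Finset.mem_coe.1 h))
  set E : ℝ := psiK A y * Real.sqrt (1 / (1 - pc d) * max 0 (x * gbar d R + (-κ)) / b) with hE
  have hlim := (WLim hC h6 h8 (κ := κ) hx R A hy).comp tendsto_sq
  have hgb : ginf d ≤ gbar d R := h8.gbar_anti.le_of_tendsto h8.gbar_lim R
  have hE' : psiK A y * Real.sqrt (lam d b * x) - δ / 8 ≤ E := by
    have h1 : Real.sqrt (lam d b * x) - Real.sqrt (κ * B) ≤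
        Real.sqrt (max 0 (x * gbar d R * B - κ * B)) := by
      refine sqrt_sub_le ?_ (by positivity)
      have h2 : lam d b * x = x * ginf d * B := by
        rw [lam, hB]; ring
      rw [h2]
      exact mul_le_mul_of_nonneg_right (mul_le_mul_of_nonneg_left hgb hx) hB0.le
    have h2 : 1 / (1 - pc d) * max 0 (x * gbar d R + (-κ)) / b =
        max 0 (x * gbar d R * B - κ * B) := by
      have h3 : x * gbar d R * B - κ * B = B * (x * gbar d R + (-κ)) := by ring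
      have h4 : max 0 (B * (x * gbar d R + (-κ))) = B * max 0 (x * gbar d R + (-κ)) := by
        rw [mul_max_of_nonneg _ _ hB0.le, mul_zero]
      rw [h3, h4, hB]
      field_simp
    rw [hE, h2]
    rw [hκB] at h1
    have h5 : psiK A y * (Real.sqrt (lam d b * x) - δ / 8) ≤
        psiK A y * Real.sqrt (max 0 (x * gbar d R * B - κ * B)) :=
      mul_le_mul_of_nonneg_left h1 hψ0
    nlinarith [hψ1, hδ]
  have hE0 : 0 ≤ E := mul_nonneg hψ0 (Real.sqrt_nonneg _)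
  -- eventual facts
  have e1 : ∀ᶠ ε in 𝓝[>] (0 : ℝ), E - δ / 16 < EW (Wf R gL (wx d x κ)) (ε ^ 2)
      (Del.ofSet (A : Set (V d))) y / Real.sqrt (ε ^ 2) :=
    hlim.eventually (lt_mem_nhds (by linarith))
  have e2 : ∀ᶠ ε in 𝓝[>] (0 : ℝ), EW (Wf R gL (wx d x κ)) (ε ^ 2)
      (Del.ofSet (A : Set (V d))) y / Real.sqrt (ε ^ 2) < E + 1 :=
    hlim.eventually (gt_mem_nhds (by linarith))
  have e3 : ∀ᶠ ε in 𝓝[>] (0 : ℝ), ε < 1 := by
    filter_upwards [Ioo_mem_nhdsGT (zero_lt_one' ℝ)] with ε hε using hε.2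
  have e4 : ∀ᶠ ε in 𝓝[>] (0 : ℝ), ε < 1 - pc d := by
    filter_upwards [Ioo_mem_nhdsGT hpc] with ε hε using hε.2
  have hsq : Tendsto (fun ε : ℝ => Real.sqrt ε) (𝓝[>] 0) (𝓝 0) := by
    have h1 : Tendsto (fun ε : ℝ => Real.sqrt ε) (𝓝 0) (𝓝 (Real.sqrt 0)) :=
      Real.continuous_sqrt.tendsto 0
    rw [Real.sqrt_zero] at h1
    exact h1.mono_left nhdsWithin_le_nhds
  have hsq2 : Tendsto (fun ε : ℝ => ε ^ 2) (𝓝[>] 0) (𝓝 0) :=
    tendsto_sq.mono_right nhdsWithin_le_nhds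
  have e5 : ∀ᶠ ε in 𝓝[>] (0 : ℝ), c / ((κ / 4) ^ 2 * a) * Real.sqrt ε * (E + 1) < δ / 16 := by
    have h1 : Tendsto (fun ε : ℝ => c / ((κ / 4) ^ 2 * a) * Real.sqrt ε * (E + 1)) (𝓝[>] 0)
        (𝓝 (c / ((κ / 4) ^ 2 * a) * 0 * (E + 1))) := (hsq.const_mul _).mul_const _
    rw [mul_zero, zero_mul] at h1
    exact h1.eventually (gt_mem_nhds (by positivity))
  have e5' : ∀ᶠ ε in 𝓝[>] (0 : ℝ), c / ((κ / 4) ^ 2 * a) * Real.sqrt ε < 1 := by
    have h1 : Tendsto (fun ε : ℝ => c / ((κ / 4) ^ 2 * a) * Real.sqrt ε) (𝓝[>] 0)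
        (𝓝 (c / ((κ / 4) ^ 2 * a) * 0)) := hsq.const_mul _
    rw [mul_zero] at h1
    exact h1.eventually (gt_mem_nhds one_pos)
  have e6 : ∀ᶠ ε in 𝓝[>] (0 : ℝ), C4 * Real.sqrt ε < δ / 16 := by
    have h1 : Tendsto (fun ε : ℝ => C4 * Real.sqrt ε) (𝓝[>] 0) (𝓝 (C4 * 0)) := hsq.const_mul _
    rw [mul_zero] at h1
    exact h1.eventually (gt_mem_nhds (by positivity))
  have e7 : ∀ᶠ ε in 𝓝[>] (0 : ℝ), c * (A.card * (C0 / a)) * ε ^ 2 < κ / 16 := by
    have h1 : Tendsto (fun ε : ℝ => c * (A.card * (C0 / a)) * ε ^ 2) (𝓝[>] 0)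
        (𝓝 (c * (A.card * (C0 / a)) * 0)) := hsq2.const_mul _
    rw [mul_zero] at h1
    exact h1.eventually (gt_mem_nhds (by positivity))
  have e8 := tendsto_sq.eventually (hl1 a b' x κ ha hb'0 hx hκ0.le)
  have e9 : ∀ᶠ ε in 𝓝[>] (0 : ℝ), ∀ L ∈ (bx_finite R (0 : V d)).toFinset.powerset,
      ∀ e ∈ U1 d, e ∉ L → (x * psiK L e - κ / (8 * d)) * ε ≤
        (fr (pc d + ε) (k / ε ^ 2) ⌊K / ε⌋₊ (L : Set (V d)) e).toReal := by
    rw [Finset.eventually_all]
    intro L _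
    rw [Finset.eventually_all]
    intro e _
    by_cases he : e ∈ L
    · exact Eventually.of_forall fun ε hn => absurd he hn
    · filter_upwards [hH L e he] with ε hε _ using hε
  filter_upwards [e1, e2, e3, e4, e5, e5', e6, e7, e8, e9, hcs, self_mem_nhdsWithin] with
    ε e1 e2 e3 e4 e5 e5' e6 e7 e8 e9 hcs hε0
  have hε : 0 < ε := hε0
  have hsε : Real.sqrt (ε ^ 2) = ε := Real.sqrt_sq hε.le
  rw [hsε] at e1 e2 e8
  set r : ℕ := ⌊K / ε⌋₊ with hr
  set r0 : ℕ := ⌊K0 / ε⌋₊ with hr0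
  set Lam : ℝ := 1 / Real.sqrt ε with hLam
  have hsqε : 0 < Real.sqrt ε := Real.sqrt_pos.2 hε
  have hLam0 : 0 < Lam := by positivity
  set ρ : ℝ := c / ((κ / 4) ^ 2 * a) * Real.sqrt ε with hρ
  have hρ0 : 0 ≤ ρ := by positivity
  have hρeq : c * Lam * ε / ((κ / 4) ^ 2 * a) = ρ := by
    have h1 : Lam * ε = Real.sqrt ε := by
      rw [hLam, one_div, inv_mul_eq_div, Real.div_sqrt]
    rw [hρ, mul_assoc, h1]; ring
  -- the hypothesis of the step
  have hV : VHyp (pc d + ε) (k / ε ^ 2) ε x κ (1 - ρ) Lam r r0 π (A : Set (V d)) y := by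
    intro D O hAD hO hgood
    have hκsum : 2 * d * (κ / (8 * d)) + c * π.eta +
        c * (A.card * (C0 * ε ^ 2 / π.a + η0)) + κ / 4 ≤ κ := by
      have h1 : 2 * d * (κ / (8 * d)) = κ / 4 := by field_simp; ring
      have h2 : c * π.eta = κ / 8 := by
        rw [hπ]; simp only; rw [hetadef]; field_simp
      have h3 : c * (A.card * (C0 * ε ^ 2 / π.a + η0)) =
          c * (A.card * (C0 / a)) * ε ^ 2 + c * A.card * η0 := by
        rw [hπ]; simp only; ring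
      have h4 : c * A.card * η0 ≤ κ / 16 := by
        rw [hη0def]
        have h5 : c * A.card * (κ / (16 * c * (A.card + 1))) =
            (A.card / (A.card + 1)) * (κ / 16) := by field_simp
        rw [h5]
        have h6 : (A.card : ℝ) / (A.card + 1) ≤ 1 := by
          rw [div_le_one (by positivity)]; linarith
        nlinarith
      rw [h1, h2, h3]
      linarith
    have h1 := V_lower hC h6 (π := π) (x := x) (δ1 := κ / (8 * d)) (c := c) (η := κ / 4)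
      (η0 := η0) (C0 := C0) (κ := κ) (Lam := Lam) hcs hε hx (by positivity) hc0.le
      (by positivity) hη0.le hC0 hLam0.le (by exact ha) (by exact heta.le)
      (fun L hL h0 e he heL => e9 L (by
        rw [Finset.mem_powerset]
        intro v hv
        rw [Set.Finite.mem_toFinset]
        exact hL hv) e he heL)
      hC0' (A := A) (D := D) (by exact_mod_cast hAD) hO hgood.1 hgood.2.2.1 hgood.2.2.2 hκsum
    have h2 : c * Lam * ε / ((κ / 4) ^ 2 * π.a) = ρ := hρeq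
    rw [h2] at h1
    exact h1
  have hstep := step_all hC (n := k / ε ^ 2) hε (by linarith) (π := π) (by exact ha)
    (A := (A : Set (V d))) (y := y) (by simpa using hy) hV
  -- the real numbers
  set W : Om d → ℝ := fun ω => WA (Wf R gL (wx d x κ)) (ε ^ 2) (Del.ofSet (A : Set (V d))) (Oc ω) y
    with hW
  have hW0 : ∀ ω, 0 ≤ W ω := by
    intro ω
    rw [hW]
    simp only [WA]
    split_ifs
    · exact le_refl _
    · exact W_nonneg hC R _ _
  have hW1 : ∀ ω, W ω ≤ 1 := by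
    intro ω
    rw [hW]
    simp only [WA]
    split_ifs
    · exact zero_le_one
    · exact W_le_one hC R _ _
  set G : ℝ≥0∞ := ∫⁻ ω in {ω | Good π (ε ^ 2) Lam r0 ((Del.ofSet (A : Set (V d))).rem (Oc ω)) y},
    ENNReal.ofReal (W ω) ∂Pr d with hG
  have hGtop : G ≠ ⊤ := by
    refine ne_top_of_le_ne_top ENNReal.one_ne_top ?_
    calc G ≤ ∫⁻ _ω in {ω | Good π (ε ^ 2) Lam r0 ((Del.ofSet (A : Set (V d))).rem (Oc ω)) y},
          1 ∂Pr d := lintegral_mono fun ω => by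
            rw [← ENNReal.ofReal_one]; exact ENNReal.ofReal_le_ofReal (hW1 ω)
      _ = Pr d _ := setLIntegral_one _
      _ ≤ 1 := prob_le_one
  have hEW : EW (Wf R gL (wx d x κ)) (ε ^ 2) (Del.ofSet (A : Set (V d))) y ≤
      G.toReal + (δ / 4 * ε + (δ / 8 * ε + (δ / 8 * ε + δ / 16 * ε))) := by
    have h1 := (ofReal_integral_le (Pr d) hW0).trans
      (good_lower (W := W) hW1 (π := π) (s := ε ^ 2) (Lam := Lam) (r0 := r0)
        (O := fun ω => (Del.ofSet (A : Set (V d))).rem (Oc ω)) (y := y))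
    have l1 : ∫⁻ ω in {ω | ¬ G1 π (ε ^ 2) ((Del.ofSet (A : Set (V d))).rem (Oc ω)) y},
        ENNReal.ofReal (W ω) ∂Pr d ≤ ENNReal.ofReal (δ / 4 * ε) := by
      refine (e8 R (A : Set (V d)) y).trans (ENNReal.ofReal_le_ofReal ?_)
      refine mul_le_mul_of_nonneg_right ?_ hε.le
      rw [mul_add]
      linarith
    have l2 : Pr d {ω | ¬ G2 r0 ((Del.ofSet (A : Set (V d))).rem (Oc ω)) y} ≤
        ENNReal.ofReal (δ / 8 * ε) := by
      refine (hl2 _ _ r0).trans (ENNReal.ofReal_le_ofReal ?_)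
      have h2 : K0 / ε < (r0 : ℝ) + 1 := Nat.lt_floor_add_one _
      have h3 : 0 < K0 / ε := by positivity
      rw [div_le_iff₀ (by linarith)]
      have h4 : C2 = δ / 8 * ε * (K0 / ε) := by
        rw [hK0def]; field_simp
      calc C2 = δ / 8 * ε * (K0 / ε) := h4
        _ ≤ δ / 8 * ε * ((r0 : ℝ) + 1) := mul_le_mul_of_nonneg_left h2.le (by positivity)
    have l3 : Pr d {ω | G1 π (ε ^ 2) ((Del.ofSet (A : Set (V d))).rem (Oc ω)) y ∧
        ¬ G3 π ((Del.ofSet (A : Set (V d))).rem (Oc ω)) y} ≤ ENNReal.ofReal (δ / 8 * ε) := by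
      refine (hl3 R eta (ε ^ 2) heta (pow_pos hε 2) (by nlinarith)).trans ?_
      rw [hsε]
      calc ENNReal.ofReal (C3 / eta * ε) * TR R t1 ≤
          ENNReal.ofReal (C3 / eta * ε) * ENNReal.ofReal (δ * eta / (8 * C3)) :=
            mul_le_mul' le_rfl hR
        _ = ENNReal.ofReal (δ / 8 * ε) := by
            rw [← ENNReal.ofReal_mul (by positivity)]
            congr 1
            field_simp
    have l4 : Pr d {ω | G1 π (ε ^ 2) ((Del.ofSet (A : Set (V d))).rem (Oc ω)) y ∧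
        ¬ G4 Lam ((Del.ofSet (A : Set (V d))).rem (Oc ω)) y} ≤ ENNReal.ofReal (δ / 16 * ε) := by
      refine (hl4 R eta (ε ^ 2) Lam hLam0 (pow_pos hε 2) (by nlinarith)).trans ?_
      rw [hsε]
      refine ENNReal.ofReal_le_ofReal (mul_le_mul_of_nonneg_right ?_ hε.le)
      rw [hLam, div_div_eq_mul_div, div_one]
      exact e6.le
    have h2 := h1.trans (add_le_add le_rfl (add_le_add l1 (add_le_add l2 (add_le_add l3 l4))))
    rw [← ENNReal.ofReal_add (by positivity) (by positivity),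
      ← ENNReal.ofReal_add (by positivity) (by positivity),
      ← ENNReal.ofReal_add (by positivity) (by positivity),
      ← hG, ← ENNReal.ofReal_toReal hGtop, ← ENNReal.ofReal_add ENNReal.toReal_nonneg (by positivity),
      ENNReal.ofReal_le_ofReal_iff (by positivity)] at h2
    exact h2
  have hfr : (1 - ρ) * G.toReal ≤
      (fr (pc d + ε) (k / ε ^ 2) (r + r0 + 1) (A : Set (V d)) y).toReal := by
    have h1 := ENNReal.toReal_mono (ne_top_of_le_ne_top ENNReal.one_ne_top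
      (fr_le_one _ _ _ _ _)) hstep
    rw [ENNReal.toReal_mul, ENNReal.toReal_ofReal (by linarith)] at h1
    exact h1
  have hr' : r + r0 + 1 ≤ ⌊(K + K0 + 1) / ε⌋₊ := by
    refine Nat.le_floor ?_
    push_cast
    have h1 : (r : ℝ) ≤ K / ε := Nat.floor_le (by positivity)
    have h2 : (r0 : ℝ) ≤ K0 / ε := Nat.floor_le (by positivity)
    have h3 : 1 ≤ 1 / ε := by rw [le_div_iff₀ hε]; linarith
    calc (r : ℝ) + r0 + 1 ≤ K / ε + K0 / ε + 1 / ε := by linarith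
      _ = (K + K0 + 1) / ε := by ring
  have hfr' : (fr (pc d + ε) (k / ε ^ 2) (r + r0 + 1) (A : Set (V d)) y).toReal ≤
      (fr (pc d + ε) (k / ε ^ 2) ⌊(K + K0 + 1) / ε⌋₊ (A : Set (V d)) y).toReal :=
    ENNReal.toReal_mono (ne_top_of_le_ne_top ENNReal.one_ne_top (fr_le_one _ _ _ _ _))
      (fr_mono_r hr' _ _)
  refine le_trans ?_ hfr'
  refine le_trans ?_ hfr
  -- final computation
  set X : ℝ := EW (Wf R gL (wx d x κ)) (ε ^ 2) (Del.ofSet (A : Set (V d))) y with hX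
  rw [lt_div_iff₀ hε] at e1
  rw [div_lt_iff₀ hε] at e2
  have f1 : (1 - ρ) * (X - (δ / 4 * ε + (δ / 8 * ε + (δ / 8 * ε + δ / 16 * ε)))) ≤
      (1 - ρ) * G.toReal := mul_le_mul_of_nonneg_left (by linarith) (by linarith)
  refine le_trans ?_ f1
  have f2 : ρ * X ≤ ρ * ((E + 1) * ε) := mul_le_mul_of_nonneg_left e2.le hρ0
  have f3 : ρ * ((E + 1) * ε) ≤ δ / 16 * ε := by
    calc ρ * ((E + 1) * ε) = (ρ * (E + 1)) * ε := by ring
      _ ≤ δ / 16 * ε := mul_le_mul_of_nonneg_right e5.le hε.le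
  have f4 : 0 ≤ ρ * (δ / 4 * ε + (δ / 8 * ε + (δ / 8 * ε + δ / 16 * ε))) := by positivity
  have f5 : Real.sqrt (lam d b * x) * psiK A y * ε ≤ (E + δ / 8) * ε :=
    mul_le_mul_of_nonneg_right (by linarith) hε.le
  nlinarith [f1, f2, f3, f4, f5, e1, mul_pos hδ hε]

theorem HP.mono (h6 : Out6 d) {k x x' : ℝ} (hxx : x' ≤ x) (h : HP d k x) : HP d k x' := by
  intro δ hδ
  obtain ⟨K, hK, hH⟩ := h δ hδ
  refine ⟨K, hK, fun A y hy => ?_⟩
  filter_upwards [hH A y hy, self_mem_nhdsWithin] with ε hε hε0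
  have hε' : 0 < ε := hε0
  have hψ0 : 0 ≤ psiK A y := h6.psi_nonneg _ _ (Del.ofSet_finite A.finite_toSet) (fun h => hy (Finset.mem_coe.1 h))
  refine le_trans (mul_le_mul_of_nonneg_right ?_ hε'.le) hε
  have := mul_le_mul_of_nonneg_right hxx hψ0
  linarith

/-- 11.4 (c), the iteration -/
theorem iterate (hC : Crit d) (h5 : Out5 d) (h6 : Out6 d) {b : ℝ} (hb : 0 < b) (h8 : Out8 d b)
    (h9 : Out9 d b) (h10 : Out10 d) {k : ℝ} (hk : 0 < k) {δ : ℝ} (hδ : 0 < δ) :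
    ∃ x : ℝ, lam d b - δ ≤ x ∧ HP d k x := by
  obtain ⟨x0, hx0, hH⟩ := base (d := d) h5 h6 hk
  have hl : 0 < lam d b := h9.lam_pos
  -- the iterates
  have key : ∀ j : ℕ, HP d k (lam d b * (x0 / lam d b) ^ ((1 / 2 : ℝ) ^ j)) := by
    intro j
    induction j with
    | zero =>
      have h1 : lam d b * (x0 / lam d b) ^ ((1 / 2 : ℝ) ^ 0) = x0 := by
        rw [pow_zero, Real.rpow_one]
        field_simp
      rw [h1]; exact hH
    | succ j ih =>
      have h0 : 0 ≤ lam d b * (x0 / lam d b) ^ ((1 / 2 : ℝ) ^ j) := by positivity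
      have h1 := stepH hC h5 h6 hb h8 h9 h10 hk h0 ih
      have h2 : Real.sqrt (lam d b * (lam d b * (x0 / lam d b) ^ ((1 / 2 : ℝ) ^ j))) =
          lam d b * (x0 / lam d b) ^ ((1 / 2 : ℝ) ^ (j + 1)) := by
        have h3 : lam d b * (lam d b * (x0 / lam d b) ^ ((1 / 2 : ℝ) ^ j)) =
            (lam d b * (x0 / lam d b) ^ ((1 / 2 : ℝ) ^ (j + 1))) ^ 2 := by
          rw [mul_pow, ← Real.rpow_natCast ((x0 / lam d b) ^ ((1 / 2 : ℝ) ^ (j + 1))) 2,
            ← Real.rpow_mul (by positivity)]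
          have h4 : (1 / 2 : ℝ) ^ (j + 1) * ((2 : ℕ) : ℝ) = (1 / 2 : ℝ) ^ j := by
            rw [pow_succ]; push_cast; ring
          rw [h4]; ring
        rw [h3, Real.sqrt_sq (by positivity)]
      rw [h2] at h1
      exact h1
  have hlim : Tendsto (fun j : ℕ => lam d b * (x0 / lam d b) ^ ((1 / 2 : ℝ) ^ j)) atTop
      (𝓝 (lam d b)) := by
    have h1 : Tendsto (fun j : ℕ => (1 / 2 : ℝ) ^ j) atTop (𝓝 0) :=
      tendsto_pow_atTop_nhds_zero_of_lt_one (by norm_num) (by norm_num)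
    have h2 : Tendsto (fun j : ℕ => (x0 / lam d b) ^ ((1 / 2 : ℝ) ^ j)) atTop
        (𝓝 ((x0 / lam d b) ^ (0 : ℝ))) :=
      (Real.continuousAt_const_rpow (by positivity)).tendsto.comp h1
    rw [Real.rpow_zero] at h2
    have h3 := h2.const_mul (lam d b)
    rw [mul_one] at h3
    exact h3
  obtain ⟨j, hj⟩ := (hlim.eventually (lt_mem_nhds (show lam d b - δ < lam d b by linarith))).exists
  exact ⟨_, hj.le, key j⟩

/-- OUTPUT of Section 11 -/
theorem out11 (hC : Crit d) (h5 : Out5 d) (h6 : Out6 d) {b : ℝ} (hb : 0 < b) (h8 : Out8 d b)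
    (h9 : Out9 d b) (h10 : Out10 d) : Out11 d b := by
  refine ⟨fun k hk δ hδ => ?_⟩
  obtain ⟨x, hx, hH⟩ := iterate hC h5 h6 hb h8 h9 h10 hk (half_pos hδ)
  obtain ⟨K, hK, hK'⟩ := hH (δ / 2) (half_pos hδ)
  refine ⟨K, hK, ?_⟩
  filter_upwards [hK' ∅ 0 (Finset.notMem_empty 0), self_mem_nhdsWithin] with ε hε hε0
  have hε' : 0 < ε := hε0
  have h1 : psiK (∅ : Finset (V d)) 0 = 1 := by
    have := h6.psi_D0 (0 : V d)
    rw [psiK, Finset.coe_empty]
    exact this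
  rw [h1, mul_one, Finset.coe_empty] at hε
  refine le_trans (mul_le_mul_of_nonneg_right ?_ hε'.le) hε
  linarith

end Pool.Agent.PB.Low
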