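import Pool.Agent.PB.Low.Pair

/-!
# PROJECT PB, Section 11, LOW-Cst: the constants of 11.1 - 11.3 for `p = p_c + ε`, `n = k / ε^2`, `r = ⌊K / ε⌋`

PLAN. `(p / pc d) ^ r = (1 + ε / pc d) ^ ⌊K/ε⌋ ≤ exp (ε / pc d * (K / ε)) = exp (K / pc d)` (`Real.add_one_le_exp`,
`Real.exp_nat_mul`, `Nat.floor_le`). `Mg d p (1/n)`: `Out9.M_le` with `h = 1 / n = ε ^ 2 / k ≤ 1` for small ε:
`Mr ≤ C (ε / √k + ε)`; `Mr = (Mg).toReal` and `Mg ≤ 1` so `Mg = ofReal Mr`. So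
`2 c^2 Mg ≤ ofReal (2 exp(K/pc)^2 C (1/√k + 1) ε)`.
`f_le`: `XEv p n r A y ⊆ {ω | (⌈n⌉₊ : ℕ∞) ≤ (Cl (opn p ω) y).encard}`: the cluster of `z` in `A.rem (Oc ω)` is contained
in `Cl (opn p ω) y` (`Rch.mono`, `RchL.rch`, `Rch.trans`), `Big` gives encard `≥ ⌈n⌉₊` (`Nat.ceil_le`), translation to `0`
(`Pr_act (trI y)` as in `theta_shift` of P/Act.lean), `Out9.tail_le` with `⌈n⌉₊ ≥ n ≥ 1`: `≤ C (1/√⌈n⌉ + ε) ≤ C (ε/√k + ε)`.
`pair` from `pairX`, `single` from `singleX` (monotone in the constant). Choose `c` = the sum of the two constants + 1.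
Eventually: `0 < ε`, `pc d + ε ≤ 1`, `ε ^ 2 ≤ k`, `k / ε^2 ≥ 1`.
-/

set_option autoImplicit false
open MeasureTheory Filter Topology
open scoped ENNReal BigOperators

namespace Pool.Agent.PB.Low

variable {d : ℕ}

theorem encard_of_Big {W : Type*} {n : ℝ} {O : Set (Sym2 W)} {z : W} (h : Big n O z) :
    ((⌈n⌉₊ : ℕ) : ℕ∞) ≤ (Cl O z).encard := by
  by_cases hinf : (Cl O z).Infinite
  · rw [Set.encard_eq_top_iff.2 hinf]
    exact le_top
  · have hfin := Set.not_infinite.1 hinf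
    rcases h with h | h
    · exact absurd h hinf
    · rw [← hfin.cast_ncard_eq]
      exact_mod_cast Nat.ceil_le.2 h

theorem XEv_empty_subset {p n : ℝ} {r : ℕ} (hp : pc d ≤ p) (y : V d) :
    XEv p n r (Del.ofSet ∅) y ⊆ {ω : Om d | ((⌈n⌉₊ : ℕ) : ℕ∞) ≤ (Cl (opn p ω) y).encard} := by
  rintro ω ⟨-, z, h1, h2⟩
  have h3 := encard_of_Big (O := (Del.ofSet (∅ : Set (V d))).rem (Oc ω)) h2
  have h4 : z ∈ Cl (opn p ω) y := (h1.mono (Del.rem_subset _ _)).rch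
  have h5 : Cl ((Del.ofSet (∅ : Set (V d))).rem (Oc ω)) z ⊆ Cl (opn p ω) y := by
    rw [← Cl_eq_of_mem h4]
    exact Cl_mono ((Del.rem_subset _ _).trans (opn_mono hp ω)) z
  exact h3.trans (Set.encard_le_encard h5)

theorem consts (hC : Crit d) {b : ℝ} (h9 : Out9 d b) (h10 : Out10 d) {k K : ℝ} (hk : 0 < k)
    (hK : 0 < K) : ∃ c : ℝ, 1 ≤ c ∧ ∀ᶠ ε in 𝓝[>] (0 : ℝ),
      Cs (pc d + ε) (k / ε ^ 2) ⌊K / ε⌋₊ d (ENNReal.ofReal (c * ε)) := by
  obtain ⟨C1, hC1, hM⟩ := h9.M_le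
  obtain ⟨C2, hC2, hT⟩ := h9.tail_le
  have hpc := hC.pc_pos
  have hpc1 := hC.pc_lt
  have hsk : 0 < Real.sqrt k := Real.sqrt_pos.2 hk
  set E : ℝ := Real.exp (K / pc d) with hE
  have hE0 : 0 < E := Real.exp_pos _
  set D1 : ℝ := E ^ 2 * (C1 * (1 / Real.sqrt k + 1)) with hD1
  set D2 : ℝ := C2 * (1 / Real.sqrt k + 1) with hD2
  have hD1' : 0 ≤ D1 := by positivity
  have hD2' : 0 ≤ D2 := by positivity
  refine ⟨2 * D1 + D2 + 1, by linarith, ?_⟩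
  have e1 : ∀ᶠ ε in 𝓝[>] (0 : ℝ), ε < 1 - pc d :=
    mem_nhdsWithin_of_mem_nhds (Iio_mem_nhds (by linarith))
  have e2 : ∀ᶠ ε in 𝓝[>] (0 : ℝ), ε < Real.sqrt k :=
    mem_nhdsWithin_of_mem_nhds (Iio_mem_nhds hsk)
  filter_upwards [e1, e2, self_mem_nhdsWithin] with ε h1 h2 hε
  have hε0 : (0 : ℝ) < ε := hε
  set n : ℝ := k / ε ^ 2 with hn
  have hn0 : 0 < n := by positivity
  have hεk : ε ^ 2 ≤ k := by
    have := pow_le_pow_left₀ hε0.le h2.le 2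
    rwa [Real.sq_sqrt hk.le] at this
  have hn1 : 1 ≤ n := by rw [hn, le_div_iff₀ (by positivity)]; linarith
  set p : ℝ := pc d + ε with hp
  have hpp : pc d ≤ p := by linarith
  have hp1 : p ≤ 1 := by linarith
  set r : ℕ := ⌊K / ε⌋₊ with hr
  have hpow : (p / pc d) ^ r ≤ E := by
    have h3 : p / pc d ≤ Real.exp (ε / pc d) := by
      have : p / pc d = ε / pc d + 1 := by rw [hp]; field_simp; ring
      rw [this]
      exact Real.add_one_le_exp _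
    have h4 : (p / pc d) ^ r ≤ Real.exp (ε / pc d) ^ r :=
      pow_le_pow_left₀ (by positivity) h3 r
    refine h4.trans ?_
    rw [← Real.exp_nat_mul, hE]
    apply Real.exp_le_exp.2
    have h5 : (r : ℝ) ≤ K / ε := Nat.floor_le (by positivity)
    calc (r : ℝ) * (ε / pc d) ≤ (K / ε) * (ε / pc d) :=
          mul_le_mul_of_nonneg_right h5 (by positivity)
      _ = K / pc d := by field_simp
  have hinv : 1 / n = ε ^ 2 / k := by rw [hn]; field_simp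
  have hsq : Real.sqrt (1 / n) = ε / Real.sqrt k := by
    rw [hinv, Real.sqrt_div' _ hk.le, Real.sqrt_sq hε0.le]
  have hMg : Mg d p (1 / n) ≤ ENNReal.ofReal (C1 * (1 / Real.sqrt k + 1) * ε) := by
    have h3 := hM p (1 / n) hpp hp1 (by positivity) (by rw [div_le_one hn0]; exact hn1)
    have hne : Mg d p (1 / n) ≠ ⊤ := measure_ne_top _ _
    rw [← ENNReal.ofReal_toReal hne]
    apply ENNReal.ofReal_le_ofReal
    refine h3.trans (le_of_eq ?_)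
    rw [hsq, hp]
    ring
  have hX : ENNReal.ofReal ((p / pc d) ^ r) ^ 2 * Mg d p (1 / n) ≤ ENNReal.ofReal (D1 * ε) := by
    calc ENNReal.ofReal ((p / pc d) ^ r) ^ 2 * Mg d p (1 / n)
        ≤ ENNReal.ofReal E ^ 2 * ENNReal.ofReal (C1 * (1 / Real.sqrt k + 1) * ε) := by
          gcongr
      _ = ENNReal.ofReal (D1 * ε) := by
          rw [← ENNReal.ofReal_pow hE0.le, ← ENNReal.ofReal_mul (by positivity)]
          congr 1
          rw [hD1]
          ring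
  have hX2 : 2 * (ENNReal.ofReal ((p / pc d) ^ r) ^ 2 * Mg d p (1 / n)) ≤
      ENNReal.ofReal ((2 * D1 + D2 + 1) * ε) := by
    calc 2 * (ENNReal.ofReal ((p / pc d) ^ r) ^ 2 * Mg d p (1 / n))
        ≤ 2 * ENNReal.ofReal (D1 * ε) := by gcongr
      _ = ENNReal.ofReal (2 * (D1 * ε)) := by
          rw [ENNReal.ofReal_mul (by norm_num : (0 : ℝ) ≤ 2)]
          norm_num
      _ ≤ ENNReal.ofReal ((2 * D1 + D2 + 1) * ε) := by
          apply ENNReal.ofReal_le_ofReal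
          nlinarith
  refine ⟨fun A y => ?_, fun A y y' => ?_, fun A' A y hA hy => ?_⟩
  · have h3 : fr p n r A y ≤ fr p n r ∅ y := fr_anti (Set.empty_subset _) y
    have h4 : fr p n r (∅ : Set (V d)) y = fr p n r (∅ : Set (V d)) (0 : V d) := by
      have := fr_shift p n r (∅ : Set (V d)) 0 y
      rw [Set.image_empty, zero_add] at this
      exact this
    have h5 : fr p n r (∅ : Set (V d)) 0 ≤
        Pr d {ω : Om d | ((⌈n⌉₊ : ℕ) : ℕ∞) ≤ (Cl (opn p ω) (0 : V d)).encard} :=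
      measure_mono (XEv_empty_subset hpp 0)
    have hc1 : 1 ≤ ⌈n⌉₊ := Nat.one_le_ceil_iff.2 hn0
    have h6 := hT p ⌈n⌉₊ hpp hp1 hc1
    have h7 : (1 : ℝ) / Real.sqrt (⌈n⌉₊ : ℝ) ≤ ε / Real.sqrt k := by
      rw [← hsq, Real.sqrt_div' _ hn0.le, Real.sqrt_one]
      have h8 : Real.sqrt n ≤ Real.sqrt (⌈n⌉₊ : ℝ) := Real.sqrt_le_sqrt (Nat.le_ceil n)
      exact one_div_le_one_div_of_le (Real.sqrt_pos.2 hn0) h8
    have hne : Pr d {ω : Om d | ((⌈n⌉₊ : ℕ) : ℕ∞) ≤ (Cl (opn p ω) (0 : V d)).encard} ≠ ⊤ :=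
      measure_ne_top _ _
    rw [h4] at h3
    refine h3.trans (h5.trans ?_)
    rw [← ENNReal.ofReal_toReal hne]
    apply ENNReal.ofReal_le_ofReal
    refine h6.trans ?_
    have h8 : p - pc d = ε := by rw [hp]; ring
    rw [h8]
    have h9 : C2 * (1 / Real.sqrt (⌈n⌉₊ : ℝ) + ε) ≤ C2 * (ε / Real.sqrt k + ε) :=
      mul_le_mul_of_nonneg_left (by linarith) (by linarith)
    refine h9.trans ?_
    have h10 : C2 * (ε / Real.sqrt k + ε) = D2 * ε := by rw [hD2]; ring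
    rw [h10]
    nlinarith
  · refine (pairX h10 hpp hp1 hn0 r A y y').trans ?_
    refine add_le_add le_rfl ?_
    calc 2 * (ENNReal.ofReal ((p / pc d) ^ r) ^ 2 * Mg d p (1 / n) * t4 (y' - y))
        = 2 * (ENNReal.ofReal ((p / pc d) ^ r) ^ 2 * Mg d p (1 / n)) * t4 (y' - y) := by ring
      _ ≤ _ := by gcongr
  · refine (singleX h10 hpp hp1 hn0 r hA hy).trans ?_
    gcongr

end Pool.Agent.PB.Low
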