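import Pool.Agent.PB.Spr.Defs

/-!
# PROJECT PB, Section 11 (LOWER BOUND RECURSION): definitions

Everything here uses VERTEX-SET deletions `Del.ofSet A`. `p = p_c + ε`, threshold `n` (a real number,
`n = k / ε ^ 2`), `r` (number of `p`-open steps), typed connections: at most `r` steps in `P`, then steps in `Q`.
-/

set_option autoImplicit false
open MeasureTheory Filter Topology
open scoped ENNReal BigOperators

namespace Pool.Agent.PB.Low

/-- the cluster of `z` in `O` has at least `n` vertices (or is infinite) -/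
def Big {W : Type*} (n : ℝ) (O : Set (Sym2 W)) (z : W) : Prop :=
  (Cl O z).Infinite ∨ n ≤ ((Cl O z).ncard : ℝ)

/-- typed connection inside the edge set `S`: at most `r` steps in `P`, then steps in `Q` -/
def TyS {W : Type*} (P Q S : Set (Sym2 W)) (r : ℕ) (x y : W) : Prop :=
  ∃ z, RchL (P ∩ S) r x z ∧ Rch (Q ∩ S) z y

/-- edge-disjoint typed connections `y ~> w`, `y' ~> w`, `w ~> g` -/
def TD3 {W : Type*} (P Q : Set (Sym2 W)) (r : ℕ) (y y' w g : W) : Prop :=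
  ∃ S1 S2 S3 : Set (Sym2 W), Disjoint S1 S2 ∧ Disjoint S1 S3 ∧ Disjoint S2 S3 ∧
    TyS P Q S1 r y w ∧ TyS P Q S2 r y' w ∧ TyS P Q S3 r w g

variable {d : ℕ}

/-- the event `x ~> y` (at most `r` `p`-open steps, then `p_c`-open steps) -/
def Wk (p : ℝ) (r : ℕ) (x y : V d) : Set (Om d) :=
  {ω | ∃ z, RchL (opn p ω) r x z ∧ Rch (Oc ω) z y}

/-- the event `x ~> G_h` -/
def WkG (p h : ℝ) (r : ℕ) (x : V d) : Set (Om d) :=
  {ω | ∃ g ∈ ghost false h ω, ∃ z, RchL (opn p ω) r x z ∧ Rch (Oc ω) z g}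

/-- `f_r(A,y) = P(X_r^A(y))` -/
noncomputable def fr (p n : ℝ) (r : ℕ) (A : Set (V d)) (y : V d) : ℝ≥0∞ :=
  Pr d (XEv p n r (Del.ofSet A) y)

/-- `τ^{*4}` at `p_c` -/
noncomputable def t4 (x : V d) : ℝ≥0∞ := cpow (tau (pc d)) 4 x

/-- `t(x) = Σ_e τ^{*4}(x - e)` -/
noncomputable def t1 (x : V d) : ℝ≥0∞ := ∑ e ∈ U1 d, t4 (x - e)

/-- `t_2(x) = Σ_{e,e'} τ^{*4}(x + e - e')` -/
noncomputable def t2 (x : V d) : ℝ≥0∞ := ∑ e ∈ U1 d, ∑ e' ∈ U1 d, t4 (x + e - e')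

/-- the inequalities 11.1 - 11.3 with the constant `c` -/
structure Cs (p n : ℝ) (r : ℕ) (d : ℕ) (c : ℝ≥0∞) : Prop where
  f_le : ∀ (A : Set (V d)) (y : V d), fr p n r A y ≤ c
  pair : ∀ (A : Set (V d)) (y y' : V d),
    Pr d (XEv p n r (Del.ofSet A) y ∩ XEv p n r (Del.ofSet A) y') ≤
      fr p n r A y * fr p n r A y' + c * t4 (y' - y)
  single : ∀ (A' A : Set (V d)) (y : V d), A' ⊆ A → y ∉ A →
    fr p n r A' y ≤ fr p n r A y + c * ∑' z : V d, (A \ A').indicator (fun z => t4 (z - y)) z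

/-- the sum over pairs of vertices of the cluster of `y` -/
noncomputable def pairSum (t : V d → ℝ≥0∞) (O : Set (Sym2 (V d))) (y : V d) : ℝ≥0∞ :=
  ∑' x : V d, ∑' z : V d, Set.indicator {q : V d × V d | q.1 ∈ Cl O y ∧ q.2 ∈ Cl O y}
    (fun q => t (q.2 - q.1)) (x, z)

/-- the sum over nonlocal pairs of vertices of the cluster of `y` -/
noncomputable def nlSum (R : ℕ) (t : V d → ℝ≥0∞) (O : Set (Sym2 (V d))) (y : V d) : ℝ≥0∞ :=
  ∑' x : V d, ∑' z : V d, Set.indicator {q : V d × V d | q.1 ∈ Cl O y ∧ q.2 ∈ Cl O y ∧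
    q.2 ∉ Lb R O q.1} (fun q => t (q.2 - q.1)) (x, z)

/-- parameters of the good event: `R`, `a ≤ s N ≤ b'`, `eta` (constant of g3), `Lam` (constant of g4),
`r0` (radius) -/
structure Par where
  /-- radius of the local clusters -/
  R : ℕ
  /-- lower bound for `s N` -/
  a : ℝ
  /-- upper bound for `s N` -/
  b' : ℝ
  /-- constant of (g3) -/
  eta : ℝ

/-- (g1) `a ≤ s N ≤ b'` -/
def G1 (π : Par) (s : ℝ) (O : Set (Sym2 (V d))) (y : V d) : Prop :=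
  π.a ≤ s * (Nc O y : ℝ) ∧ s * (Nc O y : ℝ) ≤ π.b'

/-- (g2) the intrinsic radius is at most `r0` -/
def G2 (r0 : ℕ) (O : Set (Sym2 (V d))) (y : V d) : Prop := ∀ z ∈ Cl O y, RchL O r0 y z

/-- (g3) the nonlocal pair sum is small -/
def G3 (π : Par) (O : Set (Sym2 (V d))) (y : V d) : Prop :=
  nlSum π.R t1 O y ≤ ENNReal.ofReal (π.eta * (Nc O y : ℝ))

/-- (g4) the pair sum is not too large -/
def G4 (Lam : ℝ) (O : Set (Sym2 (V d))) (y : V d) : Prop :=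
  pairSum t2 O y ≤ ENNReal.ofReal (Lam * (Nc O y : ℝ))

/-- the good event, a property of the cluster of `y` in `O` -/
def Good (π : Par) (s Lam : ℝ) (r0 : ℕ) (O : Set (Sym2 (V d))) (y : V d) : Prop :=
  G1 π s O y ∧ G2 r0 O y ∧ G3 π O y ∧ G4 Lam O y

/-- `O` and `O'` agree on the edges touching the cluster of `y` in `O` -/
def Agree (O O' : Set (Sym2 (V d))) (y : V d) : Prop := ∀ e ∈ touch (Cl O y), (e ∈ O ↔ e ∈ O')

/-- a property of the cluster of `y` and the status of the edges touching it -/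
def IsLocal (y : V d) (Ev : Set (Sym2 (V d)) → Prop) : Prop :=
  ∀ O O' : Set (Sym2 (V d)), (Cl O y).Finite →
    (∀ e ∈ touch (Cl O y), (e ∈ O ↔ e ∈ O')) → (Ev O ↔ Ev O')

/-- the functional `w` of 11.4 (b): `1 - exp(- s (x Y - κ N)_+ / (1 - p_c))` -/
noncomputable def wx (d : ℕ) (x κ : ℝ) (s : ℝ) (N : ℕ) (Y : ℝ) : ℝ :=
  1 - Real.exp (-(max 0 s / (1 - pc d) * max 0 (x * Y + (-κ) * N)))

/-- the hypothesis `H(x)` of 11.4 -/
def HP (d : ℕ) (k x : ℝ) : Prop :=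
  ∀ δ : ℝ, 0 < δ → ∃ K : ℝ, 0 < K ∧ ∀ (A : Finset (V d)) (y : V d), y ∉ A →
    ∀ᶠ ε in 𝓝[>] (0 : ℝ), (x * psiK A y - δ) * ε ≤
      (fr (pc d + ε) (k / ε ^ 2) ⌊K / ε⌋₊ (A : Set (V d)) y).toReal

end Pool.Agent.PB.Low
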