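import Pool.Agent.PB.Low.Defs
import Pool.Agent.PB.Basic

/-!
# PROJECT PB, Section 11, LOW-Det: deterministic lemmas on typed connections (any vertex type)
-/

set_option autoImplicit false
open scoped BigOperators

namespace Pool.Agent.PB.Low

variable {W : Type*}

/-- first hit of `T` by a path of length `≤ r` -/
theorem F1 {P : Set (Sym2 W)} (T : Set W) {r : ℕ} {x z : W} (h : RchL P r x z) :
    (∃ w ∈ T, RchL (P ∩ (ins T)ᶜ) r x w) ∨ (z ∉ T ∧ RchL (P ∩ (ins T)ᶜ) r x z) := by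
  induction r generalizing z with
  | zero =>
    cases h
    by_cases hx : x ∈ T
    · exact Or.inl ⟨x, hx, rfl⟩
    · exact Or.inr ⟨hx, rfl⟩
  | succ r ih =>
    rcases h with h | ⟨z', hz', he⟩
    · rcases ih h with ⟨w, hw, hr⟩ | ⟨hz, hr⟩
      · exact Or.inl ⟨w, hw, Or.inl hr⟩
      · exact Or.inr ⟨hz, Or.inl hr⟩
    · rcases ih hz' with ⟨w, hw, hr⟩ | ⟨hzT, hr⟩
      · exact Or.inl ⟨w, hw, Or.inl hr⟩
      · have hE : s(z', z) ∈ P ∩ (ins T)ᶜ := ⟨he, fun hi => hzT (hi z' (Sym2.mem_mk_left _ _))⟩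
        have hr' : RchL (P ∩ (ins T)ᶜ) (r + 1) x z := Or.inr ⟨z', hr, hE⟩
        by_cases hz : z ∈ T
        · exact Or.inl ⟨z, hz, hr'⟩
        · exact Or.inr ⟨hz, hr'⟩

/-- first hit of `T` by a path -/
theorem F2 {Q : Set (Sym2 W)} (T : Set W) {x z : W} (h : Rch Q x z) :
    (∃ w ∈ T, Rch (Q ∩ (ins T)ᶜ) x w) ∨ (z ∉ T ∧ Rch (Q ∩ (ins T)ᶜ) x z) := by
  obtain ⟨n, hn⟩ := rch_iff_exists_RchL.1 h
  rcases F1 T hn with ⟨w, hw, hr⟩ | ⟨hz, hr⟩
  · exact Or.inl ⟨w, hw, hr.rch⟩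
  · exact Or.inr ⟨hz, hr.rch⟩

/-- first hit of `T` by a typed path -/
theorem D2 {P Q : Set (Sym2 W)} (T : Set W) {r : ℕ} {x z v : W} (h : RchL P r x z)
    (h' : Rch Q z v) (hv : v ∈ T) : ∃ w ∈ T, TyS P Q (ins T)ᶜ r x w := by
  rcases F1 T h with ⟨w, hw, hr⟩ | ⟨_, hr⟩
  · exact ⟨w, hw, w, hr, Rch.refl _ _⟩
  · rcases F2 T h' with ⟨w, hw, hr'⟩ | ⟨hv', _⟩
    · exact ⟨w, hw, z, hr, hr'⟩
    · exact absurd hv hv'

/-- splitting a typed path into disjoint parts -/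
theorem T1 {P Q : Set (Sym2 W)} {r : ℕ} {x z y : W} (h : RchL P r x z) (h' : Rch Q z y) :
    ∃ w, RchL (P ∩ (ins (Cl Q y))ᶜ) r x w ∧ Rch (Q ∩ ins (Cl Q y)) w y := by
  have hz : z ∈ Cl Q y := h'.symm
  rcases F1 (Cl Q y) h with ⟨w, hw, hr⟩ | ⟨hz', _⟩
  · refine ⟨w, hr, ?_⟩
    have h1 := Rch.inside (show Rch Q y w from hw)
    have h2 : Rch (Q ∩ ins (Cl Q y)) y w := by
      refine Rch.mono ?_ h1
      intro e he
      exact ⟨he.1, he.2⟩
    exact h2.symm
  · exact absurd hz hz'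

/-! ### injective sequences -/

/-- steps along a sequence -/
theorem seqL {O : Set (Sym2 W)} {a : ℕ → W} {j l : ℕ} (hjl : j ≤ l)
    (h : ∀ i, j ≤ i → i < l → s(a i, a (i + 1)) ∈ O) : RchL O (l - j) (a j) (a l) := by
  induction l, hjl using Nat.le_induction with
  | base => rw [Nat.sub_self]; rfl
  | succ l hl ih =>
    rw [Nat.succ_sub hl]
    exact Or.inr ⟨a l, ih (fun i h1 h2 => h i h1 (by omega)), h l hl (by omega)⟩

/-- a path gives a sequence -/
theorem exists_seq {O : Set (Sym2 W)} {r : ℕ} {x z : W} (h : RchL O r x z) :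
    ∃ m ≤ r, ∃ a : ℕ → W, a 0 = x ∧ a m = z ∧ ∀ i < m, s(a i, a (i + 1)) ∈ O := by
  induction r generalizing z with
  | zero => exact ⟨0, le_refl _, fun _ => x, rfl, h, fun i hi => absurd hi (by omega)⟩
  | succ r ih =>
    rcases h with h | ⟨z', hz', he⟩
    · obtain ⟨m, hm, a, h0, h1, h2⟩ := ih h
      exact ⟨m, by omega, a, h0, h1, h2⟩
    · obtain ⟨m, hm, a, h0, h1, h2⟩ := ih hz'
      refine ⟨m + 1, by omega, fun i => if i ≤ m then a i else z, ?_, ?_, ?_⟩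
      · simp [h0]
      · simp
      · intro i hi
        rcases Nat.lt_or_ge i m with h' | h'
        · simp only [show i ≤ m by omega, if_true, show i + 1 ≤ m by omega]
          exact h2 i h'
        · have : i = m := by omega
          subst this
          simp only [le_refl, if_true, show ¬ (i + 1 ≤ i) by omega, if_false]
          rw [h1]; exact he

/-- geodesic to a set: injective, only the last vertex is in `C` -/
theorem geo {O : Set (Sym2 W)} {C : Set W} {r : ℕ} {x z : W} (h : RchL O r x z) (hz : z ∈ C) :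
    ∃ m ≤ r, ∃ a : ℕ → W, a 0 = x ∧ a m ∈ C ∧ (∀ i < m, s(a i, a (i + 1)) ∈ O) ∧
      (∀ i < m, a i ∉ C) ∧ ∀ i j, i < j → j ≤ m → a i ≠ a j := by
  classical
  have hex : ∃ m, ∃ a : ℕ → W, a 0 = x ∧ a m ∈ C ∧ ∀ i < m, s(a i, a (i + 1)) ∈ O := by
    obtain ⟨m, _, a, h0, h1, h2⟩ := exists_seq h
    exact ⟨m, a, h0, h1 ▸ hz, h2⟩
  have hle : Nat.find hex ≤ r := by
    obtain ⟨m, hm, a, h0, h1, h2⟩ := exists_seq h
    exact (Nat.find_min' hex ⟨a, h0, h1 ▸ hz, h2⟩).trans hm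
  obtain ⟨a, h0, h1, h2⟩ := Nat.find_spec hex
  refine ⟨Nat.find hex, hle, a, h0, h1, h2, ?_, ?_⟩
  · intro i hi hC
    exact Nat.find_min hex hi ⟨a, h0, hC, fun j hj => h2 j (by omega)⟩
  · intro i j hij hj heq
    refine Nat.find_min hex (m := Nat.find hex - (j - i)) (by omega)
      ⟨fun t => if t ≤ i then a t else a (t + (j - i)), by simp [h0], ?_, ?_⟩
    · by_cases hc : Nat.find hex - (j - i) ≤ i
      · have : Nat.find hex = j := by omega
        have h3 : Nat.find hex - (j - i) = i := by omega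
        simp only [h3, le_refl, if_true]
        rw [heq, ← this]; exact h1
      · simp only [hc, if_false]
        rw [show Nat.find hex - (j - i) + (j - i) = Nat.find hex by omega]; exact h1
    · intro t ht
      rcases Nat.lt_trichotomy t i with h' | h' | h'
      · simp only [show t ≤ i by omega, if_true, show t + 1 ≤ i by omega]
        exact h2 t (by omega)
      · subst h'
        simp only [le_refl, if_true, show ¬ (t + 1 ≤ t) by omega, if_false]
        rw [heq, show t + 1 + (j - t) = j + 1 by omega]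
        exact h2 j (by omega)
      · simp only [show ¬ (t ≤ i) by omega, if_false, show ¬ (t + 1 ≤ i) by omega]
        rw [show t + 1 + (j - i) = (t + (j - i)) + 1 by omega]
        exact h2 _ (by omega)

/-- the typed injective path -/
theorem D1 {P Q : Set (Sym2 W)} (hQP : Q ⊆ P) {r : ℕ} {y z g : W} (h : RchL P r y z)
    (hg : g ∈ Cl Q z) :
    ∃ T : Set W, (∃ z1 ∈ T, z1 ∈ Cl Q z ∧ RchL (P ∩ ins T) r y z1) ∧ (∀ v ∈ T, Rch P y v) ∧
      ∀ w ∈ T, ∃ S1 S3 : Set (Sym2 W), Disjoint S1 S3 ∧ S1 ⊆ ins T ∧ S3 ⊆ ins T ∧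
        TyS P Q S1 r y w ∧ TyS P Q S3 r w g := by
  classical
  obtain ⟨m, hm, a, a0, am, aE, aC, aI⟩ := geo h (self_mem_Cl Q z)
  have hg' : Rch Q (a m) g := (Rch.symm am).trans hg
  obtain ⟨q, hq⟩ := rch_iff_exists_RchL.1 hg'
  obtain ⟨l, _, b, b0, bm, bE, _, bI⟩ := geo (C := {g}) hq rfl
  have hbC : ∀ i ≤ l, b i ∈ Cl Q z := by
    intro i hi
    have h1 : RchL Q (i - 0) (b 0) (b i) := seqL (Nat.zero_le _) (fun j _ hj => bE j (by omega))
    exact Rch.trans am (b0 ▸ h1.rch)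
  -- the concatenation
  set c : ℕ → W := fun i => if i ≤ m then a i else b (i - m) with hc
  have cle : ∀ i ≤ m, c i = a i := fun i hi => by simp [hc, hi]
  have cge : ∀ i, m ≤ i → c i = b (i - m) := by
    intro i hi
    rcases Nat.eq_or_lt_of_le hi with h' | h'
    · subst h'; simp [hc, b0]
    · simp [hc, show ¬ i ≤ m by omega]
  have cP : ∀ i < m, s(c i, c (i + 1)) ∈ P := by
    intro i hi
    rw [cle i (by omega), cle (i + 1) (by omega)]; exact aE i hi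
  have cQ : ∀ i, m ≤ i → i < m + l → s(c i, c (i + 1)) ∈ Q := by
    intro i h1 h2
    rw [cge i h1, cge (i + 1) (by omega), show i + 1 - m = (i - m) + 1 by omega]
    exact bE _ (by omega)
  have cI : ∀ i j, i < j → j ≤ m + l → c i ≠ c j := by
    intro i j hij hj
    by_cases h1 : j ≤ m
    · rw [cle i (by omega), cle j h1]; exact aI i j hij h1
    · by_cases h2 : i < m
      · rw [cle i (by omega), cge j (by omega)]
        intro h3
        exact aC i h2 (h3 ▸ hbC _ (by omega))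
      · rw [cge i (by omega), cge j (by omega)]
        exact bI _ _ (by omega) (by omega)
  have c0 : c 0 = y := by rw [cle 0 (Nat.zero_le _), a0]
  have cl : c (m + l) = g := by
    rw [cge _ (by omega), show m + l - m = l by omega]; exact bm
  refine ⟨{v | ∃ i ≤ m + l, c i = v}, ⟨a m, ⟨m, by omega, cle m (le_refl _)⟩, am, ?_⟩, ?_, ?_⟩
  · have h1 : RchL (P ∩ ins {v | ∃ i ≤ m + l, c i = v}) (m - 0) (c 0) (c m) := by
      refine seqL (Nat.zero_le _) (fun i _ hi => ⟨cP i hi, ?_⟩)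
      intro x hx
      rcases Sym2.mem_iff.1 hx with rfl | rfl
      · exact ⟨i, by omega, rfl⟩
      · exact ⟨i + 1, by omega, rfl⟩
    rw [c0, cle m (le_refl _)] at h1
    exact h1.mono_len (by omega)
  · rintro v ⟨i, hi, rfl⟩
    have h1 : RchL P (i - 0) (c 0) (c i) := by
      refine seqL (Nat.zero_le _) (fun j _ hj => ?_)
      rcases Nat.lt_or_ge j m with h' | h'
      · exact cP j h'
      · exact hQP (cQ j h' (by omega))
    rw [c0] at h1
    exact h1.rch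
  · rintro w ⟨j, hj, rfl⟩
    refine ⟨{e | ∃ i < j, e = s(c i, c (i + 1))}, {e | ∃ i, j ≤ i ∧ i < m + l ∧
      e = s(c i, c (i + 1))}, ?_, ?_, ?_, ?_, ?_⟩
    · rw [Set.disjoint_left]
      rintro e ⟨i, hi, rfl⟩ ⟨i', h1, h2, h3⟩
      rcases Sym2.eq_iff.1 h3 with ⟨h4, _⟩ | ⟨h4, _⟩
      · exact cI i i' (by omega) (by omega) h4
      · exact cI i (i' + 1) (by omega) (by omega) h4
    · rintro e ⟨i, hi, rfl⟩ x hx
      rcases Sym2.mem_iff.1 hx with rfl | rfl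
      · exact ⟨i, by omega, rfl⟩
      · exact ⟨i + 1, by omega, rfl⟩
    · rintro e ⟨i, h1, h2, rfl⟩ x hx
      rcases Sym2.mem_iff.1 hx with rfl | rfl
      · exact ⟨i, by omega, rfl⟩
      · exact ⟨i + 1, by omega, rfl⟩
    · -- y ~> c j
      rcases le_total j m with hjm | hjm
      · refine ⟨c j, ?_, Rch.refl _ _⟩
        have h1 : RchL (P ∩ {e | ∃ i < j, e = s(c i, c (i + 1))}) (j - 0) (c 0) (c j) :=
          seqL (Nat.zero_le _) (fun i _ hi => ⟨cP i (by omega), i, hi, rfl⟩)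
        rw [c0] at h1
        exact h1.mono_len (by omega)
      · refine ⟨c m, ?_, ?_⟩
        · have h1 : RchL (P ∩ {e | ∃ i < j, e = s(c i, c (i + 1))}) (m - 0) (c 0) (c m) :=
            seqL (Nat.zero_le _) (fun i _ hi => ⟨cP i (by omega), i, by omega, rfl⟩)
          rw [c0] at h1
          exact h1.mono_len (by omega)
        · exact (seqL (O := Q ∩ {e | ∃ i < j, e = s(c i, c (i + 1))}) hjm
            (fun i h1 h2 => ⟨cQ i h1 (by omega), i, h2, rfl⟩)).rch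
    · -- c j ~> g
      rcases le_total j m with hjm | hjm
      · refine ⟨c m, ?_, ?_⟩
        · exact (seqL (O := P ∩ {e | ∃ i, j ≤ i ∧ i < m + l ∧ e = s(c i, c (i + 1))}) hjm
            (fun i h1 h2 => ⟨cP i h2, i, h1, by omega, rfl⟩)).mono_len (by omega)
        · have h1 := (seqL (O := Q ∩ {e | ∃ i, j ≤ i ∧ i < m + l ∧ e = s(c i, c (i + 1))})
            (show m ≤ m + l by omega)
            (fun i h1 h2 => ⟨cQ i h1 h2, i, by omega, h2, rfl⟩)).rch
          rw [cl] at h1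
          exact h1
      · refine ⟨c j, RchL.refl _ _ _, ?_⟩
        have h1 := (seqL (O := Q ∩ {e | ∃ i, j ≤ i ∧ i < m + l ∧ e = s(c i, c (i + 1))}) hj
          (fun i h1 h2 => ⟨cQ i (by omega) h2, i, h1, h2, rfl⟩)).rch
        rw [cl] at h1
        exact h1

/-- three disjoint connections from a hit of the typed path -/
theorem TD3_of {P Q : Set (Sym2 W)} {r : ℕ} {y y' z' v g : W} {T : Set W}
    (hT : ∀ w ∈ T, ∃ S1 S3 : Set (Sym2 W), Disjoint S1 S3 ∧ S1 ⊆ ins T ∧ S3 ⊆ ins T ∧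
        TyS P Q S1 r y w ∧ TyS P Q S3 r w g)
    (h : RchL P r y' z') (h' : Rch Q z' v) (hv : v ∈ T) : ∃ w, TD3 P Q r y y' w g := by
  obtain ⟨w, hw, hw'⟩ := D2 T h h' hv
  obtain ⟨S1, S3, h1, h2, h3, h4, h5⟩ := hT w hw
  refine ⟨w, S1, (ins T)ᶜ, S3, ?_, h1, ?_, h4, hw', h5⟩
  · exact Set.disjoint_left.2 fun e he he' => he' (h2 he)
  · exact Set.disjoint_left.2 fun e he he' => he (h3 he')

/-- the cluster is unchanged inside an edge set containing all its inner edges -/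
theorem Cl_sub_inter {Q S : Set (Sym2 W)} {z z1 : W} (hz : z1 ∈ Cl Q z)
    (hS : ∀ e ∈ Q, (∀ x ∈ e, x ∈ Cl Q z) → e ∈ S) : Cl Q z ⊆ Cl (Q ∩ S) z1 := by
  intro v hv
  have h1 : Rch Q z1 v := (Rch.symm hz).trans hv
  have h2 := Rch.inside h1
  have h3 : Cl Q z1 = Cl Q z := Cl_eq_of_mem hz
  refine Rch.mono ?_ h2
  intro e he
  refine ⟨he.1, hS e he.1 ?_⟩
  intro x hx
  rw [← h3]
  exact he.2 x hx

/-- OUTPUT 1 (for 11.2) -/
theorem det_pair {P Q : Set (Sym2 W)} (hQP : Q ⊆ P) {r : ℕ} {y z y' z' : W} (h : RchL P r y z)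
    (h' : RchL P r y' z') :
    (∃ S S' : Set (Sym2 W), Disjoint S S' ∧
      (∃ z1, RchL (P ∩ S) r y z1 ∧ Cl Q z ⊆ Cl (Q ∩ S) z1) ∧
      ∃ z1, RchL (P ∩ S') r y' z1 ∧ Cl Q z' ⊆ Cl (Q ∩ S') z1) ∨
    ∀ g ∈ Cl Q z, ∃ w, TD3 P Q r y y' w g := by
  classical
  by_contra hcon
  rw [not_or] at hcon
  obtain ⟨hno, hex⟩ := hcon
  push Not at hex
  obtain ⟨g, hg, hgw⟩ := hex
  obtain ⟨T, ⟨z1, hz1T, hz1, hz1r⟩, _, hT⟩ := D1 hQP h hg
  have key : ∀ v, v ∈ T ∪ Cl Q z → v ∉ Bl P r y' ∪ Cl Q z' := by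
    intro v hv hv'
    -- typed connection from y' to v
    have h1 : ∃ u, RchL P r y' u ∧ Rch Q u v := by
      rcases hv' with hv' | hv'
      · exact ⟨v, hv', Rch.refl _ _⟩
      · exact ⟨z', h', hv'⟩
    obtain ⟨u, hu, huv⟩ := h1
    have h2 : ∃ v' ∈ T, Rch Q u v' := by
      rcases hv with hv | hv
      · exact ⟨v, hv, huv⟩
      · exact ⟨z1, hz1T, huv.trans ((Rch.symm hv).trans hz1)⟩
    obtain ⟨v', hv'T, huv'⟩ := h2
    obtain ⟨w, hw⟩ := TD3_of hT hu huv' hv'T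
    exact hgw w hw
  refine hno ⟨ins (T ∪ Cl Q z), ins (Bl P r y' ∪ Cl Q z'), ?_, ⟨z1, ?_, ?_⟩, ⟨z', ?_, ?_⟩⟩
  · rw [Set.disjoint_left]
    intro e he he'
    induction e using Sym2.ind with
    | _ a b => exact key a (he a (Sym2.mem_mk_left _ _)) (he' a (Sym2.mem_mk_left _ _))
  · refine RchL.mono ?_ hz1r
    intro e he
    exact ⟨he.1, fun x hx => Or.inl (he.2 x hx)⟩
  · exact Cl_sub_inter hz1 fun e _ he x hx => Or.inr (he x hx)
  · -- path inside the ball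
    obtain ⟨m, hm, a, a0, am, aE⟩ := exists_seq h'
    have hb : ∀ i ≤ m, a i ∈ Bl P r y' := by
      intro i hi
      have h1 : RchL P (i - 0) (a 0) (a i) := seqL (Nat.zero_le _) (fun j _ hj => aE j (by omega))
      rw [a0] at h1
      exact h1.mono_len (by omega)
    have h1 : RchL (P ∩ ins (Bl P r y' ∪ Cl Q z')) (m - 0) (a 0) (a m) := by
      refine seqL (Nat.zero_le _) (fun i _ hi => ⟨aE i hi, ?_⟩)
      intro x hx
      rcases Sym2.mem_iff.1 hx with rfl | rfl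
      · exact Or.inl (hb i (by omega))
      · exact Or.inl (hb (i + 1) (by omega))
    rw [a0, am] at h1
    exact h1.mono_len (by omega)
  · exact Cl_sub_inter (self_mem_Cl Q z') fun e _ he x hx => Or.inr (he x hx)

/-- OUTPUT 2 (for 11.3) -/
theorem det_single {P Q : Set (Sym2 W)} (hQP : Q ⊆ P) {r : ℕ} {y z : W} (h : RchL P r y z)
    (A : Set W) :
    (∃ z1, RchL (P \ touch A) r y z1 ∧ Cl Q z ⊆ Cl (Q \ touch A) z1) ∨
    ∀ g ∈ Cl Q z, ∃ z0 ∈ A, Rch P y z0 ∧ ∃ w, TD3 P Q r y z0 w g := by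
  classical
  by_contra hcon
  rw [not_or] at hcon
  obtain ⟨hno, hex⟩ := hcon
  push Not at hex
  obtain ⟨g, hg, hgw⟩ := hex
  obtain ⟨T, ⟨z1, hz1T, hz1, hz1r⟩, hTr, hT⟩ := D1 hQP h hg
  have key : ∀ v, v ∈ T ∪ Cl Q z → v ∉ A := by
    intro v hv hvA
    have h2 : ∃ v' ∈ T, Rch Q v v' := by
      rcases hv with hv | hv
      · exact ⟨v, hv, Rch.refl _ _⟩
      · exact ⟨z1, hz1T, (Rch.symm hv).trans hz1⟩
    obtain ⟨v', hv'T, hvv'⟩ := h2
    obtain ⟨w, hw⟩ := TD3_of hT (RchL.refl P r v) hvv' hv'T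
    exact hgw v hvA ((hTr v' hv'T).trans (hvv'.symm.mono hQP)) w hw
  refine hno ⟨z1, ?_, ?_⟩
  · refine RchL.mono ?_ hz1r
    intro e he
    refine ⟨he.1, ?_⟩
    rintro ⟨x, hx, hxA⟩
    exact key x (Or.inl (he.2 x hx)) hxA
  · have h1 := Cl_sub_inter (S := (touch A)ᶜ) hz1 (fun e _ he => by
      rintro ⟨x, hx, hxA⟩
      exact key x (Or.inr (he x hx)) hxA)
    rwa [← Set.sdiff_eq] at h1

end Pool.Agent.PB.Low
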