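import Pool.Agent.PB.Low.LocG
import Pool.Agent.PB.Low.Ev
import Pool.Agent.PB.Low.TT

/-!
# PROJECT PB, Section 11, LOW-EVb: lower bound for the expected number of good boundary edges

PLAN. `D = Cl O y` finite, so `YR R O y = Σ_{x ∈ D} gL (Lb0 R O x)` and `gL L = Σ_{e ∈ U1, e ∉ L} psi (ofSet L) e`.
Fix `x0 ∈ D`, `e ∈ U1 d` with `e ∉ L := Lb0 R O x0` (equivalently `x0 + e ∉ Lb R O x0`). `L` is finite, contained in
`bx R 0`, contains `0` (`Lb0_subset`, `zero_mem_Lb0`, `Lb_finite`). By `hH` (with `L.toFinset`):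
`ε * x * psiK L e ≤ (fr L e).toReal + δ1 * ε`, so `ofReal (ε x ψ) ≤ fr L e + ofReal (δ1 ε)`
(`ENNReal.ofReal_toReal`, `fr_le_one`), and `fr L e = fr (Lb R O x0) (x0 + e)` by `fr_shift` (the image of `L` under `+ x0`).
Let `U = A ∪ D`, `Lx = Lb R O x0 ⊆ D ⊆ U`.
CLAIM: `fr Lx (x0 + e) ≤ (if x0 + e ∉ U then fr U (x0 + e) else 0) + c * Σ'_{z ∈ U \ Lx} t4 (z - (x0 + e))`.
 - `x0 + e ∉ U`: `hc.single`. - `x0 + e ∈ U`: `fr ≤ c ≤ c * t4 0` (`one_le_t4_zero`) and the term `z = x0 + e ∈ U \ Lx` of the sum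
   is `t4 0` (`ENNReal.le_tsum`).
Sum over `e ∈ U1 d` (extend to all `e`): `Σ_e t4 (z - x0 - e) = t1 (z - x0)`. Sum over `x0 ∈ D`:
 - first terms: `Σ_{x0 ∈ D} Σ_{e ∈ U1, x0 + e ∉ U, x0 + e ∉ Lx} fr U (x0 + e) ≤ Σ_{q ∈ bp D (ofSet A)} fr U q.2`
   (the map `(x0, e) ↦ (x0, x0 + e)` is injective into `bp D (ofSet A)`: `mem_bp`, `mem_U1`; `Finset.sum_le_sum_of_injOn`-type
   or `Finset.sum_image` + `Finset.sum_le_sum_of_subset`);
 - `Σ_{x0 ∈ D} Σ'_{z ∈ D \ Lx} t1 (z - x0) = nlSum R t1 O y` (definition; the outer tsum is supported in `D`: `tsum_eq_sum`);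
 - `Σ_{x0 ∈ D} Σ_{z ∈ A} t1 (z - x0)`; (`A` and `D` disjoint, so the indicator of `(A ∪ D) \ Lx` is at most the sum of the
   indicators of `A` and of `D \ Lx`);
 - `Σ_{x0 ∈ D} Σ_e ofReal (δ1 ε) ≤ ofReal (ε * (2 * d * δ1) * |D|)` (`card_U1`).
`ofReal` of the finite sum of nonnegative terms (`Out6.psi_nonneg`) is the sum of the `ofReal`s (`ENNReal.ofReal_sum_of_nonneg`).
-/

set_option autoImplicit false
open MeasureTheory Filter Topology
open scoped ENNReal BigOperators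

namespace Pool.Agent.PB.Low

variable {d : ℕ}

theorem EV_lower (h6 : Out6 d) {p n ε x δ1 : ℝ} {r R : ℕ} {c : ℝ≥0∞} (hc : Cs p n r d c)
    (hε : 0 ≤ ε) (hx : 0 ≤ x) (hδ : 0 ≤ δ1)
    (hH : ∀ L : Finset (V d), (L : Set (V d)) ⊆ bx R 0 → (0 : V d) ∈ L → ∀ e ∈ U1 d, e ∉ L →
      (x * psiK L e - δ1) * ε ≤ (fr p n r (L : Set (V d)) e).toReal)
    {A D : Finset (V d)} (hAD : Disjoint A D) {O : Set (Sym2 (V d))} {y : V d}
    (hO : Cl O y = (D : Set (V d))) :
    ENNReal.ofReal (ε * (x * YR R O y)) ≤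
      (∑ q ∈ bp D (Del.ofSet (A : Set (V d))), fr p n r ((A : Set (V d)) ∪ D) q.2) +
        ENNReal.ofReal (ε * (2 * d * δ1) * D.card) + c * nlSum R t1 O y +
        c * ∑ z ∈ A, ∑ x ∈ D, t1 (z - x) := by
  classical
  have hfin : (Cl O y).Finite := by rw [hO]; exact D.finite_toSet
  have hYR : YR R O y = ∑ x0 ∈ D, gL (Lb0 R O x0) := by
    unfold YR Yf
    rw [dif_pos hfin]
    have h1 : hfin.toFinset = D := by
      ext z
      rw [Set.Finite.mem_toFinset, hO, Finset.mem_coe]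
    rw [h1]
  have hLf : ∀ x0 : V d, (Lb0 R O x0).Finite := fun x0 => (Lb_finite R O x0).image _
  have hnn : ∀ x0 e : V d, 0 ≤ (if e ∉ Lb0 R O x0 then psi (Del.ofSet (Lb0 R O x0)) e else 0) := by
    intro x0 e
    by_cases h1 : e ∈ Lb0 R O x0
    · rw [if_neg (not_not.2 h1)]
    · rw [if_pos h1]
      exact h6.psi_nonneg (Del.ofSet (Lb0 R O x0)) e (Del.ofSet_finite (hLf x0)) h1
  have hleft : ENNReal.ofReal (ε * (x * YR R O y)) = ∑ x0 ∈ D, ∑ e ∈ U1 d,
      ENNReal.ofReal (ε * (x * (if e ∉ Lb0 R O x0 then psi (Del.ofSet (Lb0 R O x0)) e else 0))) := by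
    have h1 : ε * (x * YR R O y) = ∑ x0 ∈ D, ∑ e ∈ U1 d,
        ε * (x * (if e ∉ Lb0 R O x0 then psi (Del.ofSet (Lb0 R O x0)) e else 0)) := by
      rw [hYR, Finset.mul_sum, Finset.mul_sum]
      refine Finset.sum_congr rfl fun x0 _ => ?_
      unfold gL
      rw [Finset.mul_sum, Finset.mul_sum]
    rw [h1, ENNReal.ofReal_sum_of_nonneg (fun x0 _ => Finset.sum_nonneg fun e _ =>
      mul_nonneg hε (mul_nonneg hx (hnn x0 e)))]
    refine Finset.sum_congr rfl fun x0 _ => ?_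
    exact ENNReal.ofReal_sum_of_nonneg fun e _ => mul_nonneg hε (mul_nonneg hx (hnn x0 e))
  -- the union
  set U : Set (V d) := (A : Set (V d)) ∪ D with hU
  -- the bound of one term
  have hterm : ∀ x0 ∈ D, ∀ e ∈ U1 d,
      ENNReal.ofReal (ε * (x * (if e ∉ Lb0 R O x0 then psi (Del.ofSet (Lb0 R O x0)) e else 0))) ≤
        (if x0 + e ∉ U then fr p n r U (x0 + e) else 0) +
          c * ∑' z : V d, (U \ Lb R O x0).indicator (fun z => t4 (z - (x0 + e))) z +
          ENNReal.ofReal (δ1 * ε) := by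
    intro x0 hx0 e he
    by_cases h1 : e ∉ Lb0 R O x0
    · rw [if_pos h1]
      have hK : (((hLf x0).toFinset : Finset (V d)) : Set (V d)) = Lb0 R O x0 :=
        (hLf x0).coe_toFinset
      have h2 := hH (hLf x0).toFinset (by rw [hK]; exact Lb0_subset R O x0)
        (by rw [Set.Finite.mem_toFinset]; exact zero_mem_Lb0 R O x0) e he
        (by rw [Set.Finite.mem_toFinset]; exact h1)
      unfold psiK at h2
      rw [hK] at h2
      have hfr : fr p n r (Lb0 R O x0) e ≠ ⊤ := ne_top_of_le_ne_top ENNReal.one_ne_top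
        (fr_le_one p n r _ e)
      have h3 : ENNReal.ofReal (ε * (x * psi (Del.ofSet (Lb0 R O x0)) e)) ≤
          fr p n r (Lb0 R O x0) e + ENNReal.ofReal (δ1 * ε) := by
        calc ENNReal.ofReal (ε * (x * psi (Del.ofSet (Lb0 R O x0)) e))
            ≤ ENNReal.ofReal ((fr p n r (Lb0 R O x0) e).toReal + δ1 * ε) := by
              apply ENNReal.ofReal_le_ofReal
              linarith
          _ ≤ ENNReal.ofReal (fr p n r (Lb0 R O x0) e).toReal + ENNReal.ofReal (δ1 * ε) :=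
              ENNReal.ofReal_add_le
          _ = _ := by rw [ENNReal.ofReal_toReal hfr]
      refine h3.trans (add_le_add ?_ le_rfl)
      -- shift
      have himg : (fun z => z + x0) '' (Lb0 R O x0) = Lb R O x0 := by
        unfold Lb0
        rw [Set.image_image]
        simp only [sub_add_cancel, Set.image_id']
      have h4 : fr p n r (Lb0 R O x0) e = fr p n r (Lb R O x0) (x0 + e) := by
        rw [← fr_shift p n r (Lb0 R O x0) e x0, himg, add_comm e x0]
      rw [h4]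
      have hsub : Lb R O x0 ⊆ U := by
        intro z hz
        have h5 : z ∈ Cl O x0 := Lb_subset R O x0 hz
        have h6' : x0 ∈ Cl O y := by rw [hO]; exact hx0
        have h7 : z ∈ Cl O y := Rch.trans h6' h5
        rw [hO] at h7
        exact Or.inr h7
      by_cases h5 : x0 + e ∈ U
      · rw [if_neg (not_not.2 h5), zero_add]
        have h6' : x0 + e ∉ Lb R O x0 := by
          intro h7
          apply h1
          refine ⟨x0 + e, h7, ?_⟩
          simp
        calc fr p n r (Lb R O x0) (x0 + e) ≤ c := hc.f_le _ _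
          _ = c * 1 := (mul_one c).symm
          _ ≤ c * t4 (0 : V d) := by gcongr; exact one_le_t4_zero
          _ = c * (U \ Lb R O x0).indicator (fun z => t4 (z - (x0 + e))) (x0 + e) := by
              rw [Set.indicator_of_mem (show x0 + e ∈ U \ Lb R O x0 from ⟨h5, h6'⟩), sub_self]
          _ ≤ _ := by gcongr; exact ENNReal.le_tsum _
      · rw [if_pos h5]
        exact hc.single _ _ _ hsub h5
    · rw [if_neg h1, mul_zero, mul_zero, ENNReal.ofReal_zero]
      exact zero_le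
  rw [hleft]
  refine (Finset.sum_le_sum fun x0 hx0 => Finset.sum_le_sum fun e he => hterm x0 hx0 e he).trans ?_
  simp only [Finset.sum_add_distrib]
  -- first part
  have hA1 : ∑ x0 ∈ D, ∑ e ∈ U1 d, (if x0 + e ∉ U then fr p n r U (x0 + e) else 0) ≤
      ∑ q ∈ bp D (Del.ofSet (A : Set (V d))), fr p n r U q.2 := by
    rw [← Finset.sum_product', ← Finset.sum_filter]
    have h1 : ∑ q ∈ (D ×ˢ U1 d).filter (fun q => q.1 + q.2 ∉ U), fr p n r U (q.1 + q.2) =
        ∑ q ∈ ((D ×ˢ U1 d).filter (fun q => q.1 + q.2 ∉ U)).image (fun q => (q.1, q.1 + q.2)),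
          fr p n r U q.2 := by
      rw [Finset.sum_image]
      rintro ⟨a, b⟩ _ ⟨a', b'⟩ _ h
      simp only [Prod.mk.injEq] at h
      obtain ⟨h1, h2⟩ := h
      subst h1
      rw [add_left_cancel h2]
    rw [h1]
    refine Finset.sum_le_sum_of_subset ?_
    intro q hq
    rw [Finset.mem_image] at hq
    obtain ⟨⟨a, b⟩, h2, rfl⟩ := hq
    rw [Finset.mem_filter, Finset.mem_product] at h2
    obtain ⟨⟨ha, hb⟩, h3⟩ := h2
    rw [mem_bp]
    refine ⟨ha, fun h4 => h3 (Or.inr h4), fun h4 => h3 (Or.inl h4), fun h4 => h4, ?_⟩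
    simp only [add_sub_cancel_left]
    exact (mem_U1 b).1 hb
  -- second part
  have hB1 : ∀ x0 ∈ D, ∑ e ∈ U1 d,
      c * ∑' z : V d, (U \ Lb R O x0).indicator (fun z => t4 (z - (x0 + e))) z ≤
        c * (∑ z ∈ A, t1 (z - x0)) + c * ∑' z : V d, Set.indicator
          {q : V d × V d | q.1 ∈ Cl O y ∧ q.2 ∈ Cl O y ∧ q.2 ∉ Lb R O q.1}
            (fun q => t1 (q.2 - q.1)) (x0, z) := by
    intro x0 hx0
    rw [← Finset.mul_sum, ← mul_add]
    gcongr
    rw [← Summable.tsum_finsetSum (fun _ _ => ENNReal.summable)]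
    have h1 : ∑ z ∈ A, t1 (z - x0) = ∑' z : V d, (A : Set (V d)).indicator (fun z => t1 (z - x0)) z := by
      rw [tsum_eq_sum (s := A) (fun z hz => Set.indicator_of_notMem (by simpa using hz) _)]
      exact Finset.sum_congr rfl fun z hz =>
        (Set.indicator_of_mem (Finset.mem_coe.2 hz) (fun z => t1 (z - x0))).symm
    rw [h1, ← ENNReal.tsum_add]
    refine ENNReal.tsum_le_tsum fun z => ?_
    by_cases h2 : z ∈ U \ Lb R O x0
    · have h3 : ∑ e ∈ U1 d, (U \ Lb R O x0).indicator (fun z => t4 (z - (x0 + e))) z =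
          t1 (z - x0) := by
        unfold t1
        refine Finset.sum_congr rfl fun e _ => ?_
        rw [Set.indicator_of_mem h2, sub_sub]
      rw [h3]
      rcases h2.1 with h4 | h4
      · rw [Set.indicator_of_mem h4]
        exact le_self_add
      · refine le_trans ?_ le_add_self
        rw [Set.indicator_of_mem]
        exact ⟨by rw [hO]; exact hx0, by rw [hO]; exact h4, h2.2⟩
    · have h3 : ∑ e ∈ U1 d, (U \ Lb R O x0).indicator (fun z => t4 (z - (x0 + e))) z = 0 :=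
        Finset.sum_eq_zero fun e _ => Set.indicator_of_notMem h2 _
      rw [h3]
      exact zero_le
  have hB2 : ∑ x0 ∈ D, ∑ e ∈ U1 d,
      c * ∑' z : V d, (U \ Lb R O x0).indicator (fun z => t4 (z - (x0 + e))) z ≤
        c * (∑ z ∈ A, ∑ x0 ∈ D, t1 (z - x0)) + c * nlSum R t1 O y := by
    refine (Finset.sum_le_sum hB1).trans ?_
    rw [Finset.sum_add_distrib, ← Finset.mul_sum, ← Finset.mul_sum, Finset.sum_comm]
    gcongr
    unfold nlSum
    exact ENNReal.sum_le_tsum D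
  -- third part
  have hC1 : ∑ _x0 ∈ D, ∑ _e ∈ U1 d, ENNReal.ofReal (δ1 * ε) =
      ENNReal.ofReal (ε * (2 * d * δ1) * D.card) := by
    rw [Finset.sum_const, Finset.sum_const, card_U1, nsmul_eq_mul, nsmul_eq_mul,
      ← ENNReal.ofReal_natCast, ← ENNReal.ofReal_natCast, ← ENNReal.ofReal_mul (by positivity),
      ← ENNReal.ofReal_mul (by positivity)]
    congr 1
    push_cast
    ring
  rw [hC1]
  calc _ ≤ ∑ q ∈ bp D (Del.ofSet (A : Set (V d))), fr p n r U q.2 +
        (c * (∑ z ∈ A, ∑ x0 ∈ D, t1 (z - x0)) + c * nlSum R t1 O y) +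
        ENNReal.ofReal (ε * (2 * d * δ1) * D.card) := by
        gcongr
    _ = _ := by ring

end Pool.Agent.PB.Low
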