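import Pool.Agent.PB.Low.Ev

/-!
# PROJECT PB, Section 11, LOW-Lift: the ghost lift

A countable family of edge events `E z` on which the cluster of `z` is big: at the cost of a factor 2 the cluster
of `z` contains a ghost.

PLAN. `V d` is countable: choose an enumeration (`exists_injective_nat` / `Encodable`) and disjointify, or directly:
let `E' z = E z \ ⋃_{z' before z} E z'`, where `before` refers to an injection `V d → ℕ`
(`(Countable.exists_injective_nat (V d))`). The `E' z` are measurable, depend only on labels off `gI d false`,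
pairwise disjoint, `⋃ E' z = ⋃ E z` (least index).
For each `z`: `lintegral_ghost_hit` (P/Expl.lean) with `b = false`, `h = 1 / n`, `C ω = Cl (A.rem (Oc ω)) z`
(`MES.cl`, depends off `gI`: see `dep_Cl_opn_gI`), `F = (E' z).indicator 1`:
`Pr (E' z ∩ {∃ g ∈ ghost, g ∈ C}) = ∫ 1_{E' z} (1 - ex (1/n) (C ω)) ≥ (1/2) Pr (E' z)`, since on `E' z`:
`ex (1/n) C ≤ ofReal (exp (-1)) ≤ 1/2` (`ex_inf`, `ex_fin`, `Real.exp_one_gt_d9` or `Real.exp_one_gt_two`).
Sum over `z`: `Pr (⋃ E z) = Σ Pr (E' z) ≤ 2 Σ Pr (E' z ∩ hit z) = 2 Pr (⋃ (E' z ∩ hit z)) ≤ 2 Pr T`.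
(`T` need not be measurable: `measure_mono`.)
-/

set_option autoImplicit false
open MeasureTheory Filter Topology
open scoped ENNReal BigOperators

namespace Pool.Agent.PB.Low

variable {d : ℕ}

private theorem lift_half {n : ℝ} (hn : 0 < n) {O : Set (Sym2 (V d))} {z : V d} (h : Big n O z) :
    (1 / 2 : ℝ≥0∞) ≤ 1 - ex (1 / n) (Cl O z) := by
  have hle : ex (1 / n) (Cl O z) ≤ ENNReal.ofReal (1 / 2) := by
    by_cases hf : (Cl O z).Finite
    · rcases h with h | h
      · exact absurd hf h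
      · rw [ex_fin _ hf]
        refine ENNReal.ofReal_le_ofReal ?_
        have h1 : 1 ≤ 1 / n * ((Cl O z).ncard : ℝ) := by
          rw [div_mul_eq_mul_div, one_mul, one_le_div hn]; exact h
        have h2 : Real.exp (-(1 / n * ((Cl O z).ncard : ℝ))) ≤ Real.exp (-1) :=
          Real.exp_le_exp.2 (by linarith)
        have h3 : Real.exp (-1) ≤ 1 / 2 := by
          rw [Real.exp_neg, one_div]
          exact inv_anti₀ two_pos (by linarith [Real.exp_one_gt_d9])
        exact h2.trans h3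
    · rw [ex_inf _ hf]; exact zero_le
  have h2 : ENNReal.ofReal (1 / 2) = 1 / 2 := by
    rw [ENNReal.ofReal_div_of_pos two_pos, ENNReal.ofReal_one, ENNReal.ofReal_ofNat]
  rw [h2] at hle
  calc (1 / 2 : ℝ≥0∞) = 1 - 1 / 2 := by rw [one_div, ENNReal.one_sub_inv_two]
    _ ≤ _ := tsub_le_tsub_left hle 1

theorem ghost_lift {n : ℝ} (hn : 0 < n) (A : Del (V d)) {E : V d → Set (Om d)}
    (hE : ∀ z, MeasurableSet (E z)) (hdep : ∀ z, DependsOn (fun ω => ω ∈ E z) (gI d false)ᶜ)
    (hbig : ∀ z, ∀ ω ∈ E z, Big n (A.rem (Oc ω)) z) {T : Set (Om d)}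
    (hT : ∀ z, ∀ ω ∈ E z, (∃ g ∈ ghost false (1 / n) ω, g ∈ Cl (A.rem (Oc ω)) z) → ω ∈ T) :
    Pr d (⋃ z, E z) ≤ 2 * Pr d T := by
  obtain ⟨i, hi⟩ := Countable.exists_injective_nat (V d)
  set E' : V d → Set (Om d) := fun z => E z ∩ ⋂ z' : V d, ⋂ _ : i z' < i z, (E z')ᶜ with hE'
  have hsub : ∀ z, E' z ⊆ E z := fun z => Set.inter_subset_left
  have hm : ∀ z, MeasurableSet (E' z) := fun z =>
    (hE z).inter (MeasurableSet.iInter fun z' => MeasurableSet.iInter fun _ => (hE z').compl)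
  have hd : ∀ z, DependsOn (fun ω => ω ∈ E' z) (gI d false)ᶜ := by
    intro z ω ω' hω
    have h1 : ∀ z', (ω ∈ E z') = (ω' ∈ E z') := fun z' => hdep z' hω
    simp only [hE', Set.mem_inter_iff, Set.mem_iInter, Set.mem_compl_iff, h1]
  have hdisj : Pairwise (Function.onFun Disjoint E') := by
    intro z z' hne
    rw [Function.onFun, Set.disjoint_left]
    rintro ω ⟨h1, h2⟩ ⟨h3, h4⟩
    simp only [Set.mem_iInter, Set.mem_compl_iff] at h2 h4
    rcases lt_trichotomy (i z) (i z') with h | h | h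
    · exact h4 z h h1
    · exact hne (hi h)
    · exact h2 z' h h3
  have hun : (⋃ z, E z) ⊆ ⋃ z, E' z := by
    intro ω hω
    rw [Set.mem_iUnion] at hω
    classical
    have hex : ∃ k : ℕ, ∃ z, i z = k ∧ ω ∈ E z := by
      obtain ⟨z, hz⟩ := hω
      exact ⟨i z, z, rfl, hz⟩
    obtain ⟨z, hz1, hz2⟩ := Nat.find_spec hex
    rw [Set.mem_iUnion]
    refine ⟨z, hz2, ?_⟩
    simp only [Set.mem_iInter, Set.mem_compl_iff]
    intro z' hz' hmem
    rw [hz1] at hz'
    exact Nat.find_min hex hz' ⟨z', rfl, hmem⟩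
  set hit : V d → Set (Om d) := fun z =>
    {ω | ∃ g ∈ ghost false (1 / n) ω, g ∈ Cl (A.rem (Oc ω)) z} with hhit
  have hC : ∀ z, MVS (fun ω : Om d => Cl (A.rem (Oc ω)) z) := fun z => ((opn_MES (pc d)).rem A).cl z
  have hhm : ∀ z, MeasurableSet (hit z) := fun z => (hC z).inter_nonempty (ghost_MVS false (1 / n))
  have hCd : ∀ z, DependsOn (fun ω : Om d => Cl (A.rem (Oc ω)) z) (gI d false)ᶜ := by
    intro z
    have h1 := dep_opn (d := d) (pc d) Set.univ (S := (gI d false)ᶜ) (fun e _ => by simp [gI])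
    intro ω ω' h
    have h2 := h1 h
    simp only [Set.inter_univ] at h2
    show Cl (A.rem (opn (pc d) ω)) z = Cl (A.rem (opn (pc d) ω')) z
    rw [h2]
  have key : ∀ z, Pr d (E' z) ≤ 2 * Pr d (E' z ∩ hit z) := by
    intro z
    have h1 := lintegral_ghost_hit (d := d) false (one_div_pos.2 hn) (hC z) (hCd z)
      (F := (E' z).indicator 1) (measurable_one.indicator (hm z))
      (fun ω ω' h => by
        have := hd z h
        simp only [eq_iff_iff] at this
        by_cases hω : ω ∈ E' z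
        · rw [Set.indicator_of_mem hω, Set.indicator_of_mem (this.1 hω)]; rfl
        · rw [Set.indicator_of_notMem hω, Set.indicator_of_notMem (fun h' => hω (this.2 h'))])
    have h2 : ∫⁻ ω in hit z, (E' z).indicator 1 ω ∂Pr d = Pr d (E' z ∩ hit z) := by
      rw [lintegral_indicator_one (hm z), Measure.restrict_apply (hm z)]
    have h3 : (1 / 2 : ℝ≥0∞) * Pr d (E' z) ≤
        ∫⁻ ω, (E' z).indicator 1 ω * (1 - ex (1 / n) (Cl (A.rem (Oc ω)) z)) ∂Pr d := by
      rw [← lintegral_indicator_one (hm z), ← lintegral_const_mul _ (measurable_one.indicator (hm z))]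
      refine lintegral_mono fun ω => ?_
      by_cases hω : ω ∈ E' z
      · simp only [Set.indicator_of_mem hω, Pi.one_apply, one_mul, mul_one]
        exact lift_half hn (hbig z ω (hsub z hω))
      · simp only [Set.indicator_of_notMem hω, zero_mul, mul_zero]; exact le_rfl
    have h4 : (1 / 2 : ℝ≥0∞) * Pr d (E' z) ≤ Pr d (E' z ∩ hit z) := by
      rw [← h2]
      exact h3.trans (le_of_eq h1.symm)
    calc Pr d (E' z) = 2 * ((1 / 2 : ℝ≥0∞) * Pr d (E' z)) := by
          rw [← mul_assoc, one_div, ENNReal.mul_inv_cancel two_ne_zero ENNReal.ofNat_ne_top, one_mul]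
      _ ≤ _ := mul_le_mul' le_rfl h4
  have hdisj2 : Pairwise (Function.onFun Disjoint (fun z => E' z ∩ hit z)) := fun z z' hne =>
    (hdisj hne).mono Set.inter_subset_left Set.inter_subset_left
  calc Pr d (⋃ z, E z) ≤ Pr d (⋃ z, E' z) := measure_mono hun
    _ = ∑' z, Pr d (E' z) := measure_iUnion hdisj hm
    _ ≤ ∑' z, 2 * Pr d (E' z ∩ hit z) := ENNReal.tsum_le_tsum key
    _ = 2 * ∑' z, Pr d (E' z ∩ hit z) := ENNReal.tsum_mul_left
    _ = 2 * Pr d (⋃ z, E' z ∩ hit z) := by
        rw [measure_iUnion hdisj2 (fun z => (hm z).inter (hhm z))]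
    _ ≤ 2 * Pr d T := by
        refine mul_le_mul' le_rfl (measure_mono ?_)
        intro ω hω
        obtain ⟨z, hz1, hz2⟩ := Set.mem_iUnion.1 hω
        exact hT z ω (hsub z hz1) hz2

end Pool.Agent.PB.Low
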