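import Pool.Agent.PB.Low.Defs
import Pool.Agent.PB.P.Loc
import Pool.Agent.PB.P.Act

/-!
# PROJECT PB, Section 11, LOW-LocG: locality and translation covariance of the good event and of `Y`

`Agree O O' y`: `O` and `O'` agree on the edges touching the cluster of `y` in `O`.
-/

set_option autoImplicit false
open MeasureTheory Filter Topology
open scoped ENNReal BigOperators

namespace Pool.Agent.PB.Low

variable {d : ℕ}

theorem Cl_agree {O O' : Set (Sym2 (V d))} {y : V d} (h : Agree O O' y) : Cl O' y = Cl O y := by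
  have h1 : O ∩ touch (Cl O y) = O' ∩ touch (Cl O y) := by
    ext e
    constructor
    · rintro ⟨h2, h3⟩
      exact ⟨(h e h3).1 h2, h3⟩
    · rintro ⟨h2, h3⟩
      exact ⟨(h e h3).2 h2, h3⟩
  exact (Cl_eq_congr (y := y) h1).1 rfl

private theorem agree_symm {O O' : Set (Sym2 (V d))} {y : V d} (h : Agree O O' y) :
    Agree O' O y := by
  intro e he
  rw [Cl_agree h] at he
  exact (h e he).symm

private theorem RchL_agree_aux {O O' : Set (Sym2 (V d))} {y : V d} (h : Agree O O' y) (r : ℕ)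
    (z : V d) (hz : RchL O r y z) : RchL O' r y z := by
  induction r generalizing z with
  | zero => exact hz
  | succ n ih =>
    rcases hz with hz | ⟨w, hw, hwz⟩
    · exact Or.inl (ih z hz)
    · refine Or.inr ⟨w, ih w hw, (h _ ?_).1 hwz⟩
      exact mem_touch_left (hw.rch : w ∈ Cl O y)

theorem RchL_agree {O O' : Set (Sym2 (V d))} {y : V d} (h : Agree O O' y) (r : ℕ) (z : V d) :
    RchL O r y z ↔ RchL O' r y z :=
  ⟨RchL_agree_aux h r z, RchL_agree_aux (agree_symm h) r z⟩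

private theorem Lb_agree_aux {O O' : Set (Sym2 (V d))} {y : V d} (h : Agree O O' y) (R : ℕ)
    {x : V d} (hx : x ∈ Cl O y) : Lb R O x ⊆ Lb R O' x := by
  intro z hz
  have h1 : z ∈ Cl O y ∧ Rch (O' ∩ ins (bx R x)) x z := by
    refine Rch.induct (O := O ∩ ins (bx R x))
      (P := fun z => z ∈ Cl O y ∧ Rch (O' ∩ ins (bx R x)) x z) ⟨hx, Rch.refl _ _⟩ ?_ hz
    rintro a b _ hab ⟨ha, hr⟩
    exact ⟨Cl_closed ha hab.1, hr.tail ⟨(h _ (mem_touch_left ha)).1 hab.1, hab.2⟩⟩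
  exact h1.2

theorem Lb_agree {O O' : Set (Sym2 (V d))} {y : V d} (h : Agree O O' y) (R : ℕ) {x : V d}
    (hx : x ∈ Cl O y) : Lb R O' x = Lb R O x := by
  refine Set.Subset.antisymm (Lb_agree_aux (agree_symm h) R ?_) (Lb_agree_aux h R hx)
  rw [Cl_agree h]
  exact hx

/-- local clusters are inside the cluster -/
theorem Lb_subset (R : ℕ) (O : Set (Sym2 (V d))) (x : V d) : Lb R O x ⊆ Cl O x :=
  Cl_mono Set.inter_subset_left x

private theorem self_mem_bx (R : ℕ) (x : V d) : x ∈ bx R x := by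
  intro i
  simp

private theorem Lb_subset_bx (R : ℕ) (O : Set (Sym2 (V d))) (x : V d) : Lb R O x ⊆ bx R x := by
  intro z hz
  refine Rch.induct (O := O ∩ ins (bx R x)) (P := fun z => z ∈ bx R x) (self_mem_bx R x) ?_ hz
  intro a b _ hab _
  exact hab.2 b (Sym2.mem_mk_right a b)

/-- local clusters are inside the box -/
theorem Lb0_subset (R : ℕ) (O : Set (Sym2 (V d))) (x : V d) : Lb0 R O x ⊆ bx R 0 := by
  rintro _ ⟨z, hz, rfl⟩
  have h1 := Lb_subset_bx R O x hz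
  intro i
  have h2 := h1 i
  simpa using h2

theorem zero_mem_Lb0 (R : ℕ) (O : Set (Sym2 (V d))) (x : V d) : (0 : V d) ∈ Lb0 R O x :=
  ⟨x, self_mem_Cl _ x, sub_self x⟩

theorem Lb_finite (R : ℕ) (O : Set (Sym2 (V d))) (x : V d) : (Lb R O x).Finite := by
  refine (Set.finite_Icc (fun i => x i - (R : ℤ)) (fun i => x i + (R : ℤ))).subset ?_
  intro z hz
  have h1 := Lb_subset_bx R O x hz
  refine ⟨fun i => ?_, fun i => ?_⟩
  · have h2 := abs_le.1 (h1 i)
    show x i - (R : ℤ) ≤ z i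
    linarith [h2.1]
  · have h2 := abs_le.1 (h1 i)
    show z i ≤ x i + (R : ℤ)
    linarith [h2.2]

theorem nlSum_agree {O O' : Set (Sym2 (V d))} {y : V d} (h : Agree O O' y) (R : ℕ)
    (t : V d → ℝ≥0∞) : nlSum R t O' y = nlSum R t O y := by
  have h1 : {q : V d × V d | q.1 ∈ Cl O' y ∧ q.2 ∈ Cl O' y ∧ q.2 ∉ Lb R O' q.1} =
      {q : V d × V d | q.1 ∈ Cl O y ∧ q.2 ∈ Cl O y ∧ q.2 ∉ Lb R O q.1} := by
    ext q
    simp only [Set.mem_ofPred_eq, Cl_agree h]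
    constructor
    · rintro ⟨h2, h3, h4⟩
      exact ⟨h2, h3, by rwa [← Lb_agree h R h2]⟩
    · rintro ⟨h2, h3, h4⟩
      exact ⟨h2, h3, by rwa [Lb_agree h R h2]⟩
  unfold nlSum
  rw [h1]

theorem pairSum_agree {O O' : Set (Sym2 (V d))} {y : V d} (h : Agree O O' y)
    (t : V d → ℝ≥0∞) : pairSum t O' y = pairSum t O y := by
  unfold pairSum
  rw [Cl_agree h]

theorem YR_agree {O O' : Set (Sym2 (V d))} {y : V d} (h : Agree O O' y) (R : ℕ) :
    YR R O' y = YR R O y := by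
  classical
  unfold YR Yf
  by_cases hf : (Cl O y).Finite
  · have hf' : (Cl O' y).Finite := by rw [Cl_agree h]; exact hf
    rw [dif_pos hf, dif_pos hf']
    refine Finset.sum_congr ?_ ?_
    · ext x
      rw [Set.Finite.mem_toFinset, Set.Finite.mem_toFinset, Cl_agree h]
    · intro x hx
      rw [Set.Finite.mem_toFinset] at hx
      have h2 : Lb0 R O' x = Lb0 R O x := by
        unfold Lb0
        rw [Lb_agree h R hx]
      rw [h2]
  · have hf' : ¬ (Cl O' y).Finite := by rw [Cl_agree h]; exact hf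
    rw [dif_neg hf, dif_neg hf']

theorem Nc_agree {O O' : Set (Sym2 (V d))} {y : V d} (h : Agree O O' y) : Nc O' y = Nc O y := by
  unfold Nc
  rw [Cl_agree h]

private theorem G1_agree {O O' : Set (Sym2 (V d))} {y : V d} (h : Agree O O' y) (π : Par)
    (s : ℝ) : G1 π s O' y ↔ G1 π s O y := by
  unfold G1
  rw [Nc_agree h]

private theorem G2_agree {O O' : Set (Sym2 (V d))} {y : V d} (h : Agree O O' y) (r0 : ℕ) :
    G2 r0 O' y ↔ G2 r0 O y := by
  unfold G2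
  rw [Cl_agree h]
  exact forall_congr' fun z => by rw [RchL_agree h]

private theorem G3_agree {O O' : Set (Sym2 (V d))} {y : V d} (h : Agree O O' y) (π : Par) :
    G3 π O' y ↔ G3 π O y := by
  unfold G3
  rw [nlSum_agree h, Nc_agree h]

private theorem G4_agree {O O' : Set (Sym2 (V d))} {y : V d} (h : Agree O O' y) (Lam : ℝ) :
    G4 Lam O' y ↔ G4 Lam O y := by
  unfold G4
  rw [pairSum_agree h, Nc_agree h]

theorem Good_agree {O O' : Set (Sym2 (V d))} {y : V d} (h : Agree O O' y) (π : Par) (s Lam : ℝ)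
    (r0 : ℕ) : Good π s Lam r0 O' y ↔ Good π s Lam r0 O y := by
  unfold Good
  rw [G1_agree h, G2_agree h, G3_agree h, G4_agree h]

theorem isLocal_G13 (π : Par) (s : ℝ) (y : V d) :
    IsLocal y (fun O => G1 π s O y ∧ ¬ G3 π O y) := by
  intro O O' _ h
  have h' : Agree O O' y := h
  show (G1 π s O y ∧ ¬ G3 π O y) ↔ (G1 π s O' y ∧ ¬ G3 π O' y)
  rw [G1_agree h', G3_agree h']

theorem isLocal_G14 (π : Par) (s Lam : ℝ) (y : V d) :
    IsLocal y (fun O => G1 π s O y ∧ ¬ G4 Lam O y) := by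
  intro O O' _ h
  have h' : Agree O O' y := h
  show (G1 π s O y ∧ ¬ G4 Lam O y) ↔ (G1 π s O' y ∧ ¬ G4 Lam O' y)
  rw [G1_agree h', G4_agree h']

/-! ### translations -/

/-- `O2` is `O1` seen through the translation by `a` -/
private def Sh (a : V d) (O2 O1 : Set (Sym2 (V d))) : Prop :=
  ∀ x z : V d, s(x, z) ∈ O2 ↔ s(x + a, z + a) ∈ O1

private theorem Sh_Cl {a : V d} {O2 O1 : Set (Sym2 (V d))} (h : Sh a O2 O1) (x z : V d) :
    z ∈ Cl O2 x ↔ z + a ∈ Cl O1 (x + a) :=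
  Rch_equiv (Equiv.addRight a) (fun b c => h b c) x z

private theorem mem_bx_add (R : ℕ) (a x z : V d) : z + a ∈ bx R (x + a) ↔ z ∈ bx R x := by
  unfold bx
  simp only [Set.mem_ofPred_eq, Pi.add_apply, add_sub_add_right_eq_sub]

private theorem Sh_ins {a : V d} {O2 O1 : Set (Sym2 (V d))} (h : Sh a O2 O1) (R : ℕ) (x : V d) :
    Sh a (O2 ∩ ins (bx R x)) (O1 ∩ ins (bx R (x + a))) := by
  intro b c
  have h1 : s(b, c) ∈ ins (bx R x) ↔ s(b + a, c + a) ∈ ins (bx R (x + a)) := by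
    unfold ins
    simp only [Set.mem_ofPred_eq, Sym2.mem_iff, forall_eq_or_imp, forall_eq, mem_bx_add]
  rw [Set.mem_inter_iff, Set.mem_inter_iff, h b c, h1]

private theorem Sh_Lb {a : V d} {O2 O1 : Set (Sym2 (V d))} (h : Sh a O2 O1) (R : ℕ) (x z : V d) :
    z ∈ Lb R O2 x ↔ z + a ∈ Lb R O1 (x + a) :=
  Sh_Cl (Sh_ins h R x) x z

private theorem Sh_Nc {a : V d} {O2 O1 : Set (Sym2 (V d))} (h : Sh a O2 O1) (x : V d) :
    Nc O2 x = Nc O1 (x + a) := by
  unfold Nc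
  have h1 : (fun z : V d => z + a) '' Cl O2 x = Cl O1 (x + a) := by
    ext w
    constructor
    · rintro ⟨z, hz, rfl⟩
      exact (Sh_Cl h x z).1 hz
    · intro hw
      refine ⟨w - a, (Sh_Cl h x (w - a)).2 ?_, sub_add_cancel w a⟩
      rw [sub_add_cancel]
      exact hw
  rw [← h1, Set.ncard_image_of_injective _ (add_left_injective a)]

private theorem tsum_shift2 (a : V d) (F : V d × V d → ℝ≥0∞) :
    ∑' x : V d, ∑' z : V d, F (x, z) = ∑' x : V d, ∑' z : V d, F (x + a, z + a) := by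
  rw [← (Equiv.addRight a).tsum_eq (fun x => ∑' z : V d, F (x, z))]
  refine tsum_congr fun x => ?_
  rw [← (Equiv.addRight a).tsum_eq (fun z => F ((Equiv.addRight a) x, z))]
  rfl

private theorem Sh_nlSum {a : V d} {O2 O1 : Set (Sym2 (V d))} (h : Sh a O2 O1) (R : ℕ)
    (t : V d → ℝ≥0∞) (y : V d) : nlSum R t O2 y = nlSum R t O1 (y + a) := by
  classical
  unfold nlSum
  rw [tsum_shift2 a (fun q => Set.indicator {q : V d × V d | q.1 ∈ Cl O1 (y + a) ∧
    q.2 ∈ Cl O1 (y + a) ∧ q.2 ∉ Lb R O1 q.1} (fun q => t (q.2 - q.1)) q)]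
  refine tsum_congr fun x => tsum_congr fun z => ?_
  simp only [Set.indicator_apply, Set.mem_ofPred_eq, add_sub_add_right_eq_sub]
  have h1 : (x ∈ Cl O2 y ∧ z ∈ Cl O2 y ∧ z ∉ Lb R O2 x) ↔
      (x + a ∈ Cl O1 (y + a) ∧ z + a ∈ Cl O1 (y + a) ∧ z + a ∉ Lb R O1 (x + a)) := by
    rw [Sh_Cl h, Sh_Cl h, Sh_Lb h]
  simp only [h1]

private theorem Sh_pairSum {a : V d} {O2 O1 : Set (Sym2 (V d))} (h : Sh a O2 O1)
    (t : V d → ℝ≥0∞) (y : V d) : pairSum t O2 y = pairSum t O1 (y + a) := by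
  classical
  unfold pairSum
  rw [tsum_shift2 a (fun q => Set.indicator {q : V d × V d | q.1 ∈ Cl O1 (y + a) ∧
    q.2 ∈ Cl O1 (y + a)} (fun q => t (q.2 - q.1)) q)]
  refine tsum_congr fun x => tsum_congr fun z => ?_
  simp only [Set.indicator_apply, Set.mem_ofPred_eq, add_sub_add_right_eq_sub]
  have h1 : (x ∈ Cl O2 y ∧ z ∈ Cl O2 y) ↔
      (x + a ∈ Cl O1 (y + a) ∧ z + a ∈ Cl O1 (y + a)) := by
    rw [Sh_Cl h, Sh_Cl h]
  simp only [h1]

private theorem Sh_Oc (a : V d) (ω : Om d) : Sh a (Oc (act (trI a) ω)) (Oc ω) :=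
  fun x z => mem_opn_act (trI_aut a) (pc d) ω x z

private theorem Sh_G1 {a : V d} {O2 O1 : Set (Sym2 (V d))} (h : Sh a O2 O1) (π : Par) (s : ℝ)
    (y : V d) : G1 π s O2 y ↔ G1 π s O1 (y + a) := by
  unfold G1
  rw [Sh_Nc h]

private theorem Sh_G3 {a : V d} {O2 O1 : Set (Sym2 (V d))} (h : Sh a O2 O1) (π : Par)
    (y : V d) : G3 π O2 y ↔ G3 π O1 (y + a) := by
  unfold G3
  rw [Sh_Nc h, Sh_nlSum h]

private theorem Sh_G4 {a : V d} {O2 O1 : Set (Sym2 (V d))} (h : Sh a O2 O1) (Lam : ℝ)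
    (y : V d) : G4 Lam O2 y ↔ G4 Lam O1 (y + a) := by
  unfold G4
  rw [Sh_Nc h, Sh_pairSum h]

theorem Pr_shift_G13 (π : Par) (s : ℝ) (y : V d) :
    Pr d {ω | G1 π s (Oc ω) y ∧ ¬ G3 π (Oc ω) y} =
      Pr d {ω : Om d | G1 π s (Oc ω) 0 ∧ ¬ G3 π (Oc ω) 0} := by
  rw [← Pr_act (trI y) {ω : Om d | G1 π s (Oc ω) 0 ∧ ¬ G3 π (Oc ω) 0}]
  congr 1
  ext ω
  simp only [Set.mem_ofPred_eq]
  rw [Sh_G1 (Sh_Oc y ω), Sh_G3 (Sh_Oc y ω), zero_add]

theorem Pr_shift_G14 (π : Par) (s Lam : ℝ) (y : V d) :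
    Pr d {ω | G1 π s (Oc ω) y ∧ ¬ G4 Lam (Oc ω) y} =
      Pr d {ω : Om d | G1 π s (Oc ω) 0 ∧ ¬ G4 Lam (Oc ω) 0} := by
  rw [← Pr_act (trI y) {ω : Om d | G1 π s (Oc ω) 0 ∧ ¬ G4 Lam (Oc ω) 0}]
  congr 1
  ext ω
  simp only [Set.mem_ofPred_eq]
  rw [Sh_G1 (Sh_Oc y ω), Sh_G4 (Sh_Oc y ω), zero_add]

/-- the configuration of the explored cluster agrees with the full configuration -/
theorem agree_cfg {A : Set (V d)} {y : V d} {D : Finset (V d)} (hy : y ∉ A) {ω : Om d}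
    (h : ω ∈ EvK (Del.ofSet A) y D) :
    Agree ((Del.ofSet A).rem (Oc ω)) (cfg (Del.ofSet A) D ω) y := by
  have h1 : Cl ((Del.ofSet A).rem (Oc ω)) y = (D : Set (V d)) := by
    have h2 : ClA (Del.ofSet A) (Oc ω) y = (D : Set (V d)) := h
    rw [← h2]
    ext x
    rw [mem_ClA, mem_Cl]
    exact ⟨fun hx => ⟨hy, hx⟩, fun hx => hx.2⟩
  intro e he
  rw [h1] at he
  unfold cfg
  exact ⟨fun h2 => ⟨h2, he⟩, fun h2 => h2.1⟩

end Pool.Agent.PB.Low
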