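import Pool.Agent.PB.Low.Det
import Pool.Agent.PB.Low.Ev
import Pool.Agent.PB.P.BKw
import Pool.Agent.PB.P.Conv
import Pool.Agent.PB.P.Tau

/-!
# PROJECT PB, Section 11, LOW-WkP (11.1 and the three-arm bound of 11.2): probabilities of typed connections

PLAN.
* `Pr_RchL`: translation (`Pr_act (trI x)`, as in `tau_shift` of P/Act.lean; the statement for `RchL` by induction on `r`).
* `kap_le_tau`: `RchL.rch`.
* `Pr_Wk_le`: by `T1` (Low/Det.lean) with `P = opn p ω`, `Q = Oc ω`: `Wk p r x y ⊆ ⋃ w, dOcc ![{RchL (opn p) r x w},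
  {Rch (Oc) w y}]`: the edge sets `S 0 = (ins C)ᶜ ∩ (finite)`, `S 1 = ins C ∩ (finite)` are disjoint; take finite subsets:
  for `RchL` prove `exists finite S ⊆ O with RchL S r x w` by induction (compare `Rch.exists_finite` in Basic.lean).
  BK link: `bk_gen` (P/BKw.lean) with k = 2, `f 0 = fun P _ _ => RchL P r x w`, `f 1 = fun _ Q _ => Rch Q w y`,
  levels `p j = p`, `p' j = pc d`, `h = fun _ _ => 0`, `G j = ∅`; `ev3` of these are `{RchL (opn p ω) r x w}` and
  `{Rch (Oc ω) w y}` definitionally. Then `Pr (Wk) ≤ Σ_w kap p r (w - x) * tau (pc d) (y - w)` (`measure_iUnion_le`),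
  `Out10.keepK`, `kap_le_tau` at `p_c`, and the sum is `conv (tau) (tau) (y - x)` (substitute `w = x + v`,
  `Equiv.tsum_eq (Equiv.addLeft x)` or `tsum_mul_sub`), `cpow_two`.
* `Pr_WkG_le`: `x ~> g` implies `Rch (opn p ω) x g` (`opn_mono hp`), `Mg_shift` or `Pr_ghost_type`.
* `Pr_TD3_le`: for ω in the event take `w, g, S1, S2, S3`; replace `S j` by finite subsets (each `TyS` uses finitely many
  edges); BK link `bk_gen` with k = 3, `f 0 = fun P Q _ => ∃ z, RchL P r y z ∧ Rch Q z w`, `f 1` the same with `y'`,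
  `f 2 = fun P Q Gh => ∃ g ∈ Gh false, ∃ z, RchL P r w z ∧ Rch Q z g`, ghost sets `G 2 = {(g, false)}`, others empty;
  `(A.rem O) ∩ S ⊆ O ∩ S`. `ev3 ... (f 0) = Wk p r y w` etc. (definitional: `Oc ω = opn (pc d) ω`). So
  `Pr ≤ Σ_w Pr (Wk p r y w) * (Pr (Wk p r y' w) * Pr (WkG p h r w))
      ≤ c^2 * Mg d p h * Σ_w cpow τ 2 (w - y) * cpow τ 2 (w - y')`, `c = ofReal ((p / pc d) ^ r)`;
  the last sum is `conv (cpow τ 2) (cpow τ 2) (y' - y) = cpow τ 4 (y' - y)` (`cpow_add` / `cpow_four`, evenness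
  `cpow_tau_even`, substitution `w = y + v`).
-/

set_option autoImplicit false
open MeasureTheory Filter Topology
open scoped ENNReal BigOperators
namespace Pool.Agent.PB.Low

variable {d : ℕ}

private theorem RchL_equiv' {W W' : Type*} {O : Set (Sym2 W)} {O' : Set (Sym2 W')} (f : W ≃ W')
    (h : ∀ a b, s(a, b) ∈ O ↔ s(f a, f b) ∈ O') (r : ℕ) (x y : W) :
    RchL O r x y ↔ RchL O' r (f x) (f y) := by
  induction r generalizing y with
  | zero => exact f.injective.eq_iff.symm
  | succ r ih =>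
    show (RchL O r x y ∨ ∃ z, RchL O r x z ∧ s(z, y) ∈ O) ↔
      (RchL O' r (f x) (f y) ∨ ∃ z, RchL O' r (f x) z ∧ s(z, f y) ∈ O')
    rw [← ih y]
    refine or_congr Iff.rfl ⟨?_, ?_⟩
    · rintro ⟨z, h1, h2⟩
      exact ⟨f z, (ih z).1 h1, (h z y).1 h2⟩
    · rintro ⟨z, h1, h2⟩
      obtain ⟨z', rfl⟩ := f.surjective z
      exact ⟨z', (ih z').2 h1, (h z' y).2 h2⟩

theorem Pr_RchL (p : ℝ) (r : ℕ) (x y : V d) :
    Pr d {ω | RchL (opn p ω) r x y} = kap p r (y - x) := by
  unfold kap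
  rw [← Pr_act (trI x) {ω | RchL (opn p ω) r 0 (y - x)}]
  congr 1
  ext ω
  simp only [Set.mem_ofPred_eq]
  rw [RchL_equiv' (trI x) (fun a b => mem_opn_act (trI_aut x) p ω a b)]
  simp [trI_apply]

theorem kap_le_tau (p : ℝ) (r : ℕ) (x : V d) : kap p r x ≤ tau p x :=
  measure_mono fun _ h => RchL.rch h

private theorem RchL_exists_finite {W : Type*} {O : Set (Sym2 W)} {r : ℕ} {x y : W}
    (h : RchL O r x y) : ∃ S : Set (Sym2 W), S ⊆ O ∧ S.Finite ∧ RchL S r x y := by
  induction r generalizing y with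
  | zero => exact ⟨∅, Set.empty_subset _, Set.finite_empty, h⟩
  | succ r ih =>
    rcases h with h | ⟨z, hz, he⟩
    · obtain ⟨S, h1, h2, h3⟩ := ih h
      exact ⟨S, h1, h2, Or.inl h3⟩
    · obtain ⟨S, h1, h2, h3⟩ := ih hz
      exact ⟨insert s(z, y) S, Set.insert_subset he h1, h2.insert _,
        Or.inr ⟨z, h3.mono (Set.subset_insert _ _), Set.mem_insert _ _⟩⟩

private theorem TyS_exists_finite {W : Type*} {P Q S : Set (Sym2 W)} {r : ℕ} {x y : W}
    (h : TyS P Q S r x y) : ∃ T : Set (Sym2 W), T ⊆ S ∧ T.Finite ∧ TyS P Q T r x y := by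
  obtain ⟨z, h1, h2⟩ := h
  obtain ⟨T1, a1, b1, c1⟩ := RchL_exists_finite h1
  obtain ⟨T2, a2, b2, c2⟩ := Rch.exists_finite h2
  have s1 : T1 ⊆ P ∩ (T1 ∪ T2) := fun e he => ⟨(a1 he).1, Or.inl he⟩
  have s2 : T2 ⊆ Q ∩ (T1 ∪ T2) := fun e he => ⟨(a2 he).1, Or.inr he⟩
  exact ⟨T1 ∪ T2, Set.union_subset (a1.trans Set.inter_subset_right)
    (a2.trans Set.inter_subset_right), b1.union b2, z, c1.mono s1, Rch.mono s2 c2⟩

/-- `f` for `RchL` -/
private def fL (r : ℕ) (x y : V d) : Set (Sym2 (V d)) → Set (Sym2 (V d)) → (Bool → Set (V d)) → Prop :=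
  fun P _ _ => RchL P r x y

private def fQ (x y : V d) : Set (Sym2 (V d)) → Set (Sym2 (V d)) → (Bool → Set (V d)) → Prop :=
  fun _ Q _ => Rch Q x y

private def fT (r : ℕ) (x y : V d) :
    Set (Sym2 (V d)) → Set (Sym2 (V d)) → (Bool → Set (V d)) → Prop :=
  fun P Q _ => ∃ z, RchL P r x z ∧ Rch Q z y

private def fTG (r : ℕ) (x : V d) :
    Set (Sym2 (V d)) → Set (Sym2 (V d)) → (Bool → Set (V d)) → Prop :=
  fun P Q G => ∃ g ∈ G false, ∃ z, RchL P r x z ∧ Rch Q z g

private theorem mono_fL (r : ℕ) (x y : V d) : Mono3 (fL r x y) :=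
  fun _ _ _ _ _ _ h _ _ h1 => RchL.mono h h1

private theorem mono_fQ (x y : V d) : Mono3 (fQ x y) :=
  fun _ _ _ _ _ _ _ h _ h1 => Rch.mono h h1

private theorem mono_fT (r : ℕ) (x y : V d) : Mono3 (fT r x y) :=
  fun _ _ _ _ _ _ h h' _ ⟨z, h1, h2⟩ => ⟨z, RchL.mono h h1, Rch.mono h' h2⟩

private theorem mono_fTG (r : ℕ) (x : V d) : Mono3 (fTG r x) :=
  fun _ _ _ _ _ _ h h' hG ⟨g, hg, z, h1, h2⟩ =>
    ⟨g, hG false hg, z, RchL.mono h h1, Rch.mono h' h2⟩

private theorem meas_Wk (p : ℝ) (r : ℕ) (x y : V d) : MeasurableSet (Wk p r x y) := by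
  have : Wk p r x y = ⋃ z, ({ω : Om d | RchL (opn p ω) r x z} ∩ {ω | Rch (Oc ω) z y}) := by
    ext ω; simp [Wk]
  rw [this]
  exact MeasurableSet.iUnion fun z => ((opn_MES p).rchL r x z).inter ((opn_MES (pc d)).rch z y)

private theorem meas_WkG (p h : ℝ) (r : ℕ) (x : V d) : MeasurableSet (WkG p h r x) := by
  have : WkG p h r x = ⋃ g, ({ω : Om d | g ∈ ghost false h ω} ∩ Wk p r x g) := by
    ext ω; simp [WkG, Wk]
  rw [this]
  exact MeasurableSet.iUnion fun g => (ghost_MVS false h g).inter (meas_Wk p r x g)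

/-- `Σ_w f(w-x) g(y-w) = (f*g)(y-x)` -/
private theorem tsum_conv_shift (f g : V d → ℝ≥0∞) (x y : V d) :
    ∑' w, f (w - x) * g (y - w) = conv f g (y - x) := by
  unfold conv
  rw [← (Equiv.subRight x).tsum_eq (fun w => f w * g (y - x - w))]
  refine tsum_congr fun w => ?_
  simp only [Equiv.subRight_apply]
  rw [sub_sub_sub_cancel_right]

/-- 11.1, first part -/
theorem Pr_Wk_le (h10 : Out10 d) {p : ℝ} (hp : pc d ≤ p) (hp1 : p ≤ 1) (r : ℕ) (x y : V d) :
    Pr d (Wk p r x y) ≤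
      ENNReal.ofReal ((p / pc d) ^ r) * cpow (tau (pc d)) 2 (y - x) := by
  let E : V d → Set (Om d) := fun w => {ω | ∃ S1 S2 : Set (Sym2 (V d)), Disjoint S1 S2 ∧
    RchL (opn p ω ∩ S1) r x w ∧ Rch (Oc ω ∩ S2) w y}
  have hsub : Wk p r x y ⊆ ⋃ w, E w := by
    rintro ω ⟨z, h1, h2⟩
    obtain ⟨w, h3, h4⟩ := T1 h1 h2
    exact Set.mem_iUnion.2 ⟨w, _, _, disjoint_compl_left, h3, h4⟩
  have hE : ∀ w, Pr d (E w) ≤ kap p r (w - x) * tau (pc d) (y - w) := by
    intro w
    have h1 := bk_gen (d := d) (fun _ : Fin 2 => p) (fun _ => pc d) (fun _ _ => 0)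
      (f := ![fL r x w, fQ w y]) (fun j => by
        fin_cases j
        · exact mono_fL r x w
        · exact mono_fQ w y) (fun j => by
        fin_cases j
        · exact (opn_MES p).rchL r x w
        · exact (opn_MES (pc d)).rch w y) (E := E w) (by
        rintro ω ⟨S1, S2, hd, h3, h4⟩
        obtain ⟨T1, a1, b1, c1⟩ := RchL_exists_finite h3
        obtain ⟨T2, a2, b2, c2⟩ := Rch.exists_finite h4
        refine ⟨![T1, T2], fun _ => ∅, fun j => ?_, fun _ => Set.finite_empty,
          fun i j hij => ?_, fun i j _ => Set.disjoint_empty _, fun j => ?_⟩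
        · fin_cases j
          · exact b1
          · exact b2
        · have hd' : Disjoint T1 T2 := hd.mono (a1.trans Set.inter_subset_right)
            (a2.trans Set.inter_subset_right)
          fin_cases i <;> fin_cases j
          · exact absurd rfl hij
          · exact hd'
          · exact hd'.symm
          · exact absurd rfl hij
        · fin_cases j
          · have hs : T1 ⊆ opn p ω ∩ T1 := fun e he => ⟨(a1 he).1, he⟩
            exact c1.mono hs
          · have hs : T2 ⊆ opn (pc d) ω ∩ T2 := fun e he => ⟨(a2 he).1, he⟩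
            exact Rch.mono hs c2)
    refine h1.trans (le_of_eq ?_)
    rw [Fin.prod_univ_two]
    exact congrArg₂ (· * ·) (Pr_RchL p r x w) (tau_shift (pc d) w y)
  calc Pr d (Wk p r x y) ≤ ∑' w, Pr d (E w) := (measure_mono hsub).trans (measure_iUnion_le _)
    _ ≤ ∑' w, ENNReal.ofReal ((p / pc d) ^ r) * (tau (pc d) (w - x) * tau (pc d) (y - w)) := by
        refine ENNReal.tsum_le_tsum fun w => (hE w).trans ?_
        rw [← mul_assoc]
        refine mul_le_mul' ((h10.keepK p r (w - x) hp hp1).trans ?_) le_rfl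
        exact mul_le_mul' le_rfl (kap_le_tau _ _ _)
    _ = ENNReal.ofReal ((p / pc d) ^ r) * cpow (tau (pc d)) 2 (y - x) := by
        rw [ENNReal.tsum_mul_left, tsum_conv_shift, cpow_two]

/-- 11.1, second part -/
theorem Pr_WkG_le {p : ℝ} (hp : pc d ≤ p) (h : ℝ) (r : ℕ) (x : V d) :
    Pr d (WkG p h r x) ≤ Mg d p h := by
  rw [← Mg_shift p h x]
  refine measure_mono ?_
  rintro ω ⟨g, hg, z, h1, h2⟩
  exact ⟨g, hg, h1.rch.trans (Rch.mono (opn_mono hp ω) h2)⟩

/-- the three-arm bound -/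
theorem Pr_TD3_le (h10 : Out10 d) {p : ℝ} (hp : pc d ≤ p) (hp1 : p ≤ 1) (h : ℝ) (r : ℕ)
    (A : Del (V d)) (y y' : V d) :
    Pr d {ω : Om d | ∃ w, ∃ g ∈ ghost false h ω, TD3 (A.rem (opn p ω)) (A.rem (Oc ω)) r y y' w g} ≤
      ENNReal.ofReal ((p / pc d) ^ r) ^ 2 * Mg d p h * t4 (y' - y) := by
  let E : V d → Set (Om d) := fun w =>
    {ω | ∃ g ∈ ghost false h ω, TD3 (A.rem (opn p ω)) (A.rem (Oc ω)) r y y' w g}
  have hsub : {ω : Om d | ∃ w, ∃ g ∈ ghost false h ω,
      TD3 (A.rem (opn p ω)) (A.rem (Oc ω)) r y y' w g} ⊆ ⋃ w, E w := by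
    rintro ω ⟨w, hw⟩
    exact Set.mem_iUnion.2 ⟨w, hw⟩
  have hTy : ∀ (ω : Om d) (S : Set (Sym2 (V d))) (a b : V d),
      TyS (A.rem (opn p ω)) (A.rem (Oc ω)) S r a b →
        ∃ z, RchL (opn p ω ∩ S) r a z ∧ Rch (opn (pc d) ω ∩ S) z b := by
    rintro ω S a b ⟨z, h1, h2⟩
    exact ⟨z, h1.mono (Set.inter_subset_inter_left _ (A.rem_subset _)),
      Rch.mono (Set.inter_subset_inter_left _ (A.rem_subset _)) h2⟩
  have hE : ∀ w, Pr d (E w) ≤ Pr d (Wk p r y w) * (Pr d (Wk p r y' w) * Pr d (WkG p h r w)) := by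
    intro w
    have h1 := bk_gen (d := d) (fun _ : Fin 3 => p) (fun _ => pc d) (fun _ _ => h)
      (f := ![fT r y w, fT r y' w, fTG r w]) (fun j => by
        fin_cases j
        · exact mono_fT r y w
        · exact mono_fT r y' w
        · exact mono_fTG r w) (fun j => by
        fin_cases j
        · exact meas_Wk p r y w
        · exact meas_Wk p r y' w
        · exact meas_WkG p h r w) (E := E w) (by
        rintro ω ⟨g, hg, S1, S2, S3, h12, h13, h23, t1, t2, t3⟩
        obtain ⟨T1, a1, b1, c1⟩ := TyS_exists_finite t1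
        obtain ⟨T2, a2, b2, c2⟩ := TyS_exists_finite t2
        obtain ⟨T3, a3, b3, c3⟩ := TyS_exists_finite t3
        refine ⟨![T1, T2, T3], ![∅, ∅, {(g, false)}], fun j => ?_, fun j => ?_,
          fun i j hij => ?_, fun i j hij => ?_, fun j => ?_⟩
        · fin_cases j
          · exact b1
          · exact b2
          · exact b3
        · fin_cases j
          · exact Set.finite_empty
          · exact Set.finite_empty
          · exact Set.finite_singleton _
        · have h12' : Disjoint T1 T2 := h12.mono a1 a2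
          have h13' : Disjoint T1 T3 := h13.mono a1 a3
          have h23' : Disjoint T2 T3 := h23.mono a2 a3
          fin_cases i <;> fin_cases j
          · exact absurd rfl hij
          · exact h12'
          · exact h13'
          · exact h12'.symm
          · exact absurd rfl hij
          · exact h23'
          · exact h13'.symm
          · exact h23'.symm
          · exact absurd rfl hij
        · fin_cases i <;> fin_cases j
          · exact absurd rfl hij
          · exact Set.disjoint_empty _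
          · exact Set.empty_disjoint _
          · exact Set.disjoint_empty _
          · exact absurd rfl hij
          · exact Set.empty_disjoint _
          · exact Set.disjoint_empty _
          · exact Set.disjoint_empty _
          · exact absurd rfl hij
        · fin_cases j
          · exact hTy ω T1 y w c1
          · exact hTy ω T2 y' w c2
          · exact ⟨g, ⟨hg, rfl⟩, hTy ω T3 w g c3⟩)
    refine h1.trans (le_of_eq ?_)
    rw [Fin.prod_univ_three, mul_assoc]
    rfl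
  calc _ ≤ ∑' w, Pr d (E w) := (measure_mono hsub).trans (measure_iUnion_le _)
    _ ≤ ∑' w, (ENNReal.ofReal ((p / pc d) ^ r) ^ 2 * Mg d p h) *
          (cpow (tau (pc d)) 2 (w - y) * cpow (tau (pc d)) 2 (y' - w)) := by
        refine ENNReal.tsum_le_tsum fun w => (hE w).trans ?_
        have h1 := Pr_Wk_le h10 hp hp1 r y w
        have h2 := Pr_Wk_le h10 hp hp1 r y' w
        have h3 : cpow (tau (pc d)) 2 (y' - w) = cpow (tau (pc d)) 2 (w - y') := by
          rw [← cpow_tau_even, neg_sub]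
        refine (mul_le_mul' h1 (mul_le_mul' h2 (Pr_WkG_le hp h r w))).trans (le_of_eq ?_)
        rw [h3]
        ring
    _ = _ := by
        rw [ENNReal.tsum_mul_left, tsum_conv_shift, ← cpow_add]
        rfl

end Pool.Agent.PB.Low
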