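import Pool.Agent.PB.Low.Lift
import Pool.Agent.PB.Low.WkP

/-!
# PROJECT PB, Section 11, LOW-Pair: 11.2 and 11.3

PLAN.
* `pairX`. `P = A.rem (opn p ω)`, `Q = A.rem (Oc ω) ⊆ P` (`opn_mono hp`, `Del.rem_mono`). Let `B = box (XEv y) (XEv y')`
  (BK.lean; `bk2_Pr`, `isUp_XEv`, `measurableSet_XEv`), `Pr B ≤ fr y * fr y'`. Let
  `E z = (XEv y ∩ XEv y') \ B ∩ {RchL P r y z} ∩ {Big n Q z}`: measurable (`measurableSet_box`), depends only on
  edge labels (`dep_XEv_edges`; for `B`: if ω = ω' off `gI d false` then for every `S` also `restr S ω = restr S ω'` off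
  `gI d false`), `⋃ E z = (XEv y ∩ XEv y') \ B`. `ghost_lift` with
  `T = {ω | ∃ w, ∃ g ∈ ghost false (1/n) ω, TD3 P Q r y y' w g}`; `Pr_TD3_le` with `h = 1 / n`.
  The hypothesis `hT`: ω ∈ E z, g ∈ ghost ∩ Cl Q z. Take `z'` from `XEv y'`: `RchL P r y' z'`, `Big n Q z'`.
  `det_pair` (Low/Det.lean): second alternative gives `TD3`; first alternative gives `ω ∈ B` (contradiction): disjoint
  `S, S'`, `RchL (P ∩ S) r y z1`, `Cl Q z ⊆ Cl (Q ∩ S) z1`, so `Big n (Q ∩ S) z1`; take FINITE subsets of labels: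
  `pair_box` below.
* `pair_box`: from `RchL (A.rem (opn p ω) ∩ S) r y z`, `Big n (A.rem (Oc ω) ∩ S) z` get a finite `S₀ ⊆ S` with the
  same for `S₀`: `RchL` uses finitely many edges; `Big`: choose a finite subset `C₀` of the cluster `Cl (Q ∩ S) z` with
  `n ≤ |C₀|` (`Set.Infinite.exists_subset_card_eq` if infinite, the whole cluster if finite), for each `v ∈ C₀` a finite
  edge set connecting `z` to `v` (`Rch.exists_finite`), finite union; then `C₀ ⊆ Cl (Q ∩ S₀) z` (if `Cl (Q ∩ S₀) z` is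
  infinite: `Or.inl`; else `Set.ncard_le_ncard`). Labels: `Finset.image Sum.inl S₀`, and
  `A.rem (opn p ω) ∩ S₀ ⊆ A.rem (opn p (restr (inl '' S₀) ω))` (`restr_of_mem`). Better: use `Low/Ev` monotonicity.
* `singleX`. `A' ⊆ A`, `y ∉ A`. `P = (ofSet A').rem (opn p ω)`, `Q = (ofSet A').rem (Oc ω)`.
  `E z = (XEv A' y \ XEv A y) ∩ {RchL P r y z} ∩ {Big n Q z}`. For ω ∈ E z and g ∈ ghost ∩ Cl Q z: `det_single` with the
  set `A`: the first alternative gives `RchL (P \ touch A) r y z1`, `Cl Q z ⊆ Cl (Q \ touch A) z1` and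
  `P \ touch A = (ofSet A).rem (opn p ω)` (`rem_ofSet`, `A' ⊆ A`), so ω ∈ XEv A y, contradiction. The second gives
  `z0 ∈ A`, `Rch P y z0` (so `z0 ∉ A'`, as every vertex reachable from `y ∉ A'` off `A'` is not in `A'`), `TD3 P Q r y z0 w g`.
  So `T = ⋃ z0 ∈ A \ A', {∃ w g, TD3 ... y z0 w g}`, `Pr T ≤ Σ_{z0} c t4 (z0 - y)` (`measure_iUnion_le`, indicator form).
-/

set_option autoImplicit false
open MeasureTheory Filter Topology
open scoped ENNReal BigOperators

namespace Pool.Agent.PB.Low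

variable {d : ℕ}

private theorem RchL_fin {W : Type*} {O : Set (Sym2 W)} {r : ℕ} {x z : W} (h : RchL O r x z) :
    ∃ S0 : Finset (Sym2 W), (S0 : Set (Sym2 W)) ⊆ O ∧ RchL (S0 : Set (Sym2 W)) r x z := by
  classical
  induction r generalizing z with
  | zero => exact ⟨∅, by simp, h⟩
  | succ r ih =>
    rcases h with h | ⟨z', hz', he⟩
    · obtain ⟨S0, h1, h2⟩ := ih h
      exact ⟨S0, h1, Or.inl h2⟩
    · obtain ⟨S0, h1, h2⟩ := ih hz'
      refine ⟨insert s(z', z) S0, ?_, Or.inr ⟨z', ?_, ?_⟩⟩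
      · rw [Finset.coe_insert]
        exact Set.insert_subset he h1
      · refine RchL.mono ?_ h2
        rw [Finset.coe_insert]
        exact Set.subset_insert _ _
      · rw [Finset.coe_insert]
        exact Set.mem_insert _ _

private theorem Big_fin {W : Type*} {n : ℝ} {O : Set (Sym2 W)} {z : W} (h : Big n O z) :
    ∃ S0 : Finset (Sym2 W), (S0 : Set (Sym2 W)) ⊆ O ∧ Big n (S0 : Set (Sym2 W)) z := by
  classical
  have h1 : ∃ C0 : Finset W, (C0 : Set W) ⊆ Cl O z ∧ n ≤ (C0.card : ℝ) := by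
    by_cases hf : (Cl O z).Finite
    · refine ⟨hf.toFinset, by simp, ?_⟩
      rcases h with h | h
      · exact absurd hf h
      · rwa [Set.ncard_eq_toFinset_card _ hf] at h
    · obtain ⟨C0, hC, hc⟩ := Set.Infinite.exists_subset_card_eq (s := Cl O z) hf ⌈n⌉₊
      exact ⟨C0, hC, by rw [hc]; exact Nat.le_ceil n⟩
  obtain ⟨C0, hC, hn⟩ := h1
  have h2 : ∀ v : W, ∃ S0 : Finset (Sym2 W), (S0 : Set (Sym2 W)) ⊆ O ∧
      (v ∈ C0 → Rch (S0 : Set (Sym2 W)) z v) := by
    intro v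
    by_cases hv : v ∈ C0
    · obtain ⟨S0, h3, hfin, h4⟩ := Rch.exists_finite (hC hv : Rch O z v)
      exact ⟨hfin.toFinset, by simpa using h3, fun _ => by simpa using h4⟩
    · exact ⟨∅, by simp, fun h => absurd h hv⟩
  choose F hF1 hF2 using h2
  refine ⟨C0.biUnion F, ?_, ?_⟩
  · intro e he
    rw [Finset.mem_coe, Finset.mem_biUnion] at he
    obtain ⟨v, _, hv⟩ := he
    exact hF1 v hv
  · have h3 : (C0 : Set W) ⊆ Cl ((C0.biUnion F : Finset (Sym2 W)) : Set (Sym2 W)) z := by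
      intro v hv
      refine Rch.mono ?_ (hF2 v hv)
      intro e he
      rw [Finset.mem_coe, Finset.mem_biUnion]
      exact ⟨v, hv, he⟩
    by_cases hf : (Cl ((C0.biUnion F : Finset (Sym2 W)) : Set (Sym2 W)) z).Finite
    · right
      refine hn.trans ?_
      have h4 := Set.ncard_le_ncard h3 hf
      rw [Set.ncard_coe_finset] at h4
      exact_mod_cast h4
    · exact Or.inl hf

private theorem one_box {p n : ℝ} {r : ℕ} {A : Del (V d)} {y z : V d} {ω : Om d}
    {S : Set (Sym2 (V d))} (hy : y ∉ A.S)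
    (h1 : RchL (A.rem (opn p ω) ∩ S) r y z) (h2 : Big n (A.rem (Oc ω) ∩ S) z) :
    ∃ S0 : Finset (Sym2 (V d)), (S0 : Set (Sym2 (V d))) ⊆ S ∧
      ∀ T : Set (Ix d), (∀ e ∈ S0, Sum.inl e ∈ T) → restr T ω ∈ XEv p n r A y := by
  classical
  obtain ⟨S1, hS1, h1'⟩ := RchL_fin h1
  obtain ⟨S2, hS2, h2'⟩ := Big_fin h2
  refine ⟨S1 ∪ S2, ?_, ?_⟩
  · rw [Finset.coe_union]
    exact Set.union_subset (fun e he => (hS1 he).2) (fun e he => (hS2 he).2)
  · intro T hT
    have hsub : ∀ q : ℝ, ∀ S' : Finset (Sym2 (V d)), S' ⊆ S1 ∪ S2 →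
        (S' : Set (Sym2 (V d))) ⊆ A.rem (opn q ω) →
        (S' : Set (Sym2 (V d))) ⊆ A.rem (opn q (restr T ω)) := by
      intro q S' hS' hq e he
      obtain ⟨⟨h3, h4⟩, h5⟩ := hq he
      refine ⟨⟨h3, ?_⟩, h5⟩
      rw [restr_of_mem ω (hT e (hS' he))]
      exact h4
    refine mem_XEv.2 ⟨hy, z, ?_, ?_⟩
    · exact RchL.mono (hsub p S1 Finset.subset_union_left (fun e he => (hS1 he).1)) h1'
    · exact Big.mono (hsub (pc d) S2 Finset.subset_union_right (fun e he => (hS2 he).1)) h2'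

theorem pair_box {p n : ℝ} {r : ℕ} {A : Del (V d)} {y y' z z' : V d} {ω : Om d}
    {S S' : Set (Sym2 (V d))} (hS : Disjoint S S') (hy : y ∉ A.S) (hy' : y' ∉ A.S)
    (h1 : RchL (A.rem (opn p ω) ∩ S) r y z) (h2 : Big n (A.rem (Oc ω) ∩ S) z)
    (h1' : RchL (A.rem (opn p ω) ∩ S') r y' z') (h2' : Big n (A.rem (Oc ω) ∩ S') z') :
    ω ∈ box (XEv p n r A y) (XEv p n r A y') := by
  classical
  obtain ⟨S0, hS0, hb⟩ := one_box hy h1 h2
  obtain ⟨S0', hS0', hb'⟩ := one_box hy' h1' h2'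
  refine ⟨S0.image Sum.inl, S0'.image Sum.inl, ?_, hb _ ?_, hb' _ ?_⟩
  · rw [Finset.disjoint_left]
    intro i hi hi'
    obtain ⟨e, he, rfl⟩ := Finset.mem_image.1 hi
    obtain ⟨e', he', h⟩ := Finset.mem_image.1 hi'
    have h3 : e' = e := Sum.inl_injective h
    subst h3
    exact Set.disjoint_left.1 hS (hS0 he) (hS0' he')
  · intro e he
    exact Finset.mem_coe.2 (Finset.mem_image_of_mem _ he)
  · intro e he
    exact Finset.mem_coe.2 (Finset.mem_image_of_mem _ he)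

private theorem dep_box {A B : Set (Om d)} {T : Set (Ix d)}
    (hA : DependsOn (fun ω : Om d => ω ∈ A) T) (hB : DependsOn (fun ω : Om d => ω ∈ B) T) :
    DependsOn (fun ω : Om d => ω ∈ box A B) T := by
  have key : ∀ ω ω' : Om d, (∀ i ∈ T, ω i = ω' i) → ω ∈ box A B → ω' ∈ box A B := by
    rintro ω ω' h ⟨S, S', h1, h2, h3⟩
    have hr : ∀ S : Set (Ix d), ∀ i ∈ T, restr S ω i = restr S ω' i := by
      intro S i hi
      by_cases hS : i ∈ S
      · rw [restr_of_mem _ hS, restr_of_mem _ hS, h i hi]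
      · rw [restr_of_notMem _ hS, restr_of_notMem _ hS]
    refine ⟨S, S', h1, ?_, ?_⟩
    · have := hA (x := restr (S : Set (Ix d)) ω) (y := restr (S : Set (Ix d)) ω') (hr _)
      simp only [eq_iff_iff] at this
      exact this.1 h2
    · have := hB (x := restr (S' : Set (Ix d)) ω) (y := restr (S' : Set (Ix d)) ω') (hr _)
      simp only [eq_iff_iff] at this
      exact this.1 h3
  intro ω ω' h
  simp only [eq_iff_iff]
  exact ⟨key ω ω' h, key ω' ω (fun i hi => (h i hi).symm)⟩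

private theorem dep_edge_prop (p : ℝ) (A : Del (V d)) (F : Set (Sym2 (V d)) → Set (Sym2 (V d)) → Prop)
    (b : Bool) : DependsOn (fun ω : Om d => F (A.rem (opn p ω)) (A.rem (Oc ω))) (gI d b)ᶜ := by
  intro ω ω' h
  have h1 : ∀ q : ℝ, opn q ω = opn q ω' := by
    intro q
    ext e
    have h2 : ω (Sum.inl e) = ω' (Sum.inl e) := by
      apply h
      rintro ⟨v, hv⟩
      cases hv
    simp only [opn, Set.mem_ofPred_eq, h2]
  show F (A.rem (opn p ω)) (A.rem (opn (pc d) ω)) = F (A.rem (opn p ω')) (A.rem (opn (pc d) ω'))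
  rw [h1 p, h1 (pc d)]

/-- the common part of 11.2 and 11.3 -/
private theorem common {p : ℝ} {n : ℝ} (hn : 0 < n) (r : ℕ) (A : Del (V d)) (y : V d)
    {X : Set (Om d)} (hX : MeasurableSet X) (hXd : DependsOn (fun ω : Om d => ω ∈ X) (gI d false)ᶜ)
    (hXs : X ⊆ XEv p n r A y) {T : Set (Om d)}
    (hT : ∀ ω ∈ X, ∀ z, RchL (A.rem (opn p ω)) r y z → Big n (A.rem (Oc ω)) z →
      (∃ g ∈ ghost false (1 / n) ω, g ∈ Cl (A.rem (Oc ω)) z) → ω ∈ T) :
    Pr d X ≤ 2 * Pr d T := by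
  have h1 : X = ⋃ z, (X ∩ {ω | RchL (A.rem (opn p ω)) r y z ∧ Big n (A.rem (Oc ω)) z}) := by
    ext ω
    simp only [Set.mem_iUnion, Set.mem_inter_iff, Set.mem_ofPred_eq]
    constructor
    · intro hω
      obtain ⟨_, z, hz, hz'⟩ := mem_XEv.1 (hXs hω)
      exact ⟨z, hω, hz, hz'⟩
    · rintro ⟨z, hω, _⟩
      exact hω
  rw [h1]
  refine ghost_lift hn A (fun z => ?_) (fun z => ?_) (fun z ω hω => hω.2.2) (fun z ω hω hg =>
    hT ω hω.1 z hω.2.1 hω.2.2 hg)
  · exact hX.inter ((((opn_MES p).rem A).rchL r y z).inter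
      (measurableSet_Big ((opn_MES (pc d)).rem A) n z))
  · exact dep_inter hXd (dep_edge_prop p A (fun P Q => RchL P r y z ∧ Big n Q z) false)

/-- 11.2 -/
theorem pairX (h10 : Out10 d) {p : ℝ} (hp : pc d ≤ p) (hp1 : p ≤ 1) {n : ℝ} (hn : 0 < n) (r : ℕ)
    (A : Set (V d)) (y y' : V d) :
    Pr d (XEv p n r (Del.ofSet A) y ∩ XEv p n r (Del.ofSet A) y') ≤
      fr p n r A y * fr p n r A y' +
        2 * (ENNReal.ofReal ((p / pc d) ^ r) ^ 2 * Mg d p (1 / n) * t4 (y' - y)) := by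
  set X := XEv p n r (Del.ofSet A) y with hX
  set X' := XEv p n r (Del.ofSet A) y' with hX'
  have mX := measurableSet_XEv p n r (Del.ofSet A) y
  have mX' := measurableSet_XEv p n r (Del.ofSet A) y'
  rw [← hX] at mX
  rw [← hX'] at mX'
  have mB : MeasurableSet (box X X') := measurableSet_box mX mX'
  have h1 : Pr d (X ∩ X') ≤ Pr d (box X X') + Pr d ((X ∩ X') \ box X X') := by
    refine (measure_mono ?_).trans (measure_union_le _ _)
    intro ω hω
    by_cases h : ω ∈ box X X'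
    · exact Or.inl h
    · exact Or.inr ⟨hω, h⟩
  refine h1.trans (add_le_add ?_ ?_)
  · exact bk2_Pr mX mX' (isUp_XEv _ _ _ _ _) (isUp_XEv _ _ _ _ _)
  · refine (common (p := p) hn r (Del.ofSet A) y ((mX.inter mX').diff mB) ?_
      (fun ω hω => hω.1.1) (T := {ω : Om d | ∃ w, ∃ g ∈ ghost false (1 / n) ω,
        TD3 ((Del.ofSet A).rem (opn p ω)) ((Del.ofSet A).rem (Oc ω)) r y y' w g}) ?_).trans ?_
    · have d1 := dep_XEv_edges p n r (Del.ofSet A) y false
      have d2 := dep_XEv_edges p n r (Del.ofSet A) y' false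
      exact dep_inter (dep_inter d1 d2) (dep_compl (dep_box d1 d2))
    · rintro ω ⟨⟨hω1, hω2⟩, hω3⟩ z hz hb ⟨g, hg, hgC⟩
      obtain ⟨hyA, _⟩ := mem_XEv.1 hω1
      obtain ⟨hyA', z', hz', hb'⟩ := mem_XEv.1 hω2
      have hQP : (Del.ofSet A).rem (Oc ω) ⊆ (Del.ofSet A).rem (opn p ω) :=
        Del.rem_mono _ (opn_mono hp ω)
      rcases det_pair hQP hz hz' with ⟨S, S', hSS, ⟨z1, h2, h3⟩, z1', h2', h3'⟩ | h
      · exfalso
        apply hω3
        have hBig : ∀ {S : Set (Sym2 (V d))} {z z1 : V d}, Big n ((Del.ofSet A).rem (Oc ω)) z →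
            Cl ((Del.ofSet A).rem (Oc ω)) z ⊆ Cl ((Del.ofSet A).rem (Oc ω) ∩ S) z1 →
            Big n ((Del.ofSet A).rem (Oc ω) ∩ S) z1 := by
          intro S z z1 hb hsub
          by_cases hf : (Cl ((Del.ofSet A).rem (Oc ω) ∩ S) z1).Finite
          · rcases hb with hb | hb
            · exact absurd (hf.subset hsub) hb
            · exact Or.inr (hb.trans (by exact_mod_cast Set.ncard_le_ncard hsub hf))
          · exact Or.inl hf
        exact pair_box hSS hyA hyA' h2 (hBig hb h3) h2' (hBig hb' h3')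
      · obtain ⟨w, hw⟩ := h g hgC
        exact ⟨w, g, hg, hw⟩
    · exact mul_le_mul_right (Pr_TD3_le h10 hp hp1 (1 / n) r (Del.ofSet A) y y') 2

/-- 11.3 -/
theorem singleX (h10 : Out10 d) {p : ℝ} (hp : pc d ≤ p) (hp1 : p ≤ 1) {n : ℝ} (hn : 0 < n) (r : ℕ)
    {A' A : Set (V d)} (hA : A' ⊆ A) {y : V d} (hy : y ∉ A) :
    fr p n r A' y ≤ fr p n r A y +
      2 * (ENNReal.ofReal ((p / pc d) ^ r) ^ 2 * Mg d p (1 / n)) *
        ∑' z : V d, (A \ A').indicator (fun z => t4 (z - y)) z := by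
  have mX := measurableSet_XEv p n r (Del.ofSet A) y
  have mX' := measurableSet_XEv p n r (Del.ofSet A') y
  have hy' : y ∉ (Del.ofSet A').S := fun h => hy (hA h)
  have h1 : fr p n r A' y ≤ fr p n r A y +
      Pr d (XEv p n r (Del.ofSet A') y \ XEv p n r (Del.ofSet A) y) := by
    refine (measure_mono ?_).trans (measure_union_le _ _)
    intro ω hω
    by_cases h : ω ∈ XEv p n r (Del.ofSet A) y
    · exact Or.inl h
    · exact Or.inr ⟨hω, h⟩
  refine h1.trans (add_le_add le_rfl ?_)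
  set E : V d → Set (Om d) := fun z0 => {ω : Om d | ∃ w, ∃ g ∈ ghost false (1 / n) ω,
        TD3 ((Del.ofSet A').rem (opn p ω)) ((Del.ofSet A').rem (Oc ω)) r y z0 w g} with hE
  refine (common (p := p) hn r (Del.ofSet A') y (mX'.diff mX) ?_
      (fun ω hω => hω.1) (T := ⋃ z0, ⋃ (_ : z0 ∈ A \ A'), E z0) ?_).trans ?_
  · have d1 := dep_XEv_edges p n r (Del.ofSet A) y false
    have d2 := dep_XEv_edges p n r (Del.ofSet A') y false
    exact dep_inter d2 (dep_compl d1)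
  · rintro ω ⟨hω1, hω2⟩ z hz hb ⟨g, hg, hgC⟩
    have hQP : (Del.ofSet A').rem (Oc ω) ⊆ (Del.ofSet A').rem (opn p ω) :=
      Del.rem_mono _ (opn_mono hp ω)
    have htouch : ∀ O : Set (Sym2 (V d)),
        (Del.ofSet A').rem O \ touch A = (Del.ofSet A).rem O := by
      intro O
      rw [rem_ofSet, rem_ofSet, Set.sdiff_sdiff]
      congr 1
      apply Set.union_eq_self_of_subset_left
      rintro e ⟨x, hx, hxA⟩
      exact ⟨x, hx, hA hxA⟩
    rcases det_single hQP hz A with ⟨z1, h2, h3⟩ | h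
    · exfalso
      apply hω2
      rw [htouch] at h2 h3
      refine mem_XEv.2 ⟨hy, z1, h2, ?_⟩
      by_cases hf : (Cl ((Del.ofSet A).rem (Oc ω)) z1).Finite
      · rcases hb with hb | hb
        · exact absurd (hf.subset h3) hb
        · exact Or.inr (hb.trans (by exact_mod_cast Set.ncard_le_ncard h3 hf))
      · exact Or.inl hf
    · obtain ⟨z0, hz0, hr, w, hw⟩ := h g hgC
      have h4 : z0 ∉ A' := by
        have h5 : z0 ∈ ClA (Del.ofSet A') (opn p ω) y := ⟨hy', hr⟩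
        exact ClA_disjoint h5
      refine Set.mem_iUnion.2 ⟨z0, Set.mem_iUnion.2 ⟨⟨hz0, h4⟩, ?_⟩⟩
      exact ⟨w, g, hg, hw⟩
  · rw [mul_assoc]
    refine mul_le_mul_right ?_ 2
    rw [← ENNReal.tsum_mul_left]
    refine (measure_iUnion_le _).trans (ENNReal.tsum_le_tsum fun z0 => ?_)
    by_cases h : z0 ∈ A \ A'
    · rw [Set.indicator_of_mem h]
      refine (measure_mono (Set.iUnion_subset fun _ => subset_rfl)).trans ?_
      exact Pr_TD3_le h10 hp hp1 (1 / n) r (Del.ofSet A') y z0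
    · have h2 : (⋃ (_ : z0 ∈ A \ A'), E z0) = ∅ := by
        apply Set.iUnion_eq_empty.2
        intro h3
        exact absurd h3 h
      rw [h2, measure_empty]
      exact zero_le

end Pool.Agent.PB.Low
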